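import Pool.Agent.Work.MP_a6f1bd_R.Interface2

set_option autoImplicit false

/-! # Block BTG: points between two points -/

namespace Pool.Agent.Work.MP_a6f1bd_R

open Real Filter Topology Set

/-- Block BTG. -/
theorem r_BTG (hSGM : Stmt_SGM) (hMIN : Stmt_MIN) (hGEO : Stmt_GEO) (_hINJ : Stmt_INJ)
    (_hDIS : Stmt_DIS) (hBTW : Stmt_BTW) : Stmt_BTG := by
  intro m G hc hN y p z hyz h
  obtain ⟨c, hc1, hc0, hcL, -⟩ := hSGM m G hc hN y z hyz
  obtain ⟨s, -, hs1, hs2⟩ := hBTW m G hc hN y p z h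
  refine ⟨c, hc1, hc0, ?_, hcL⟩
  have h1 := (hMIN m G hc hN c hc1.1 0 (G.rdist y z)).1
  rw [hc0, hcL, sub_zero] at h1
  have h2 := (hGEO m G).2.2.1 hc c (s * G.rdist y z) 0 hc1.1 1
  rw [hc0, mul_one, add_zero] at h2
  rw [hs2, hs1, h1, smul_smul]
  exact h2.symm

end Pool.Agent.Work.MP_a6f1bd_R
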