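import Pool.Agent.Work.MP_a6f1bd_R.Interface1

set_option autoImplicit false

/-! # Block BTW: points with equality in the triangle inequality are on the geodesic -/

namespace Pool.Agent.Work.MP_a6f1bd_R

open Real Filter Topology Set
open scoped ContDiff

theorem r_BTW (hCSC : Stmt_CSC) (hINJ : Stmt_INJ) (hDIS : Stmt_DIS) : Stmt_BTW := by
  intro m G hc hN x y z h
  obtain ⟨-, -, -, -, -, c6, c7, c8⟩ := hCSC m G
  obtain ⟨i1, -, -, i4, -, -⟩ := hINJ m G hc hN x
  obtain ⟨-, d2, -, -, -, d6, d7, d8⟩ := hDIS m G hc hN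
  have h1 := d8 x y z (G.lo hc x z)
  have hxz := d2 x z
  have hxy := d2 x y
  set W := G.lo hc x z with hW
  set Y := G.lo hc x y with hY
  have h2 : G.g x (W - Y) W = G.nrm x W ^ 2 - G.g x Y W := by
    rw [(c8 x W).2, map_sub]
    rfl
  have h3 : G.nrm x Y * G.nrm x W ≤ G.g x Y W := by
    have h4 : G.rdist y z = G.nrm x W - G.nrm x Y := by linarith
    rw [h2, h4] at h1
    nlinarith
  have h5 := c7 x Y W h3
  by_cases h0 : G.nrm x W = 0
  · have h6 : G.rdist x y = 0 := by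
      have h7 := d7 x y
      have h8 := d7 y z
      rw [hxz, h0] at h
      linarith
    have h9 : x = y := d6 x y h6
    refine ⟨0, ⟨le_rfl, zero_le_one⟩, ?_, ?_⟩
    · rw [zero_smul, i4, h9]
    · rw [h6, zero_mul]
  · have h10 : 0 < G.nrm x W := lt_of_le_of_ne (c8 x W).1 (Ne.symm h0)
    have h11 : G.nrm x Y ≤ G.nrm x W := by
      have h8 := d7 y z
      linarith
    refine ⟨G.nrm x Y / G.nrm x W, ⟨div_nonneg (c8 x Y).1 h10.le, (div_le_one h10).2 h11⟩, ?_, ?_⟩
    · have h12 : (G.nrm x Y / G.nrm x W) • W = Y := by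
        rw [div_eq_inv_mul, mul_smul, ← h5, smul_smul, inv_mul_cancel₀ h0, one_smul]
      rw [h12, hY, i1 y]
    · rw [hxy, hxz]
      field_simp

end Pool.Agent.Work.MP_a6f1bd_R
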