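import Pool.Agent.Work.MP_a6f1bd_R.Interface2

set_option autoImplicit false

/-!
# PROJECT RIEMANN (MP_a6f1bd_gt), block CGB: curvature at least `-1` for points on a segment
-/

namespace Pool.Agent.Work.MP_a6f1bd_R

open Real Filter Topology Set
open scoped ContDiff

theorem r_CGB (hBTG : Stmt_BTG) (hSTH : Stmt_STH) (hDIS : Stmt_DIS) : Stmt_CGB := by
  intro m G hc hN hG y p z q hsum
  obtain ⟨-, -, -, hsymm, hself, hzero, hnn, -⟩ := hDIS m G hc hN
  by_cases hyz : y = z
  · subst hyz
    rw [hself, hsymm p y] at hsum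
    have h1 : G.rdist y p = 0 := by
      have := hnn y p
      linarith
    have h2 := hzero _ _ h1
    subst h2
    rw [hself]
    simp
  · obtain ⟨c, hc1, h0, hp, hz⟩ := hBTG m G hc hN y p z hyz hsum
    have h1 := hSTH m G hc hN hG q c hc1 (G.rdist y p) (G.rdist y z) (hnn _ _) (by
      have := hnn p z
      linarith)
    have h2 : G.rdist y z - G.rdist y p = G.rdist p z := by linarith
    rw [h2, h0, hp, hz] at h1
    exact h1

end Pool.Agent.Work.MP_a6f1bd_R
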