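import Pool.Agent.Work.MP_a6f1bd_R.Interface2

set_option autoImplicit false

/-! # Block CLO: the two topologies have the same closures -/

namespace Pool.Agent.Work.MP_a6f1bd_R

open Real Filter Topology Set
open scoped ContDiff
open Pool.Agent.Work.MP_a6f1bd_gt

theorem r_CLO (hTOP : Stmt_TOP) (hDIS : Stmt_DIS) : Stmt_CLO := by
  intro m G hc hN h S
  obtain ⟨-, -, -, hsym, -, -, -, -⟩ := hDIS m G hc hN
  have hn : ∀ x : E m,
      @nhds (Pt m) (G.msp h).toUniformSpace.toTopologicalSpace x = (nhds x : Filter (E m)) := by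
    intro x
    have h1 := @nhds_comap_dist (Pt m) (G.msp h).toPseudoMetricSpace x
    have h2 : ∀ l : Filter (E m),
        l ≤ Filter.comap (fun z : E m => G.rdist z x) (𝓝 (0 : ℝ)) ↔ l ≤ 𝓝 x := by
      intro l
      rw [← Filter.tendsto_iff_comap]
      have h3 := (hTOP m G hc hN x (E m) l id).1
      have h4 : (fun i : E m => G.rdist x (id i)) = fun z => G.rdist z x := by
        funext z
        exact hsym x z
      rw [h4] at h3
      exact h3
    have h5 : (Filter.comap (fun z : E m => G.rdist z x) (𝓝 (0 : ℝ))) = 𝓝 x :=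
      le_antisymm ((h2 _).1 le_rfl) ((h2 _).2 le_rfl)
    exact h1.symm.trans h5
  ext x
  refine Iff.trans (@mem_closure_iff_clusterPt (Pt m) (G.msp h).toUniformSpace.toTopologicalSpace x S)
    (Iff.trans ?_ (mem_closure_iff_clusterPt (X := E m)).symm)
  unfold ClusterPt
  rw [hn x]
  rfl

end Pool.Agent.Work.MP_a6f1bd_R
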