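import Pool.Agent.Work.MP_a6f1bd_R.Interface1

set_option autoImplicit false

/-! # Block CMT -/

namespace Pool.Agent.Work.MP_a6f1bd_R

open Real Filter Topology Set
open scoped ContDiff

namespace X_CMT

variable {m : ℕ} (G : RMetric m)

theorem diff (x : E m) : HasFDerivAt G.g (fderiv ℝ G.g x) x :=
  (G.smooth.differentiable (by simp) x).hasFDerivAt

theorem dsymm (x u v w : E m) : fderiv ℝ G.g x u v w = fderiv ℝ G.g x u w v := by
  have h1 := ((diff G x).clm_apply (hasFDerivAt_const v x)).clm_apply (hasFDerivAt_const w x)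
  have h2 := ((diff G x).clm_apply (hasFDerivAt_const w x)).clm_apply (hasFDerivAt_const v x)
  have h3 : (fun y => G.g y v w) = (fun y => G.g y w v) := by
    funext y
    exact G.symm y v w
  rw [h3] at h1
  have h4 := h1.unique h2
  have h5 := congrArg (fun L => L u) h4
  simpa using h5

theorem comp (c : ℝ → E m) (T : E m) (s : ℝ) (hc : HasDerivAt c T s) :
    HasDerivAt (fun r => G.g (c r)) (fderiv ℝ G.g (c s) T) s := by
  have := HasFDerivAt.comp_hasDerivAt (f := c) (l := G.g) s (diff G (c s)) hc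
  exact this

end X_CMT

theorem r_CMT (hGAM : Stmt_GAM) : Stmt_CMT := by
  intro m G
  obtain ⟨B, hB, hG, hk, hs⟩ := hGAM m G
  have h1 : ∀ x u v w, fderiv ℝ G.g x u v w =
      G.g x (G.Gam x u v) w + G.g x v (G.Gam x u w) := by
    intro x u v w
    rw [G.symm x v (G.Gam x u w), hG, hG, hk, hk]
    have e1 := X_CMT.dsymm G x u v w
    have e2 := X_CMT.dsymm G x v u w
    have e3 := X_CMT.dsymm G x w u v
    linarith
  refine ⟨h1, ?_⟩
  intro c X Y T X' Y' s hc hX hY
  have hg := X_CMT.comp G c T s hc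
  have h2 := (hg.clm_apply hX).clm_apply hY
  have h3 : G.g (c s) (G.cov (c s) T (X s) X') (Y s) +
      G.g (c s) (X s) (G.cov (c s) T (Y s) Y') =
      (fderiv ℝ G.g (c s) T (X s) + G.g (c s) X') (Y s) + G.g (c s) (X s) Y' := by
    unfold RMetric.cov
    simp only [map_add, add_apply]
    rw [h1]
    ring
  rw [h3]
  exact h2

end Pool.Agent.Work.MP_a6f1bd_R
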