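import Pool.Agent.Work.MP_a6f1bd_R.Interface2

set_option autoImplicit false

/-!
# Riemannian metrics on `ℝ^m`, block COS: the angle of a triangle with hyperbolic distances
-/

namespace Pool.Agent.Work.MP_a6f1bd_R

open Real Filter Topology Set
open scoped ContDiff
open Pool.Agent.Work.MP_a6f1bd_gt

namespace X_COS

/-- the Euclidean comparison cosine is monotone -/
theorem mono {m : ℕ} (G : RMetric m) (hc : G.Complete) (hN : G.Npc) (hSTW : Stmt_STW)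
    (hMIN : Stmt_MIN) (c₁ c₂ : ℝ → E m) (h1 : G.Unit1 c₁) (h2 : G.Unit1 c₂) (h0 : c₁ 0 = c₂ 0)
    (hcomm : ∀ x y, G.rdist x y = G.rdist y x)
    {s s' t : ℝ} (hs : 0 < s) (hss : s ≤ s') (ht : 0 < t) :
    EE s' t (G.rdist (c₁ s') (c₂ t)) ≤ EE s t (G.rdist (c₁ s) (c₂ t)) := by
  have hs' : 0 < s' := lt_of_lt_of_le hs hss
  have h := hSTW m G hc hN (c₂ t) c₁ h1 s s' hs.le hss
  have m2 := (hMIN m G hc hN c₂ h2.1 t 0).2
  rw [h0, m2, h2.2, mul_one, sub_zero, sq_abs, hcomm (c₂ t) (c₁ s), hcomm (c₂ t) (c₁ s')] at h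
  unfold EE
  rw [div_le_div_iff₀ (by positivity) (by positivity)]
  have h3 : s * (s' ^ 2 + t ^ 2 - G.rdist (c₁ s') (c₂ t) ^ 2) ≤
      s' * (s ^ 2 + t ^ 2 - G.rdist (c₁ s) (c₂ t) ^ 2) := by nlinarith
  have h4 := mul_le_mul_of_nonneg_left h3 (by positivity : (0 : ℝ) ≤ 2 * t)
  calc (s' ^ 2 + t ^ 2 - G.rdist (c₁ s') (c₂ t) ^ 2) * (2 * s * t)
      = 2 * t * (s * (s' ^ 2 + t ^ 2 - G.rdist (c₁ s') (c₂ t) ^ 2)) := by ring
    _ ≤ 2 * t * (s' * (s ^ 2 + t ^ 2 - G.rdist (c₁ s) (c₂ t) ^ 2)) := h4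
    _ = (s ^ 2 + t ^ 2 - G.rdist (c₁ s) (c₂ t) ^ 2) * (2 * s' * t) := by ring

end X_COS

theorem r_COS (hFVA : Stmt_FVA) (hSTW : Stmt_STW) (hMIN : Stmt_MIN) (hDIS : Stmt_DIS)
    (_hGEO : Stmt_GEO) : Stmt_COS := by
  intro m G hc hN c₁ c₂ h1 h2 h0 δ κ hδ hcosh
  obtain ⟨-, -, htri, hcomm, -, -, hnn, -⟩ := hDIS m G hc hN
  set κ₀ := G.g (c₁ 0) (deriv c₁ 0) (deriv c₂ 0) with hκ₀
  have hF := hFVA m G hc hN c₁ c₂ h1 h2 h0
  have mono1 : ∀ s s' t : ℝ, 0 < s → s ≤ s' → 0 < t →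
      EE s' t (G.rdist (c₁ s') (c₂ t)) ≤ EE s t (G.rdist (c₁ s) (c₂ t)) :=
    fun s s' t hs hss ht => X_COS.mono G hc hN hSTW hMIN c₁ c₂ h1 h2 h0 hcomm hs hss ht
  have mono2 : ∀ s t t' : ℝ, 0 < s → 0 < t → t ≤ t' →
      EE s t' (G.rdist (c₁ s) (c₂ t')) ≤ EE s t (G.rdist (c₁ s) (c₂ t)) := by
    intro s t t' hs ht htt
    have := X_COS.mono G hc hN hSTW hMIN c₂ c₁ h2 h1 h0.symm hcomm ht htt hs
    rw [EE_comm s t', EE_comm s t, hcomm (c₁ s) (c₂ t'), hcomm (c₁ s) (c₂ t)]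
    exact this
  -- upper bound
  have hle : ∀ s t : ℝ, 0 < s → 0 < t → EE s t (G.rdist (c₁ s) (c₂ t)) ≤ κ₀ := by
    intro s t hs ht
    refine ge_of_tendsto (hF t ht) ?_
    filter_upwards [Ioo_mem_nhdsGT hs] with s'' hs''
    exact mono1 s'' s t hs''.1 hs''.2.le ht
  -- the limit on the diagonal
  have hlim : Tendsto (fun s => EE s s (G.rdist (c₁ s) (c₂ s))) (𝓝[>] 0) (𝓝 κ₀) := by
    rw [tendsto_order]
    constructor
    · intro a ha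
      have h3 := (hF 1 one_pos).eventually (lt_mem_nhds ha)
      have h4 := h3.and (Ioo_mem_nhdsGT (zero_lt_one (α := ℝ)))
      obtain ⟨s₀, hs₀, hs₀1⟩ := h4.exists
      filter_upwards [Ioo_mem_nhdsGT hs₀1.1] with s hs
      have e1 := mono1 s s₀ s hs.1 hs.2.le hs.1
      have e2 := mono2 s₀ s 1 hs₀1.1 hs.1 (hs.2.le.trans hs₀1.2.le)
      have e3 : a < EE s₀ 1 (G.rdist (c₁ s₀) (c₂ 1)) := hs₀
      exact e3.trans_le (e2.trans e1)
    · intro a ha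
      filter_upwards [self_mem_nhdsWithin] with s hs
      exact (hle s s hs hs).trans_lt ha
  -- the hyperbolic comparison
  have hCC : ∀ s, 0 < s → s < δ → CC s s (G.rdist (c₁ s) (c₂ s)) = κ := by
    intro s hs hsδ
    have hsh : 0 < sinh s := sinh_pos_iff.mpr hs
    unfold CC
    rw [hcosh s hs hsδ]
    field_simp
    ring
  have ht1 : ∀ s, 0 < s → s ≤ G.rdist (c₁ s) (c₂ s) + s := by
    intro s _
    have := hnn (c₁ s) (c₂ s)
    linarith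
  have ht3 : ∀ s, 0 < s → G.rdist (c₁ s) (c₂ s) ≤ s + s := by
    intro s hs
    have h3 := htri (c₁ s) (c₁ 0) (c₂ s)
    have h4 := (hMIN m G hc hN c₁ h1.1 s 0).2
    have h5 := (hMIN m G hc hN c₂ h2.1 0 s).2
    rw [h1.2, mul_one, sub_zero, abs_of_pos hs] at h4
    rw [h2.2, mul_one, zero_sub, abs_neg, abs_of_pos hs] at h5
    rw [h4, h0, h5] at h3
    exact h3
  apply le_antisymm
  · refine le_of_tendsto hlim ?_
    filter_upwards [Ioo_mem_nhdsGT hδ] with s hs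
    have := EE_le_CC hs.1 hs.1 (ht1 s hs.1) (ht1 s hs.1) (ht3 s hs.1)
    rw [hCC s hs.1 hs.2] at this
    exact this
  · have h6 : Tendsto (fun s => 1 - EE s s (G.rdist (c₁ s) (c₂ s))) (𝓝[>] 0) (𝓝 (1 - κ₀)) :=
      tendsto_const_nhds.sub hlim
    have h7 : Tendsto (fun s : ℝ => (1 - κ) * ((sinh s / s) * (sinh s / s))) (𝓝[>] 0)
        (𝓝 ((1 - κ) * (1 * 1))) :=
      (tendsto_sinh_div.mul tendsto_sinh_div).const_mul _
    have h8 : 1 - κ₀ ≤ (1 - κ) * (1 * 1) := by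
      refine le_of_tendsto_of_tendsto h6 h7 ?_
      filter_upwards [Ioo_mem_nhdsGT hδ] with s hs
      have := one_sub_EE_le hs.1 hs.1 (ht1 s hs.1) (ht1 s hs.1)
      rw [hCC s hs.1 hs.2] at this
      exact this
    linarith

end Pool.Agent.Work.MP_a6f1bd_R
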