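import Pool.Agent.Work.MP_a6f1bd_R.Interface1

set_option autoImplicit false

/-!
# Riemannian metrics on `ℝ^m`, block CPL: the distance is complete
-/

namespace Pool.Agent.Work.MP_a6f1bd_R

open Real Filter Topology Set
open scoped ContDiff

theorem r_CPL (hCSC : Stmt_CSC) (hEXD : Stmt_EXD) (hINJ : Stmt_INJ) (hDIS : Stmt_DIS)
    (hTOP : Stmt_TOP) : Stmt_CPL := by
  intro m G hc hN u hu
  obtain ⟨-, -, -, h4, -, -, -, -⟩ := hCSC m G
  obtain ⟨i1, -, -, -, -, -⟩ := hINJ m G hc hN 0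
  obtain ⟨-, d2, d3, d4, -, -, -, -⟩ := hDIS m G hc hN
  obtain ⟨κ, hκ, hb⟩ := h4 0
  obtain ⟨N, hNu⟩ := hu 1 one_pos
  have hbd : ∀ n, G.lo hc 0 (u (n + N)) ∈ Metric.closedBall (0 : E m) (κ * (G.rdist 0 (u N) + 1)) := by
    intro n
    rw [mem_closedBall_zero_iff]
    refine (hb _).trans (mul_le_mul_of_nonneg_left ?_ hκ.le)
    rw [← d2]
    have e1 := d3 0 (u N) (u (n + N))
    have e2 := hNu N le_rfl (n + N) (Nat.le_add_left N n)
    linarith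
  obtain ⟨a, -, φ, hφ, hlim⟩ :=
    (isCompact_closedBall (0 : E m) (κ * (G.rdist 0 (u N) + 1))).tendsto_subseq hbd
  obtain ⟨D, -, hD, -⟩ := hEXD m G hc hN 0 a
  have h1 : Tendsto (fun n => u (φ n + N)) atTop (𝓝 (G.ex hc 0 a)) := by
    have h2 := (hD.continuousAt.tendsto).comp hlim
    exact h2.congr fun n => i1 (u (φ n + N))
  have h3 := ((hTOP m G hc hN (G.ex hc 0 a) ℕ atTop (fun n => u (φ n + N))).1).2 h1
  refine ⟨G.ex hc 0 a, ?_⟩
  have hnn : ∀ p q, 0 ≤ G.rdist p q := by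
    obtain ⟨-, -, -, -, -, -, d7, -⟩ := hDIS m G hc hN
    exact d7
  rw [Metric.tendsto_atTop]
  intro ε hε
  obtain ⟨N1, hN1⟩ := hu (ε / 2) (half_pos hε)
  rw [Metric.tendsto_atTop] at h3
  obtain ⟨N2, hN2⟩ := h3 (ε / 2) (half_pos hε)
  refine ⟨N1, fun k hk => ?_⟩
  have e1 := hN2 (max N1 N2) (le_max_right _ _)
  rw [Real.dist_eq, sub_zero, abs_of_nonneg (hnn _ _), d4] at e1
  have e2 := hN1 k hk (φ (max N1 N2) + N)
    (((le_max_left N1 N2).trans (hφ.id_le _)).trans (Nat.le_add_right _ _))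
  have e3 := d3 (u k) (u (φ (max N1 N2) + N)) (G.ex hc 0 a)
  rw [Real.dist_eq, sub_zero, abs_of_nonneg (hnn _ _)]
  linarith

end Pool.Agent.Work.MP_a6f1bd_R
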