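import Pool.Agent.Work.MP_a6f1bd_R.Interface2

set_option autoImplicit false

/-! # Block CRV: the derivative of the logarithm along a curve -/

namespace Pool.Agent.Work.MP_a6f1bd_R

open Real Filter Topology Set
open scoped ContDiff

theorem r_CRV (hEXD : Stmt_EXD) (hINJ : Stmt_INJ) : Stmt_CRV := by
  intro m G hc hN q c c' t hct
  obtain ⟨h1, -, -, -, -, h6⟩ := hINJ m G hc hN q
  have hev : G.ex hc q (G.lo hc q (c t)) = c t := h1 _
  obtain ⟨D, P, hD, hP, -, e2, e3, e4⟩ := hEXD m G hc hN q (G.lo hc q (c t))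
  have hlo := h6 _ D hD
  rw [hev] at hlo
  have hw : HasDerivAt (fun τ => G.lo hc q (c τ)) (D.symm c') t :=
    hlo.hasFDerivAt.comp_hasDerivAt t hct
  obtain ⟨J, V, hJV, hJ0, -, hJ1, hV1⟩ := e4 (D.symm c')
  have hDw : D (D.symm c') = c' := D.apply_symm_apply c'
  refine ⟨D.symm c', J, V, hw, hJV, hJ0, by rw [hJ1, hDw], ?_, ?_, ?_⟩
  · rw [hV1]
    exact hP.hasFDerivAt.comp_hasDerivAt t hw
  · have h := e2 (D.symm c')
    rw [hDw, hev] at h
    exact h
  · have h := e3 (D.symm c')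
    rw [hDw, hev, ← hV1] at h
    exact h

end Pool.Agent.Work.MP_a6f1bd_R
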