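import Pool.Agent.Work.MP_a6f1bd_R.Interface1

set_option autoImplicit false

/-! # Block CSC: the norms `nrm x` (helper67) -/

namespace Pool.Agent.Work.MP_a6f1bd_R

open Real Filter Topology Set
open scoped ContDiff

namespace X_CSC

variable {m : ℕ} (G : RMetric m)

theorem nonneg (x v : E m) : 0 ≤ G.g x v v := by
  by_cases h : v = 0
  · subst h
    simp
  · exact (G.pos x v h).le

theorem nrm_nonneg (x v : E m) : 0 ≤ G.nrm x v := Real.sqrt_nonneg _

theorem nrm_sq (x v : E m) : G.nrm x v ^ 2 = G.g x v v := Real.sq_sqrt (nonneg G x v)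

theorem expand (x u v : E m) (a b : ℝ) : G.g x (a • u + b • v) (a • u + b • v) =
    a ^ 2 * G.g x u u + 2 * a * b * G.g x u v + b ^ 2 * G.g x v v := by
  simp only [map_add, map_smul, ContinuousLinearMap.add_apply, ContinuousLinearMap.smul_apply,
    smul_eq_mul]
  rw [G.symm x v u]
  ring

theorem cs (x u v : E m) : G.g x u v ^ 2 ≤ G.g x u u * G.g x v v := by
  by_cases h : v = 0
  · subst h
    simp
  · have hp := G.pos x v h
    have h1 := nonneg G x (G.g x v v • u + (-(G.g x u v)) • v)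
    rw [expand] at h1
    have h2 : 0 ≤ G.g x v v * (G.g x u u * G.g x v v - G.g x u v ^ 2) := by
      refine h1.trans (le_of_eq ?_)
      ring
    have h3 := (mul_nonneg_iff_of_pos_left hp).1 h2
    linarith

theorem one (x u v : E m) : |G.g x u v| ≤ G.nrm x u * G.nrm x v := by
  unfold RMetric.nrm
  rw [← Real.sqrt_mul (nonneg G x u)]
  exact Real.abs_le_sqrt (cs G x u v)

theorem two (x u v : E m) : G.nrm x (u + v) ≤ G.nrm x u + G.nrm x v := by
  refine (Real.sqrt_le_left (add_nonneg (nrm_nonneg G x u) (nrm_nonneg G x v))).2 ?_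
  have h1 := expand G x u v 1 1
  rw [one_smul, one_smul] at h1
  rw [h1]
  have h2 := (le_abs_self _).trans (one G x u v)
  have h3 := nrm_sq G x u
  have h4 := nrm_sq G x v
  nlinarith

theorem three (x : E m) (a : ℝ) (v : E m) : G.nrm x (a • v) = |a| * G.nrm x v := by
  unfold RMetric.nrm
  have h1 : G.g x (a • v) (a • v) = a ^ 2 * G.g x v v := by
    simp only [map_smul, ContinuousLinearMap.smul_apply, smul_eq_mul]
    ring
  rw [h1, Real.sqrt_mul (sq_nonneg a), Real.sqrt_sq_eq_abs]

theorem five : Continuous fun p : E m × E m => G.nrm p.1 p.2 := by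
  have h1 : Continuous fun p : E m × E m => G.g p.1 := G.smooth.continuous.comp continuous_fst
  exact ((h1.clm_apply continuous_snd).clm_apply continuous_snd).sqrt

theorem six (x v : E m) : G.nrm x v = 0 ↔ v = 0 := by
  constructor
  · intro h
    by_contra hv
    have h1 := G.pos x v hv
    rw [← nrm_sq, h] at h1
    norm_num at h1
  · intro h
    subst h
    simp [RMetric.nrm]

theorem four (x : E m) : ∃ κ : ℝ, 0 < κ ∧ ∀ v, ‖v‖ ≤ κ * G.nrm x v := by
  by_cases hS : (Metric.sphere (0 : E m) 1).Nonempty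
  · have hc : Continuous fun v : E m => G.nrm x v :=
      (five G).comp (continuous_const.prodMk continuous_id)
    obtain ⟨v0, hv0, hmin⟩ := (isCompact_sphere (0 : E m) 1).exists_isMinOn hS hc.continuousOn
    have hv0' : v0 ≠ 0 := by
      intro h
      rw [h] at hv0
      simp at hv0
    have ha : 0 < G.nrm x v0 :=
      lt_of_le_of_ne (nrm_nonneg G x v0) fun h => hv0' ((six G x v0).1 h.symm)
    refine ⟨1 / G.nrm x v0, by positivity, fun v => ?_⟩
    by_cases hv : v = 0
    · subst hv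
      rw [norm_zero]
      exact mul_nonneg (by positivity) (nrm_nonneg G x _)
    · have hn : 0 < ‖v‖ := norm_pos_iff.2 hv
      have h1 : ‖v‖⁻¹ • v ∈ Metric.sphere (0 : E m) 1 := by
        rw [mem_sphere_zero_iff_norm, norm_smul, norm_inv, norm_norm]
        exact inv_mul_cancel₀ hn.ne'
      have h2 : G.nrm x v0 ≤ G.nrm x (‖v‖⁻¹ • v) := hmin h1
      rw [three, abs_of_pos (inv_pos.2 hn), inv_mul_eq_div, le_div_iff₀ hn] at h2
      rw [one_div, inv_mul_eq_div, le_div_iff₀ ha]
      linarith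
  · refine ⟨1, one_pos, fun v => ?_⟩
    by_cases hv : v = 0
    · subst hv
      rw [norm_zero]
      exact mul_nonneg zero_le_one (nrm_nonneg G x _)
    · exfalso
      refine hS ⟨‖v‖⁻¹ • v, ?_⟩
      rw [mem_sphere_zero_iff_norm, norm_smul, norm_inv, norm_norm]
      exact inv_mul_cancel₀ (norm_pos_iff.2 hv).ne'

theorem seven (x u v : E m) (h : G.nrm x u * G.nrm x v ≤ G.g x u v) :
    G.nrm x v • u = G.nrm x u • v := by
  have h1 := expand G x u v (G.nrm x v) (-(G.nrm x u))
  rw [← nrm_sq G x u, ← nrm_sq G x v] at h1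
  have h2 : G.g x (G.nrm x v • u + (-(G.nrm x u)) • v) (G.nrm x v • u + (-(G.nrm x u)) • v)
      ≤ 0 := by
    rw [h1]
    have h3 : 0 ≤ G.nrm x u * G.nrm x v := mul_nonneg (nrm_nonneg G x u) (nrm_nonneg G x v)
    nlinarith [mul_le_mul_of_nonneg_left h h3]
  by_contra hne
  have h4 : G.nrm x v • u + (-(G.nrm x u)) • v ≠ 0 := by
    intro h5
    apply hne
    rw [neg_smul, ← sub_eq_add_neg] at h5
    exact sub_eq_zero.1 h5
  exact absurd (G.pos x _ h4) (not_lt.2 h2)

end X_CSC

theorem r_CSC : Stmt_CSC := fun _ G =>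
  ⟨X_CSC.one G, X_CSC.two G, X_CSC.three G, X_CSC.four G, X_CSC.five G, X_CSC.six G,
    X_CSC.seven G, fun x v => ⟨X_CSC.nrm_nonneg G x v, X_CSC.nrm_sq G x v⟩⟩

end Pool.Agent.Work.MP_a6f1bd_R
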