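import Pool.Agent.Work.MP_a6f1bd_R.Interface2

set_option autoImplicit false

/-! # Block CVX (MP_a6f1bd, project Riemann): a convexity inequality -/

namespace Pool.Agent.Work.MP_a6f1bd_R

open Real Filter Topology Set
open scoped ContDiff

theorem r_CVX : Stmt_CVX := by
  intro f f₁ f₂ h1 h2 h3 a L ha haL
  set k : ℝ → ℝ := fun t => f t - t ^ 2 / 2 with hk
  have hkd : ∀ t, HasDerivAt k (f₁ t - t) t := by
    intro t
    have h5 : HasDerivAt (fun x : ℝ => x ^ 2) (2 * t) t := by
      simpa using hasDerivAt_pow 2 t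
    have h4 := (h1 t).sub (h5.div_const 2)
    have h6 : f₁ t - 2 * t / 2 = f₁ t - t := by ring
    rw [h6] at h4
    exact h4
  have hk1 : deriv k = fun t => f₁ t - t := funext fun t => (hkd t).deriv
  have hmono : Monotone (deriv k) := by
    rw [hk1]
    have hd : ∀ t, HasDerivAt (fun t => f₁ t - t) (f₂ t - 1) t := fun t =>
      (h2 t).sub (hasDerivAt_id t)
    refine monotone_of_deriv_nonneg (fun t => (hd t).differentiableAt) ?_
    intro t
    rw [(hd t).deriv]
    linarith [h3 t]
  have hconv : ConvexOn ℝ univ k :=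
    Monotone.convexOn_univ_of_deriv (fun t => (hkd t).differentiableAt) hmono
  rcases (ha.trans haL).eq_or_lt with hL | hL
  · subst hL
    have ha0 : a = 0 := le_antisymm haL ha
    subst ha0
    simp
  · have h5 := hconv.2 (mem_univ (0 : ℝ)) (mem_univ L)
      (show (0 : ℝ) ≤ (L - a) / L from div_nonneg (by linarith) hL.le)
      (show (0 : ℝ) ≤ a / L from div_nonneg ha hL.le) (by field_simp; ring)
    have h6 : ((L - a) / L) • (0 : ℝ) + (a / L) • L = a := by
      simp only [smul_eq_mul]
      field_simp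
      ring
    rw [h6] at h5
    simp only [smul_eq_mul, hk] at h5
    have h7 := mul_le_mul_of_nonneg_left h5 hL.le
    have h8 : L * ((L - a) / L * (f 0 - 0 ^ 2 / 2) + a / L * (f L - L ^ 2 / 2)) =
        (L - a) * f 0 + a * (f L - L ^ 2 / 2) := by
      field_simp
      ring
    rw [h8] at h7
    nlinarith [h7]

end Pool.Agent.Work.MP_a6f1bd_R
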