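import Pool.Agent.Work.MP_a6f1bd_R.Interface1

set_option autoImplicit false

/-! # Block DIS: the Riemannian distance is the length of the logarithm -/

namespace Pool.Agent.Work.MP_a6f1bd_R

open Real Filter Topology Set
open scoped ContDiff

namespace X_DIS

variable {m : ℕ} {G : RMetric m}

lemma geo_C1 {c : ℝ → E m} (h : G.IsGeodesic c) : ContDiff ℝ 1 c := by
  rw [contDiff_one_iff_deriv]
  exact ⟨fun t => (h t).1.differentiableAt,
    continuous_iff_continuousAt.2 fun t => (h t).2.continuousAt⟩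

lemma length_nonneg (hCSC : Stmt_CSC) (c : ℝ → E m) : 0 ≤ G.length c := by
  unfold RMetric.length
  refine intervalIntegral.integral_nonneg zero_le_one fun t _ => ?_
  exact ((hCSC m G).2.2.2.2.2.2.2 _ _).1

lemma length_geo (hGEO : Stmt_GEO) {c : ℝ → E m} (h : G.IsGeodesic c) :
    G.length c = G.nrm (c 0) (deriv c 0) := by
  unfold RMetric.length
  have h5 := (hGEO m G).2.2.2.2 c h
  rw [intervalIntegral.integral_congr (g := fun _ => G.nrm (c 0) (deriv c 0))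
    (fun t _ => h5 t 0)]
  simp

lemma bdd (hCSC : Stmt_CSC) (p q : E m) :
    BddBelow {L : ℝ | ∃ c : ℝ → E m, ContDiff ℝ 1 c ∧ c 0 = p ∧ c 1 = q ∧ L = G.length c} := by
  refine ⟨0, ?_⟩
  rintro L ⟨c, -, -, -, rfl⟩
  exact length_nonneg hCSC c

lemma rdist_le (hCSC : Stmt_CSC) {c : ℝ → E m} (h : ContDiff ℝ 1 c) :
    G.rdist (c 0) (c 1) ≤ G.length c :=
  csInf_le (bdd hCSC _ _) ⟨c, h, rfl, rfl, rfl⟩

end X_DIS

open X_DIS in
theorem r_DIS (hCSC : Stmt_CSC) (hGEO : Stmt_GEO) (hLFT : Stmt_LFT) (hLEN : Stmt_LEN)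
    (hINJ : Stmt_INJ) : Stmt_DIS := by
  intro m G hc hN
  obtain ⟨-, -, hsm, -, -, hz, -, hnn⟩ := hCSC m G
  -- the geodesic from `x` to `y`
  have hgeo : ∀ x y : E m, ∃ c : ℝ → E m, G.IsGeodesic c ∧ c 0 = x ∧ c 1 = y ∧
      G.length c = G.nrm x (G.lo hc x y) := by
    intro x y
    refine ⟨G.gd hc x (G.lo hc x y), G.gd_geo hc _ _, G.gd_zero hc _ _,
      (hINJ m G hc hN x).1 y, ?_⟩
    rw [length_geo hGEO (G.gd_geo hc _ _), G.gd_zero, G.gd_deriv_zero]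
  -- lifts
  have hlift : ∀ (x : E m) (c : ℝ → E m), ContDiff ℝ 1 c → ∃ L : ℝ → E m,
      L 0 = G.lo hc x (c 0) ∧ L 1 = G.lo hc x (c 1) ∧
      (∀ W, G.g x (L 1 - L 0) W ≤ G.nrm x W * G.length c) ∧
      G.nrm x (L 1) ≤ G.nrm x (L 0) + G.length c := by
    intro x c hcd
    obtain ⟨i1, i2, -⟩ := hINJ m G hc hN x
    obtain ⟨L, hL0, hLc, hL⟩ := hLFT m G hc hN x (G.lo hc x (c 0)) c hcd (i1 _)
    have hL1 : L 1 = G.lo hc x (c 1) := by
      rw [← (hL 1 ⟨zero_le_one, le_refl 1⟩).1, i2]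
    exact ⟨L, hL0, hL1, hLEN m G x c L hcd hLc fun t ht => (hL t ht).2⟩
  have h1 : ∀ (x : E m) (c : ℝ → E m), ContDiff ℝ 1 c →
      G.nrm x (G.lo hc x (c 1)) ≤ G.nrm x (G.lo hc x (c 0)) + G.length c := by
    intro x c hcd
    obtain ⟨L, hL0, hL1, -, h⟩ := hlift x c hcd
    rwa [hL0, hL1] at h
  have hxx : ∀ x : E m, G.nrm x (G.lo hc x x) = 0 := by
    intro x
    rw [(hINJ m G hc hN x).2.2.2.2.1]
    exact (hz x 0).2 rfl
  have h2 : ∀ x y, G.rdist x y = G.nrm x (G.lo hc x y) := by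
    intro x y
    obtain ⟨c, hcg, hc0, hc1, hcl⟩ := hgeo x y
    refine le_antisymm ?_ ?_
    · have := rdist_le (G := G) hCSC (geo_C1 hcg)
      rwa [hc0, hc1, hcl] at this
    · refine le_csInf ⟨_, c, geo_C1 hcg, hc0, hc1, rfl⟩ ?_
      rintro _ ⟨c', hc', h0, h1', rfl⟩
      have := h1 x c' hc'
      rwa [h0, h1', hxx, zero_add] at this
  have hsymm : ∀ x y, G.rdist y x ≤ G.rdist x y := by
    intro x y
    obtain ⟨c, hcg, hc0, hc1, hcl⟩ := hgeo x y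
    obtain ⟨hr, hrd⟩ := (hGEO m G).2.1 c (-1) 1 hcg
    have h3 := rdist_le (G := G) hCSC (geo_C1 hr)
    rw [length_geo hGEO hr, hrd 0] at h3
    have e0 : (-1 : ℝ) * 0 + 1 = 1 := by norm_num
    have e1 : (-1 : ℝ) * 1 + 1 = 0 := by norm_num
    simp only [e0, e1] at h3
    rw [hsm, (hGEO m G).2.2.2.2 c hcg 1 0, ← length_geo hGEO hcg, hcl, hc0, hc1, ← h2] at h3
    simpa using h3
  refine ⟨h1, h2, ?_, fun x y => le_antisymm (hsymm y x) (hsymm x y), fun x => by rw [h2, hxx],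
    ?_, fun x y => by rw [h2]; exact (hnn _ _).1, ?_⟩
  · intro x y z
    obtain ⟨c, hcg, hc0, hc1, hcl⟩ := hgeo y z
    have h3 := h1 x c (geo_C1 hcg)
    rwa [hc0, hc1, hcl, ← h2, ← h2, ← h2] at h3
  · intro x y hxy
    rw [h2, hz] at hxy
    obtain ⟨i1, -, -, i4, -⟩ := hINJ m G hc hN x
    rw [← i1 y, hxy, i4]
  · intro x y z W
    obtain ⟨c, hcg, hc0, hc1, hcl⟩ := hgeo y z
    obtain ⟨L, hL0, hL1, h, -⟩ := hlift x c (geo_C1 hcg)
    have h3 := h W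
    rwa [hL0, hL1, hc0, hc1, hcl, ← h2] at h3

end Pool.Agent.Work.MP_a6f1bd_R
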