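import Pool.Agent.Work.MP_a6f1bd_R.Interface1

set_option autoImplicit false

namespace Pool.Agent.Work.MP_a6f1bd_R

open Real Filter Topology Set
open scoped ContDiff

namespace X_EXD

/-- an injective continuous endomorphism is an isomorphism -/
theorem equiv_of_inj {m : ℕ} (A : E m →L[ℝ] E m) (h : ∀ w, A w = 0 → w = 0) :
    ∃ D : E m ≃L[ℝ] E m, (D : E m →L[ℝ] E m) = A := by
  have hinj : Function.Injective (A : E m →ₗ[ℝ] E m) :=
    (injective_iff_map_eq_zero (A : E m →ₗ[ℝ] E m)).2 h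
  refine ⟨(LinearEquiv.ofInjectiveEndo (A : E m →ₗ[ℝ] E m) hinj).toContinuousLinearEquiv, ?_⟩
  ext w
  rfl

end X_EXD

/-- BLOCK EXD: the exponential map. -/
theorem r_EXD (hFLE : Stmt_FLE) (hJES : Stmt_JES) : Stmt_EXD := by
  intro m G hc hN x v
  obtain ⟨D, hD, hJ⟩ := hFLE m G hc x v
  have key : ∀ w, ∃ J V : ℝ → E m, G.IsVar (G.gd hc x v) J V ∧ J 0 = 0 ∧ V 0 = w ∧
      J 1 = (D w).1 ∧ V 1 = (D w).2 ∧ G.g x w w ≤ G.g (G.ex hc x v) (D w).1 (D w).1 ∧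
      G.g (G.ex hc x v) (D w).1 (deriv (G.gd hc x v) 1) = G.g x w v ∧
      G.g (G.ex hc x v) (D w).1 (D w).1 ≤
        G.g (G.ex hc x v) (D w).1
          (G.cov (G.ex hc x v) (deriv (G.gd hc x v) 1) (D w).1 (D w).2) := by
    intro w
    obtain ⟨J, V, h1, h2, h3, h4, h5⟩ := hJ w
    obtain ⟨e1, e2, e3⟩ := hJES m G hN _ J V (G.gd_geo hc x v) h1 h2
    have e1' := e1 1 ⟨zero_le_one, le_refl _⟩
    rw [one_mul, G.gd_zero, G.gd_deriv_zero, h3, h4] at e1'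
    rw [h4, h5] at e2
    rw [G.gd_zero, h3, h4] at e3
    exact ⟨J, V, h1, h2, h3, h4, h5, e3, e1', e2⟩
  obtain ⟨A, hA⟩ := X_EXD.equiv_of_inj ((ContinuousLinearMap.fst ℝ (E m) (E m)).comp D) (by
    intro w hw
    have hw' : (D w).1 = 0 := hw
    obtain ⟨_, _, -, -, -, -, -, h, -, -⟩ := key w
    rw [hw', map_zero] at h
    by_contra hne
    exact absurd h (not_le.2 (G.pos x w hne)))
  have hA' : ∀ w, A w = (D w).1 := fun w => congrArg (fun f : E m →L[ℝ] E m => f w) hA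
  refine ⟨A, (ContinuousLinearMap.snd ℝ (E m) (E m)).comp D, ?_, ?_, fun w => ?_, fun w => ?_,
    fun w => ?_, fun w => ?_⟩
  · rw [hA]
    exact hasStrictFDerivAt_fst.comp v hD
  · exact hasStrictFDerivAt_snd.comp v hD
  · obtain ⟨_, _, -, -, -, -, -, h, -, -⟩ := key w
    rw [hA']
    exact h
  · obtain ⟨_, _, -, -, -, -, -, -, h, -⟩ := key w
    rw [hA']
    exact h
  · obtain ⟨_, _, -, -, -, -, -, -, -, h⟩ := key w
    rw [hA']
    exact h
  · obtain ⟨J, V, h1, h2, h3, h4, h5, -, -, -⟩ := key w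
    exact ⟨J, V, h1, h2, h3, by rw [h4, hA'], h5⟩

end Pool.Agent.Work.MP_a6f1bd_R
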