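import Pool.Agent.Work.MP_a6f1bd_R.Interface2

set_option autoImplicit false

/-! # Block FIN: the final theorem -/

namespace Pool.Agent.Work.MP_a6f1bd_R

open Real Filter Topology Set
open scoped ContDiff
open Pool.Agent.Work.MP_a6f1bd_gt

namespace X_FIN

open Pool.Agent.Work.MP_a6f1bd_gt.Hyp in
/-- minus the form `lor`, as a bilinear map -/
noncomputable def A (m : ℕ) : (ℝ × EuclideanSpace ℝ (Fin m)) →ₗ[ℝ]
    (ℝ × EuclideanSpace ℝ (Fin m)) →ₗ[ℝ] ℝ :=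
  LinearMap.mk₂ ℝ (fun a b => -lor a b)
    (fun a b c => by simp only [lor_add_left]; ring)
    (fun r a b => by simp only [lor_smul_left, smul_eq_mul]; ring)
    (fun a b c => by simp only [lor_add_right]; ring)
    (fun r a b => by simp only [lor_smul_right, smul_eq_mul]; ring)

/-- the metric at `y`, as a bilinear map -/
noncomputable def B {m : ℕ} (G : RMetric m) (y : E m) : E m →ₗ[ℝ] E m →ₗ[ℝ] ℝ :=
  LinearMap.mk₂ ℝ (fun a b => G.g y a b)
    (fun a b c => by rw [map_add]; rfl)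
    (fun r a b => by rw [map_smul]; rfl)
    (fun a b c => map_add _ _ _)
    (fun r a b => map_smul _ _ _)

end X_FIN

open X_FIN

theorem r_FIN (hFRG : Stmt_FRG) (hGRM : Stmt_GRM) (hHSP : Stmt_HSP) (hIOT : Stmt_IOT)
    (hINJ : Stmt_INJ) (_hSGB : Stmt_SGB) : Stmt_FIN := by
  classical
  intro m G hc hN hC γ hγ y hy σ hσ hσ0 hσ1 γ₁ σ₁ y₁ hγ₁ hσ₁ hd b hb hb₁ hang
  obtain ⟨hconv, Φ, hbij, hiso, hseg, hray, hasy⟩ := hFRG m G hc hN hC γ hγ y hy σ hσ hσ0 hσ1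
    γ₁ σ₁ y₁ hγ₁ hσ₁ hd b hb hb₁ hang
  refine ⟨hconv, Φ, hbij, hiso, hseg, hray, hasy, ?_⟩
  have hy1 := hseg (dist (γ₁ 0) y₁) ⟨dist_nonneg, le_rfl⟩
  rw [hσ₁.2.1] at hy1
  have hΦy : Φ y₁ = y := by rw [hy1.2, ← hd, hσ1]
  have hyT : y ∈ G.tri γ y := by
    rw [← hΦy]
    have := hbij.mapsTo hy1.1
    rw [hΦy] at this ⊢
    exact this
  have hG := hGRM m G hc hN (G.tri γ y) y y₁ (idealTriangle γ₁ y₁) Φ hbij hy1.1 hΦy
    (fun p hp => hconv y hyT p hp) hiso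
  obtain ⟨ι, hι⟩ := hIOT (idealTriangle γ₁ y₁) (ℝ × EuclideanSpace ℝ (Fin m)) (E m) (A m) (B G y)
    (fun p => hlog y₁ p) (fun p => G.lo hc y (Φ p)) (fun w hw => G.pos y w hw)
    (fun p q => hG p p.2 q q.2)
  obtain ⟨a, b', hab⟩ := hHSP m γ₁ hγ₁ y₁
  have hI := hINJ m G hc hN y
  refine ⟨Submodule.span ℝ ({ι a, ι b'} : Set (E m)), ι, ?_, ?_, ?_⟩
  · have h1 : (({ι a, ι b'} : Finset (E m)) : Set (E m)).finrank ℝ ≤
        ({ι a, ι b'} : Finset (E m)).card := finrank_span_finset_le_card _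
    have h2 : (({ι a, ι b'} : Finset (E m)) : Set (E m)) = {ι a, ι b'} := by
      rw [Finset.coe_insert, Finset.coe_singleton]
    rw [h2] at h1
    exact h1.trans Finset.card_le_two
  · intro p hp
    refine ⟨?_, ?_⟩
    · have h1 : ι (hlog y₁ p) ∈ (Submodule.span ℝ ({a, b'} : Set _)).map ι :=
        Submodule.mem_map_of_mem (hab p hp)
      rw [Submodule.map_span, Set.image_pair] at h1
      exact h1
    · have h1 : ι (hlog y₁ p) = G.lo hc y (Φ p) := hι ⟨p, hp⟩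
      rw [h1, hI.1]
  · intro p hp q hq
    have h1 : ι (hlog y₁ p) = G.lo hc y (Φ p) := hι ⟨p, hp⟩
    have h2 : ι (hlog y₁ q) = G.lo hc y (Φ q) := hι ⟨q, hq⟩
    rw [h1, h2]
    exact hG p hp q hq

end Pool.Agent.Work.MP_a6f1bd_R
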