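import Pool.Agent.Work.MP_a6f1bd_R.Interface1

set_option autoImplicit false

/-! # Block FLE: the derivative of the exponential map is given by Jacobi fields -/

namespace Pool.Agent.Work.MP_a6f1bd_R

open Real Filter Topology Set
open scoped ContDiff

namespace X_FLE

variable {m : ℕ}

/-- the derivative of a family of bilinear maps along curves -/
theorem hasDerivAt_B {B : E m → E m →L[ℝ] E m →L[ℝ] E m} (hB : ContDiff ℝ ∞ B)
    {c X Y : ℝ → E m} {c' X' Y' : E m} {s : ℝ} (hc : HasDerivAt c c' s) (hX : HasDerivAt X X' s)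
    (hY : HasDerivAt Y Y' s) :
    HasDerivAt (fun r => B (c r) (X r) (Y r))
      (fderiv ℝ B (c s) c' (X s) (Y s) + B (c s) X' (Y s) + B (c s) (X s) Y') s := by
  have hd : Differentiable ℝ B := hB.differentiable (by simp)
  have h0 : HasFDerivAt B (fderiv ℝ B (c s)) (c s) := (hd (c s)).hasFDerivAt
  have h1 : HasDerivAt (fun r => B (c r)) (fderiv ℝ B (c s) c') s := by
    have h := HasFDerivAt.comp_hasDerivAt (l := B) (f := c) (l' := fderiv ℝ B (c s)) s h0 hc
    exact h
  have h2 := (h1.clm_apply hX).clm_apply hY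
  exact h2

/-- the vector field of the geodesic flow -/
noncomputable def F (B : E m → E m →L[ℝ] E m →L[ℝ] E m) (p : E m × E m) : E m × E m :=
  (p.2, -(B p.1 p.2 p.2))

theorem contDiff_F {B : E m → E m →L[ℝ] E m →L[ℝ] E m} (hB : ContDiff ℝ ∞ B) :
    ContDiff ℝ 1 (F B) := by
  have h : ContDiff ℝ ∞ (F B) := contDiff_snd.prodMk
    (((hB.comp contDiff_fst).clm_apply contDiff_snd).clm_apply contDiff_snd).neg
  exact h.of_le (by exact_mod_cast le_top)

theorem fderiv_F {B : E m → E m →L[ℝ] E m →L[ℝ] E m} (hB : ContDiff ℝ ∞ B)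
    (p q : E m × E m) : fderiv ℝ (F B) p q =
      (q.2, -(fderiv ℝ B p.1 q.1 p.2 p.2 + B p.1 q.2 p.2 + B p.1 p.2 q.2)) := by
  have hF : Differentiable ℝ (F B) := (contDiff_F hB).differentiable (by simp)
  have l1 : HasDerivAt (fun r : ℝ => p.1 + r • q.1) q.1 0 := by
    simpa using ((hasDerivAt_id (0 : ℝ)).smul_const q.1).const_add p.1
  have l2 : HasDerivAt (fun r : ℝ => p.2 + r • q.2) q.2 0 := by
    simpa using ((hasDerivAt_id (0 : ℝ)).smul_const q.2).const_add p.2
  have hl : HasDerivAt (fun r : ℝ => ((p.1 + r • q.1, p.2 + r • q.2) : E m × E m)) q 0 :=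
    l1.prodMk l2
  have e0 : ((p.1 + (0 : ℝ) • q.1, p.2 + (0 : ℝ) • q.2) : E m × E m) = p := by
    rw [zero_smul, zero_smul, add_zero, add_zero]
  have h1 : HasDerivAt (fun r : ℝ => F B (p.1 + r • q.1, p.2 + r • q.2)) (fderiv ℝ (F B) p q) 0 := by
    have h := (hF (p.1 + (0 : ℝ) • q.1, p.2 + (0 : ℝ) • q.2)).hasFDerivAt.comp_hasDerivAt 0 hl
    rw [e0] at h
    exact h
  have h2 : HasDerivAt (fun r : ℝ => F B (p.1 + r • q.1, p.2 + r • q.2))
      (q.2, -(fderiv ℝ B p.1 q.1 p.2 p.2 + B p.1 q.2 p.2 + B p.1 p.2 q.2)) 0 := by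
    have h := l2.prodMk (hasDerivAt_B hB l1 l2 l2).neg
    simp only [zero_smul, add_zero] at h
    exact h
  exact h1.unique h2

theorem fderiv_Gam (G : RMetric m) {B : E m → E m →L[ℝ] E m →L[ℝ] E m} (hB : ContDiff ℝ ∞ B)
    (hG : ∀ x u v, G.Gam x u v = B x u v) (x T J : E m) :
    fderiv ℝ (fun y => G.Gam y T T) x J = fderiv ℝ B x J T T := by
  have e : (fun y => G.Gam y T T) = fun y => B y T T := funext fun y => hG y T T
  rw [e]
  have hd : Differentiable ℝ B := hB.differentiable (by simp)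
  have hd2 : DifferentiableAt ℝ (fun y => B y T T) x :=
    ((hd x).clm_apply (differentiableAt_const T)).clm_apply (differentiableAt_const T)
  have l1 : HasDerivAt (fun r : ℝ => x + r • J) J 0 := by
    simpa using ((hasDerivAt_id (0 : ℝ)).smul_const J).const_add x
  have e0 : x + (0 : ℝ) • J = x := by rw [zero_smul, add_zero]
  have h1 : HasDerivAt (fun r : ℝ => B (x + r • J) T T) (fderiv ℝ (fun y => B y T T) x J) 0 := by
    have hd3 : HasFDerivAt (fun y => B y T T) (fderiv ℝ (fun y => B y T T) x)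
        (x + (0 : ℝ) • J) := by
      rw [e0]
      exact hd2.hasFDerivAt
    exact hd3.comp_hasDerivAt 0 l1
  have h2 : HasDerivAt (fun r : ℝ => B (x + r • J) T T) (fderiv ℝ B x J T T) 0 := by
    have h := hasDerivAt_B hB l1 (hasDerivAt_const (0 : ℝ) T) (hasDerivAt_const (0 : ℝ) T)
    simp only [zero_smul, add_zero, map_zero, zero_apply] at h
    exact h
  exact h1.unique h2

end X_FLE

open X_FLE in
/-- Block FLE. -/
theorem r_FLE (hFLW : Stmt_FLW) (hGAM : Stmt_GAM) : Stmt_FLE := by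
  intro m G hc x v
  obtain ⟨B, hB, hG, -, hs⟩ := hGAM m G
  obtain ⟨D, hD0, hD1, hD2⟩ := hFLW (E m × E m) (F B)
    (fun t p => (G.gd hc p.1 p.2 t, deriv (G.gd hc p.1 p.2) t)) (contDiff_F hB) (by
      refine ⟨fun p => ?_, fun p t => ?_⟩
      · show (G.gd hc p.1 p.2 0, deriv (G.gd hc p.1 p.2) 0) = p
        rw [G.gd_zero, G.gd_deriv_zero]
      · have h := G.gd_geo hc p.1 p.2 t
        have h2 := h.1.prodMk h.2
        rw [hG] at h2
        exact h2) (x, v)
  refine ⟨(D 1).comp (ContinuousLinearMap.inr ℝ (E m) (E m)), ?_, ?_⟩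
  · have h1 := hD2 1 ⟨zero_le_one, le_rfl⟩
    have h2 : HasStrictFDerivAt (fun w : E m => ((x, w) : E m × E m))
        (ContinuousLinearMap.inr ℝ (E m) (E m)) v :=
      (hasStrictFDerivAt_const x v).prodMk (hasStrictFDerivAt_id v)
    exact h1.comp v h2
  · intro w
    have hder : ∀ s ∈ Ioo (-1 : ℝ) 2, HasDerivAt (fun r => D r (0, w))
        (fderiv ℝ (F B) (G.gd hc x v s, deriv (G.gd hc x v) s) (D s (0, w))) s := by
      intro s hs'
      have h := (hD1 s hs').clm_apply (hasDerivAt_const s ((0, w) : E m × E m))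
      simp only [map_zero, add_zero] at h
      exact h
    refine ⟨fun s => (D s (0, w)).1, fun s => (D s (0, w)).2, ?_, ?_, ?_, rfl, rfl⟩
    · intro s hs'
      have h := hder s hs'
      rw [fderiv_F hB] at h
      have h1 : HasDerivAt (fun r => (D r (0, w)).1) (D s (0, w)).2 s := by
        have := (ContinuousLinearMap.fst ℝ (E m) (E m)).hasFDerivAt.comp_hasDerivAt s h
        exact this
      have h2 : HasDerivAt (fun r => (D r (0, w)).2)
          (-(fderiv ℝ B (G.gd hc x v s) (D s (0, w)).1 (deriv (G.gd hc x v) s)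
            (deriv (G.gd hc x v) s) + B (G.gd hc x v s) (D s (0, w)).2 (deriv (G.gd hc x v) s)
            + B (G.gd hc x v s) (deriv (G.gd hc x v) s) (D s (0, w)).2)) s := by
        have := (ContinuousLinearMap.snd ℝ (E m) (E m)).hasFDerivAt.comp_hasDerivAt s h
        exact this
      refine ⟨h1, ?_⟩
      convert h2 using 1
      rw [fderiv_Gam G hB hG, hG, hs (G.gd hc x v s) (D s (0, w)).2, two_smul]
      abel
    · show (D 0 (0, w)).1 = 0
      rw [hD0]
      rfl
    · show (D 0 (0, w)).2 = w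
      rw [hD0]
      rfl

end Pool.Agent.Work.MP_a6f1bd_R
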