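import Pool.Agent.Work.MP_a6f1bd_R.Interface1

set_option autoImplicit false

/-! # Block FLW: the flow is strictly differentiable in the initial value -/

namespace Pool.Agent.Work.MP_a6f1bd_R

open Real Filter Topology Set
open scoped ContDiff

namespace X_FLW

/-- the bound of Gronwall with zero initial value -/
theorem gron {M e t : ℝ} (hM : 1 ≤ M) (he : 0 ≤ e) (ht1 : t ≤ 1) :
    gronwallBound 0 M e t ≤ e * Real.exp M := by
  rw [gronwallBound_of_K_ne_0 (by positivity)]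
  have h1 : Real.exp (M * t) ≤ Real.exp M := Real.exp_le_exp.2 (by nlinarith)
  have h2 : e / M ≤ e := div_le_self he hM
  have h3 : Real.exp (M * t) - 1 ≤ Real.exp M := by linarith
  have h4 : 0 ≤ e / M := by positivity
  calc 0 * Real.exp (M * t) + e / M * (Real.exp (M * t) - 1)
      = e / M * (Real.exp (M * t) - 1) := by ring
    _ ≤ e / M * Real.exp M := mul_le_mul_of_nonneg_left h3 h4
    _ ≤ e * Real.exp M := mul_le_mul_of_nonneg_right h2 (Real.exp_pos M).le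

end X_FLW

theorem r_FLW (hLIN : Stmt_LIN) (hLPF : Stmt_LPF) (hUSD : Stmt_USD) : Stmt_FLW := by
  intro V _ _ _ F Φ hF hΦ x0
  obtain ⟨hΦ0, hΦd⟩ := hΦ
  have hc : Continuous fun t => Φ t x0 :=
    continuous_iff_continuousAt.2 fun t => (hΦd x0 t).continuousAt
  have hA : Continuous fun t => fderiv ℝ F (Φ t x0) := (hF.continuous_fderiv one_ne_zero).comp hc
  have : FiniteDimensional ℝ (V →L[ℝ] V) :=
    LinearEquiv.finiteDimensional (LinearMap.toContinuousLinearMap : (V →ₗ[ℝ] V) ≃ₗ[ℝ] V →L[ℝ] V)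
  obtain ⟨D, hD0, hD⟩ := hLIN (V →L[ℝ] V)
    (fun t => ContinuousLinearMap.compL ℝ V V V (fderiv ℝ F (Φ t x0)))
    ((ContinuousLinearMap.compL ℝ V V V).continuous.comp hA) 0 ⟨by norm_num, by norm_num⟩
    (ContinuousLinearMap.id ℝ V)
  have hD' : ∀ t ∈ Ioo (-1 : ℝ) 2, HasDerivAt D ((fderiv ℝ F (Φ t x0)).comp (D t)) t := by
    intro t ht
    exact hD t ht
  refine ⟨D, hD0, hD', ?_⟩
  -- the bound of the derivative along the trajectory
  obtain ⟨M, hM1, hM⟩ : ∃ M : ℝ, 1 ≤ M ∧ ∀ t ∈ Icc (0 : ℝ) 1, ‖fderiv ℝ F (Φ t x0)‖ ≤ M := by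
    obtain ⟨M, hM⟩ := isCompact_Icc.exists_bound_of_continuousOn
      (s := Icc (0 : ℝ) 1) hA.continuousOn
    exact ⟨max 1 M, le_max_left _ _, fun t ht => le_trans (hM t ht) (le_max_right _ _)⟩
  obtain ⟨δ, C, hδ, hC, hLip⟩ := hLPF V F Φ hF ⟨hΦ0, hΦd⟩ x0
  intro t ht
  rw [hasStrictFDerivAt_iff_isLittleO, Asymptotics.isLittleO_iff]
  intro ε' hε'
  have hden : 0 < C * Real.exp M + 1 := by positivity
  obtain ⟨ε, hε, hεε⟩ : ∃ ε : ℝ, 0 < ε ∧ ε * C * Real.exp M ≤ ε' := by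
    refine ⟨ε' / (C * Real.exp M + 1), by positivity, ?_⟩
    rw [mul_assoc, div_mul_eq_mul_div, div_le_iff₀ hden]
    nlinarith
  obtain ⟨η, hη, hU⟩ := hUSD V F (fun t => Φ t x0) ε hF hc hε
  obtain ⟨ρ, hρ, hρδ, hρη⟩ : ∃ ρ : ℝ, 0 < ρ ∧ ρ ≤ δ ∧ C * ρ ≤ η := by
    refine ⟨min δ (η / (C + 1)), lt_min hδ (by positivity), min_le_left _ _, ?_⟩
    have h1 : C * min δ (η / (C + 1)) ≤ C * (η / (C + 1)) :=
      mul_le_mul_of_nonneg_left (min_le_right _ _) hC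
    have h2 : C * (η / (C + 1)) ≤ η := by
      rw [mul_div_assoc', div_le_iff₀ (by positivity)]
      nlinarith
    linarith
  have hnh : Metric.ball x0 ρ ×ˢ Metric.ball x0 ρ ∈ 𝓝 (x0, x0) :=
    prod_mem_nhds (Metric.ball_mem_nhds x0 hρ) (Metric.ball_mem_nhds x0 hρ)
  filter_upwards [hnh]
  rintro ⟨x, y⟩ ⟨hx, hy⟩
  change x ∈ Metric.ball x0 ρ at hx
  change y ∈ Metric.ball x0 ρ at hy
  change ‖Φ t x - Φ t y - D t (x - y)‖ ≤ ε' * ‖x - y‖
  have hxδ : x ∈ Metric.ball x0 δ := Metric.ball_subset_ball hρδ hx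
  have hyδ : y ∈ Metric.ball x0 δ := Metric.ball_subset_ball hρδ hy
  have h0δ : x0 ∈ Metric.ball x0 δ := Metric.mem_ball_self hδ
  have hnear : ∀ z ∈ Metric.ball x0 ρ, ∀ s ∈ Icc (0 : ℝ) 1, ‖Φ s z - Φ s x0‖ ≤ η := by
    intro z hz s hs
    have h1 := hLip z (Metric.ball_subset_ball hρδ hz) x0 h0δ s hs
    have h2 : ‖z - x0‖ ≤ ρ := by
      rw [← dist_eq_norm]
      exact (Metric.mem_ball.1 hz).le
    exact le_trans h1 (le_trans (mul_le_mul_of_nonneg_left h2 hC) hρη)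
  -- Gronwall
  have hZd : ∀ s ∈ Icc (0 : ℝ) 1, HasDerivAt (fun s => Φ s x - Φ s y - D s (x - y))
      (F (Φ s x) - F (Φ s y) - ((fderiv ℝ F (Φ s x0)).comp (D s)) (x - y)) s := by
    intro s hs
    have h1 : HasDerivAt (fun s => D s (x - y))
        (((fderiv ℝ F (Φ s x0)).comp (D s)) (x - y)) s := by
      have h2 := (hD' s ⟨by linarith [hs.1], by linarith [hs.2]⟩).clm_apply
        (hasDerivAt_const s (x - y))
      simpa using h2
    exact ((hΦd x s).sub (hΦd y s)).sub h1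
  have hgr := norm_le_gronwallBound_of_norm_deriv_right_le
    (f := fun s => Φ s x - Φ s y - D s (x - y))
    (f' := fun s => F (Φ s x) - F (Φ s y) - ((fderiv ℝ F (Φ s x0)).comp (D s)) (x - y))
    (δ := 0) (K := M) (ε := ε * C * ‖x - y‖) (a := 0) (b := 1)
    (fun s hs => (hZd s hs).continuousAt.continuousWithinAt)
    (fun s hs => (hZd s ⟨hs.1, hs.2.le⟩).hasDerivWithinAt)
    (by
      change ‖Φ 0 x - Φ 0 y - D 0 (x - y)‖ ≤ 0
      rw [hΦ0, hΦ0, hD0]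
      simp)
    (by
      intro s hs
      have hs' : s ∈ Icc (0 : ℝ) 1 := ⟨hs.1, hs.2.le⟩
      have h1 : F (Φ s x) - F (Φ s y) - ((fderiv ℝ F (Φ s x0)).comp (D s)) (x - y) =
          (F (Φ s x) - F (Φ s y) - fderiv ℝ F (Φ s x0) (Φ s x - Φ s y)) +
            fderiv ℝ F (Φ s x0) (Φ s x - Φ s y - D s (x - y)) := by
        rw [ContinuousLinearMap.comp_apply, map_sub (fderiv ℝ F (Φ s x0)) (Φ s x - Φ s y)]
        abel
      change ‖F (Φ s x) - F (Φ s y) - ((fderiv ℝ F (Φ s x0)).comp (D s)) (x - y)‖ ≤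
        M * ‖Φ s x - Φ s y - D s (x - y)‖ + ε * C * ‖x - y‖
      rw [h1]
      have h2 := hU s hs' (Φ s x) (Φ s y) (hnear x hx s hs') (hnear y hy s hs')
      have h3 := hLip x hxδ y hyδ s hs'
      have h4 := (fderiv ℝ F (Φ s x0)).le_opNorm (Φ s x - Φ s y - D s (x - y))
      have h5 : ‖fderiv ℝ F (Φ s x0)‖ * ‖Φ s x - Φ s y - D s (x - y)‖ ≤
          M * ‖Φ s x - Φ s y - D s (x - y)‖ :=
        mul_le_mul_of_nonneg_right (hM s hs') (norm_nonneg _)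
      have h6 : ε * ‖Φ s x - Φ s y‖ ≤ ε * C * ‖x - y‖ := by
        rw [mul_assoc]
        exact mul_le_mul_of_nonneg_left h3 hε.le
      refine le_trans (norm_add_le _ _) ?_
      change ‖F (Φ s x) - F (Φ s y) - fderiv ℝ F (Φ s x0) (Φ s x - Φ s y)‖ ≤
        ε * ‖Φ s x - Φ s y‖ at h2
      linarith)
    t ht
  have he : 0 ≤ ε * C * ‖x - y‖ := by positivity
  have hfin := X_FLW.gron (t := t - 0) hM1 he (by linarith [ht.2])
  change ‖Φ t x - Φ t y - D t (x - y)‖ ≤ _ at hgr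
  refine le_trans hgr (le_trans hfin ?_)
  calc ε * C * ‖x - y‖ * Real.exp M = ε * C * Real.exp M * ‖x - y‖ := by ring
    _ ≤ ε' * ‖x - y‖ := mul_le_mul_of_nonneg_right hεε (norm_nonneg _)

end Pool.Agent.Work.MP_a6f1bd_R
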