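import Pool.Agent.Work.MP_a6f1bd_R.Interface2

set_option autoImplicit false

/-! # Block FRG: the theorem, metric form -/

namespace Pool.Agent.Work.MP_a6f1bd_R

open Real Filter Topology Set
open scoped ContDiff
open Pool.Agent.Work.MP_a6f1bd_gt

namespace X_FRG

/-- The ideal triangle of the metric space is the triangle `tri`. -/
theorem tri_eq (hCLO : Stmt_CLO) (hSGB : Stmt_SGB) {m : ℕ} (G : RMetric m) (hc : G.Complete)
    (hN : G.Npc) (h : G.DAx) (γ : ℝ → E m) (y : E m) :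
    @idealTriangle (Pt m) (G.msp h) γ y = G.tri γ y := by
  have e : ({p : Pt m | ∃ t, 0 ≤ t ∧ @Btw (Pt m) (G.msp h) y p (γ t)} : Set (Pt m)) =
      ({x : E m | ∃ t, 0 ≤ t ∧ x ∈ G.seg y (γ t)} : Set (E m)) := by
    ext x
    constructor
    · rintro ⟨t, ht, hx⟩
      refine ⟨t, ht, ?_⟩
      rw [hSGB m G hc hN]
      exact hx
    · rintro ⟨t, ht, hx⟩
      refine ⟨t, ht, ?_⟩
      rw [hSGB m G hc hN] at hx
      exact hx
  have h1 := hCLO m G hc hN h {x : E m | ∃ t, 0 ≤ t ∧ x ∈ G.seg y (γ t)}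
  unfold idealTriangle RMetric.tri
  rw [← h1]
  exact congrArg (@closure (Pt m) (G.msp h).toUniformSpace.toTopologicalSpace) e

/-- A geodesic of unit speed is isometric. -/
theorem iso (hMIN : Stmt_MIN) {m : ℕ} (G : RMetric m) (hc : G.Complete) (hN : G.Npc)
    (c : ℝ → E m) (hu : G.Unit1 c) (a b : ℝ) : G.rdist (c a) (c b) = |a - b| := by
  rw [(hMIN m G hc hN c hu.1 a b).2, hu.2, mul_one]

end X_FRG

theorem r_FRG (hMSP : Stmt_MSP) (hCLO : Stmt_CLO) (hSGB : Stmt_SGB) (hMIN : Stmt_MIN)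
    (hANG : Stmt_ANG) : Stmt_FRG := by
  intro m G hc hN hC γ hγ y hy σ hσ hσ0 hσy γ₁ σ₁ y₁ hγ₁ hσ₁ hd b hb hb₁ hang
  obtain ⟨h, hcomp, hgeo, hnpc, hcurv⟩ := hMSP m G hc hN
  have hT := X_FRG.tri_eq hCLO hSGB G hc hN h γ y
  have hray : ∀ c : ℝ → E m, G.Unit1 c → @IsRay (Pt m) (G.msp h) c := by
    intro c hu s _ t _
    exact X_FRG.iso hMIN G hc hN c hu s t
  have hseg : @IsSeg (Pt m) (G.msp h) σ (γ 0) y :=
    ⟨hσ0, hσy, fun s _ t _ => X_FRG.iso hMIN G hc hN σ hσ s t⟩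
  have hθ : @IsAngle (Pt m) (G.msp h) γ σ (G.angle (γ 0) (deriv γ 0) (deriv σ 0)) :=
    hANG m G hc hN γ σ hγ hσ hσ0.symm
  obtain ⟨hconv, Φ, h1, h2, h3, h4, h5⟩ := @rigidity (Pt m) (G.msp h) hcomp hgeo hnpc (hcurv hC)
    m γ (hray γ hγ) y σ hseg hy γ₁ hγ₁ y₁ σ₁ hσ₁ hd b hb hb₁ _ hθ hang
  rw [hT] at hconv h1
  refine ⟨?_, Φ, h1, h2, h3, h4, ?_⟩
  · intro p hp q hq x hx
    rw [hSGB m G hc hN] at hx
    exact hconv p hp q hq x hx
  · intro δ hδ hδ0 hK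
    exact h5 δ (hray δ hδ) hδ0 hK

end Pool.Agent.Work.MP_a6f1bd_R
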