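import Pool.Agent.Work.MP_a6f1bd_R.Interface2

set_option autoImplicit false

/-!
# Riemannian metrics on `ℝ^m`, block FVA: the first variation at the vertex
-/

namespace Pool.Agent.Work.MP_a6f1bd_R

open Real Filter Topology Set
open scoped ContDiff
open Pool.Agent.Work.MP_a6f1bd_gt

namespace X_FVA

/-- the calculus -/
theorem calc1 (f : ℝ → ℝ) (κ t : ℝ) (ht : 0 < t) (hf : HasDerivAt f (-t * κ) 0)
    (hf0 : f 0 = t ^ 2 / 2) :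
    Tendsto (fun s => (s ^ 2 + t ^ 2 - 2 * f s) / (2 * s * t)) (𝓝[>] 0) (𝓝 κ) := by
  rw [hasDerivAt_iff_tendsto_slope] at hf
  have h2 : Tendsto (slope f 0) (𝓝[>] 0) (𝓝 (-t * κ)) :=
    hf.mono_left (nhdsWithin_mono 0 (fun x hx => (Set.mem_Ioi.mp hx).ne'))
  have h3 : Tendsto (fun s : ℝ => s / (2 * t)) (𝓝[>] 0) (𝓝 (0 / (2 * t))) :=
    (tendsto_id.mono_left nhdsWithin_le_nhds).div_const _
  have h4 : Tendsto (fun s : ℝ => s / (2 * t) - slope f 0 s / t) (𝓝[>] 0)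
      (𝓝 (0 / (2 * t) - (-t * κ) / t)) := h3.sub (h2.div_const t)
  have h5 : 0 / (2 * t) - (-t * κ) / t = κ := by field_simp; ring
  rw [h5] at h4
  refine h4.congr' ?_
  filter_upwards [self_mem_nhdsWithin] with s hs
  have hs0 : s ≠ 0 := (Set.mem_Ioi.mp hs).ne'
  rw [slope_def_field, hf0, sub_zero]
  field_simp
  ring

end X_FVA

theorem r_FVA (hSND : Stmt_SND) (hMIN : Stmt_MIN) (hGEO : Stmt_GEO) (hDIS : Stmt_DIS) :
    Stmt_FVA := by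
  intro m G hc hN c₁ c₂ h1 h2 h0 t ht
  obtain ⟨-, g2, g3, -, -⟩ := hGEO m G
  obtain ⟨-, -, -, hcomm, -⟩ := hDIS m G hc hN
  obtain ⟨f₁, f₂, hf, -, -, hf₁, -⟩ := hSND m G hc hN (c₂ t) c₁ h1
  obtain ⟨m1, m2⟩ := hMIN m G hc hN c₂ h2.1 t 0
  have hN0 : deriv (G.gd hc (c₂ t) (G.lo hc (c₂ t) (c₁ 0))) 1 = (0 - t) • deriv c₂ 0 := by
    have e : G.gd hc (c₂ t) (G.lo hc (c₂ t) (c₁ 0)) = fun r => c₂ ((0 - t) * r + t) := by
      funext r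
      rw [h0, m1, g3 hc c₂ (0 - t) t h2.1 r]
    rw [e, (g2 c₂ (0 - t) t h2.1).2 1]
    congr 2
    ring
  have hd0 : f₁ 0 = -t * G.g (c₁ 0) (deriv c₁ 0) (deriv c₂ 0) := by
    rw [hf₁, hN0, G.symm (c₁ 0) ((0 - t) • deriv c₂ 0) (deriv c₁ 0), map_smul, smul_eq_mul]
    ring
  have hval : G.rdist (c₂ t) (c₁ 0) ^ 2 / 2 = t ^ 2 / 2 := by
    rw [h0, m2, h2.2, mul_one, sub_zero, sq_abs]
  have h := X_FVA.calc1 (fun τ => G.rdist (c₂ t) (c₁ τ) ^ 2 / 2)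
    (G.g (c₁ 0) (deriv c₁ 0) (deriv c₂ 0)) t ht (by rw [← hd0]; exact hf 0) hval
  refine h.congr fun s => ?_
  rw [hcomm (c₁ s) (c₂ t)]
  ring_nf

end Pool.Agent.Work.MP_a6f1bd_R
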