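import Pool.Agent.Work.MP_a6f1bd_R.Interface1

set_option autoImplicit false
set_option maxSynthPendingDepth 3

/-!
# Block GAM: the Christoffel symbols are smooth and bilinear
-/

namespace Pool.Agent.Work.MP_a6f1bd_R

open Real Filter Topology Set
open scoped ContDiff

namespace X_GAM

variable {m : ℕ}

/-- an inner product is a continuous linear equivalence to the dual space -/
theorem exists_equiv (T : E m →L[ℝ] E m →L[ℝ] ℝ) (hpos : ∀ v, v ≠ 0 → 0 < T v v) :
    ∃ e : E m ≃L[ℝ] (E m →L[ℝ] ℝ), (e : E m →L[ℝ] (E m →L[ℝ] ℝ)) = T := by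
  have hinj : Function.Injective (T : E m →ₗ[ℝ] (E m →L[ℝ] ℝ)) := by
    rw [← LinearMap.ker_eq_bot, LinearMap.ker_eq_bot']
    intro v hv
    by_contra h
    have h1 := hpos v h
    have h2 : T v = 0 := hv
    rw [h2] at h1
    simp at h1
  have hfin : Module.finrank ℝ (E m) = Module.finrank ℝ (E m →L[ℝ] ℝ) := by
    have h1 := (LinearMap.toContinuousLinearMap (𝕜 := ℝ) (E := E m) (F' := ℝ)).finrank_eq
    rw [← h1]
    exact Subspace.dual_finrank_eq.symm
  exact ⟨(LinearEquiv.ofInjectiveOfFinrankEq _ hinj hfin).toContinuousLinearEquiv, rfl⟩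

/-- the exchange of the two variables -/
noncomputable def fl : (E m →L[ℝ] E m →L[ℝ] ℝ) →L[ℝ] (E m →L[ℝ] E m →L[ℝ] ℝ) :=
  ((ContinuousLinearMap.flipₗᵢ ℝ (E m) (E m) ℝ).toContinuousLinearEquiv :
    (E m →L[ℝ] E m →L[ℝ] ℝ) →L[ℝ] (E m →L[ℝ] E m →L[ℝ] ℝ))

/-- the Koszul form as a continuous trilinear map -/
noncomputable def K (D : E m →L[ℝ] E m →L[ℝ] E m →L[ℝ] ℝ) :
    E m →L[ℝ] E m →L[ℝ] E m →L[ℝ] ℝ :=
  (1 / 2 : ℝ) • (D + D.flip - fl.comp D.flip)

theorem K_apply (D : E m →L[ℝ] E m →L[ℝ] E m →L[ℝ] ℝ) (u v : E m) :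
    K D u v = (1 / 2 : ℝ) • (D u v + D v u - (D.flip u).flip v) := rfl

theorem K_apply3 (D : E m →L[ℝ] E m →L[ℝ] E m →L[ℝ] ℝ) (u v w : E m) :
    K D u v w = (D u v w + D v u w - D w u v) / 2 := by
  have h : K D u v w = (1 / 2 : ℝ) * (D u v w + D v u w - D w u v) := rfl
  rw [h]; ring

theorem K_smooth {D : E m → E m →L[ℝ] E m →L[ℝ] E m →L[ℝ] ℝ} (hD : ContDiff ℝ ∞ D) :
    ContDiff ℝ ∞ (fun x => K (D x)) := by
  have h1 : ContDiff ℝ ∞ (fun x => (D x).flip) :=
    (ContinuousLinearMap.flipₗᵢ ℝ (E m) (E m) (E m →L[ℝ] ℝ)).contDiff.comp hD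
  unfold K
  exact ((hD.add h1).sub (contDiff_const.clm_comp h1)).const_smul _

end X_GAM

open X_GAM in
theorem r_GAM : Stmt_GAM := by
  intro m G
  have hD : ContDiff ℝ ∞ (fderiv ℝ G.g) := G.smooth.fderiv_right (by simp)
  have hex := fun x => exists_equiv (G.g x) (G.pos x)
  have hinv : ∀ (x : E m) (φ : E m →L[ℝ] ℝ), G.g x ((G.g x).inverse φ) = φ := by
    intro x φ
    obtain ⟨e, he⟩ := hex x
    rw [← he, ContinuousLinearMap.inverse_equiv]
    simp
  have hinj : ∀ (x v w : E m), G.g x v = G.g x w → v = w := by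
    intro x v w h
    obtain ⟨e, he⟩ := hex x
    rw [← he] at h
    exact e.injective h
  have hsm : ContDiff ℝ ∞ (fun x => (G.g x).inverse) := by
    rw [contDiff_iff_contDiffAt]
    intro x
    obtain ⟨e, he⟩ := hex x
    have h1 : ContDiffAt ℝ ∞ ContinuousLinearMap.inverse (G.g x) := by
      rw [← he]
      exact contDiffAt_map_inverse e
    exact h1.comp x G.smooth.contDiffAt
  have hsym : ∀ x u v w, fderiv ℝ G.g x u v w = fderiv ℝ G.g x u w v := by
    intro x u v w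
    have hd : HasFDerivAt G.g (fderiv ℝ G.g x) x :=
      (G.smooth.differentiable (by simp) x).hasFDerivAt
    have h1 : HasFDerivAt (fun y => G.g y v w) _ x :=
      (hd.clm_apply (hasFDerivAt_const v x)).clm_apply (hasFDerivAt_const w x)
    have h2 : HasFDerivAt (fun y => G.g y w v) _ x :=
      (hd.clm_apply (hasFDerivAt_const w x)).clm_apply (hasFDerivAt_const v x)
    have h3 : (fun y => G.g y v w) = fun y => G.g y w v := funext fun y => G.symm y v w
    rw [h3] at h1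
    have h4 := congrArg (fun L => L u) (h1.unique h2)
    simpa using h4
  refine ⟨fun x => (ContinuousLinearMap.compL ℝ (E m) (E m →L[ℝ] ℝ) (E m) (G.g x).inverse).comp
    (K (fderiv ℝ G.g x)), ?_, fun x u v => rfl, ?_, ?_⟩
  · exact ((ContinuousLinearMap.compL ℝ (E m) (E m →L[ℝ] ℝ) (E m)).contDiff.comp hsm).clm_comp
      (K_smooth hD)
  · intro x u v w
    have h1 : G.g x ((G.g x).inverse (K (fderiv ℝ G.g x) u v)) w = K (fderiv ℝ G.g x) u v w := by
      rw [hinv]
    exact h1.trans (K_apply3 _ u v w)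
  · intro x u v
    have h1 : K (fderiv ℝ G.g x) u v = K (fderiv ℝ G.g x) v u := by
      ext w
      rw [K_apply3, K_apply3, hsym x w u v]
      ring
    exact congrArg (G.g x).inverse h1

end Pool.Agent.Work.MP_a6f1bd_R
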