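import Pool.Agent.Work.MP_a6f1bd_R.Interface1

set_option autoImplicit false

/-! # GEO: geodesics -/

namespace Pool.Agent.Work.MP_a6f1bd_R

open Real Filter Topology Set
open scoped ContDiff

namespace X_GEO

/-- uniqueness of the integral curves of a `C¹` vector field -/
theorem uniq {V : Type} [NormedAddCommGroup V] [NormedSpace ℝ V] [FiniteDimensional ℝ V]
    (F : V → V) (hF : ContDiff ℝ 1 F) (f g : ℝ → V) (hf : ∀ t, HasDerivAt f (F (f t)) t)
    (hg : ∀ t, HasDerivAt g (F (g t)) t) (t0 : ℝ) (h0 : f t0 = g t0) : f = g := by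
  have hfc : Continuous f := continuous_iff_continuousAt.2 fun t => (hf t).continuousAt
  have hgc : Continuous g := continuous_iff_continuousAt.2 fun t => (hg t).continuousAt
  ext t
  obtain ⟨a, b, ht, ht0⟩ : ∃ a b, t ∈ Ioo a b ∧ t0 ∈ Ioo a b := by
    refine ⟨(min (-|t|) (-|t0|)) - 1, (max |t| |t0|) + 1, ?_, ?_⟩ <;> grind
  obtain ⟨R1, hR1⟩ := (isCompact_Icc (a := a) (b := b)).exists_bound_of_continuousOn
    hfc.continuousOn
  obtain ⟨R2, hR2⟩ := (isCompact_Icc (a := a) (b := b)).exists_bound_of_continuousOn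
    hgc.continuousOn
  set R := max R1 R2
  obtain ⟨K0, hK0⟩ := (isCompact_closedBall (0 : V) R).exists_bound_of_continuousOn
    (f := fderiv ℝ F) (hF.continuous_fderiv (by norm_num)).continuousOn
  have hlip : LipschitzOnWith (Real.toNNReal K0) F (Metric.closedBall (0 : V) R) := by
    refine (convex_closedBall (0 : V) R).lipschitzOnWith_of_nnnorm_fderiv_le
      (fun x _ => (hF.differentiable (by norm_num)).differentiableAt) fun x hx => ?_
    have h1 := hK0 x hx
    rw [← NNReal.coe_le_coe, coe_nnnorm]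
    exact h1.trans (Real.le_coe_toNNReal K0)
  refine ODE_solution_unique_of_mem_Ioo (v := fun _ => F) (s := fun _ => Metric.closedBall (0 : V) R)
    (fun _ _ => hlip) ht0 (fun s hs => ⟨hf s, ?_⟩) (fun s hs => ⟨hg s, ?_⟩) h0 ht
  · rw [mem_closedBall_zero_iff]
    exact (hR1 s (Ioo_subset_Icc_self hs)).trans (le_max_left _ _)
  · rw [mem_closedBall_zero_iff]
    exact (hR2 s (Ioo_subset_Icc_self hs)).trans (le_max_right _ _)

end X_GEO

theorem r_GEO (hGAM : Stmt_GAM) (hCMT : Stmt_CMT) : Stmt_GEO := by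
  intro m G
  obtain ⟨B, hB, hG, -, -⟩ := hGAM m G
  have huniq : ∀ (c c1 : ℝ → E m) (t0 : ℝ), G.IsGeodesic c → G.IsGeodesic c1 → c t0 = c1 t0 →
      deriv c t0 = deriv c1 t0 → c = c1 := by
    intro c c1 t0 hc hc1 h1 h2
    let F : E m × E m → E m × E m := fun p => (p.2, -B p.1 p.2 p.2)
    have hF : ContDiff ℝ 1 F := by
      have hB1 : ContDiff ℝ 1 B := hB.of_le (by exact_mod_cast le_top)
      exact contDiff_snd.prodMk
        (((hB1.comp contDiff_fst).clm_apply contDiff_snd).clm_apply contDiff_snd).neg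
    have key : ∀ c : ℝ → E m, G.IsGeodesic c →
        ∀ t, HasDerivAt (fun t => (c t, deriv c t)) (F (c t, deriv c t)) t := by
      intro c hc t
      have h3 := (hc t).2
      rw [hG] at h3
      exact (hc t).1.prodMk h3
    have h3 := X_GEO.uniq F hF _ _ (key c hc) (key c1 hc1) t0 (by
      show (c t0, deriv c t0) = (c1 t0, deriv c1 t0)
      rw [h1, h2])
    funext t
    exact congrArg Prod.fst (congrFun h3 t)
  have haff : ∀ (c : ℝ → E m) (a b : ℝ), G.IsGeodesic c →
      G.IsGeodesic (fun r => c (a * r + b)) ∧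
      ∀ r, deriv (fun r => c (a * r + b)) r = a • deriv c (a * r + b) := by
    intro c a b hc
    have hlin : ∀ r : ℝ, HasDerivAt (fun r => a * r + b) a r := by
      intro r
      simpa using ((hasDerivAt_id r).const_mul a).add_const b
    have h1 : ∀ r, HasDerivAt (fun r => c (a * r + b)) (a • deriv c (a * r + b)) r := by
      intro r
      exact (hc (a * r + b)).1.scomp r (hlin r)
    have h2 : deriv (fun r => c (a * r + b)) = fun r => a • deriv c (a * r + b) := by
      funext r
      exact (h1 r).deriv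
    refine ⟨fun r => ⟨?_, ?_⟩, fun r => (h1 r).deriv⟩
    · rw [h2]
      exact h1 r
    · rw [h2]
      have h3 : HasDerivAt (fun r => a • deriv c (a * r + b))
          (a • (a • -G.Gam (c (a * r + b)) (deriv c (a * r + b)) (deriv c (a * r + b)))) r :=
        ((hc (a * r + b)).2.scomp r (hlin r)).const_smul a
      convert h3 using 1
      rw [hG, hG, map_smul, map_smul, ContinuousLinearMap.smul_apply, smul_neg, smul_neg]
  have hgd : ∀ (hc : G.Complete) (c : ℝ → E m) (a b : ℝ), G.IsGeodesic c → ∀ r,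
      G.gd hc (c b) (a • deriv c b) r = c (a * r + b) := by
    intro hc c a b hg r
    obtain ⟨h1, h2⟩ := haff c a b hg
    have h3 := huniq (G.gd hc (c b) (a • deriv c b)) (fun r => c (a * r + b)) 0
      (G.gd_geo hc _ _) h1 (by
        rw [G.gd_zero]
        simp) (by
        rw [G.gd_deriv_zero, h2 0]
        simp)
    exact congrFun h3 r
  refine ⟨huniq, haff, hgd, fun hc x v a r => ?_, fun c hc s t => ?_⟩
  · have h1 := hgd hc (G.gd hc x v) a 0 (G.gd_geo hc x v) r
    rw [G.gd_zero, G.gd_deriv_zero, add_zero] at h1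
    exact h1
  · have h1 : ∀ s, HasDerivAt (fun r => G.g (c r) (deriv c r) (deriv c r)) 0 s := by
      intro s
      have h2 := (hCMT m G).2 c (deriv c) (deriv c) (deriv c s)
        (-G.Gam (c s) (deriv c s) (deriv c s)) (-G.Gam (c s) (deriv c s) (deriv c s)) s
        (hc s).1 (hc s).2 (hc s).2
      have h3 : G.cov (c s) (deriv c s) (deriv c s)
          (-G.Gam (c s) (deriv c s) (deriv c s)) = 0 := by
        unfold RMetric.cov
        exact neg_add_cancel _
      rw [h3, map_zero, ContinuousLinearMap.zero_apply, map_zero, add_zero] at h2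
      exact h2
    have h4 : G.g (c s) (deriv c s) (deriv c s) = G.g (c t) (deriv c t) (deriv c t) :=
      is_const_of_deriv_eq_zero (f := fun r => G.g (c r) (deriv c r) (deriv c r))
        (fun s => (h1 s).differentiableAt) (fun s => (h1 s).deriv) s t
    unfold RMetric.nrm
    rw [h4]

end Pool.Agent.Work.MP_a6f1bd_R
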