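import Pool.Agent.Work.MP_a6f1bd_R.Interface2

set_option autoImplicit false

/-! # PROJECT RIEMANN, block HLO (helper22): the logarithm in the hyperboloid model -/

namespace Pool.Agent.Work.MP_a6f1bd_R

open Real Filter Topology Set
open scoped ContDiff
open Pool.Agent.Work.MP_a6f1bd_gt

theorem r_HLO : Stmt_HLO := by
  intro m y p q
  have hyy : lor y.vec y.vec = 1 := lor_self y
  have hpy : lor p.vec y.vec = cosh (dist y p) := by rw [lor_comm, Hyp.cosh_dist]
  have hyq : lor y.vec q.vec = cosh (dist y q) := by rw [Hyp.cosh_dist]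
  have hpq : lor p.vec q.vec = cosh (dist p q) := by rw [Hyp.cosh_dist]
  constructor
  · rw [hlog, lor_smul_left, lor_sub_left, lor_smul_left, hpy, hyy]
    ring
  · rw [hlog, hlog, lor_smul_left, lor_smul_right, lor_sub_left, lor_sub_right,
      lor_smul_left, lor_smul_right, lor_sub_right, lor_smul_right, hpy, hyq, hpq,
      hyy]
    ring

end Pool.Agent.Work.MP_a6f1bd_R
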