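import Pool.Agent.Work.MP_a6f1bd_R.Interface2

set_option autoImplicit false

/-! # Block HSP: the logarithms of the points of an ideal triangle are in a plane -/

namespace Pool.Agent.Work.MP_a6f1bd_R

open Real Filter Topology Set
open scoped ContDiff
open Pool.Agent.Work.MP_a6f1bd_gt

namespace X_HSP

variable {m : ℕ}

theorem cont_vec : Continuous (Hyp.vec : Hyp m → ℝ × EuclideanSpace ℝ (Fin m)) := by
  rw [continuous_iff_seqContinuous]
  intro u p hu
  have ht : Tendsto (fun n => (u n).t) atTop (𝓝 p.t) := by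
    have h1 : (fun n => (u n).t) = fun n => cosh (dist (u n) (Hyp.origin m)) :=
      funext fun n => Hyp.t_eq _
    rw [h1, Hyp.t_eq p]
    exact (continuous_cosh.tendsto _).comp (hu.dist tendsto_const_nhds)
  have hv : Tendsto (fun n => (u n).v) atTop (𝓝 p.v) := by
    rw [tendsto_iff_norm_sub_tendsto_zero]
    have h2 : Tendsto (fun n => 2 * (p.t + 1) ^ 2 * (cosh (dist (u n) p) - 1)) atTop (𝓝 0) := by
      have h3 : Tendsto (fun n => dist (u n) p) atTop (𝓝 0) :=
        tendsto_iff_dist_tendsto_zero.1 hu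
      have h4 := (((continuous_cosh.tendsto 0).comp h3).sub_const 1).const_mul
        (2 * (p.t + 1) ^ 2)
      simpa using h4
    have h5 : Tendsto (fun n => ‖(u n).v - p.v‖ ^ 2) atTop (𝓝 0) := by
      refine squeeze_zero' (Eventually.of_forall fun n => by positivity) ?_ h2
      filter_upwards [ht.eventually (gt_mem_nhds (lt_add_one p.t))] with n hn
      exact Hyp.norm_sub_le (u n) p hn.le (by linarith)
    have h6 := h5.sqrt
    simpa only [Real.sqrt_zero, Real.sqrt_sq (norm_nonneg _)] using h6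
  exact ht.prodMk_nhds hv

end X_HSP

open X_HSP

theorem r_HSP : Stmt_HSP := by
  intro m c hc y
  set V : Submodule ℝ (ℝ × EuclideanSpace ℝ (Fin m)) :=
    Submodule.span ℝ {y.vec, (c 0).vec, (c 1).vec} with hV
  have hyV : y.vec ∈ V := Submodule.subset_span (by simp)
  have h0V : (c 0).vec ∈ V := Submodule.subset_span (by simp)
  have h1V : (c 1).vec ∈ V := Submodule.subset_span (by simp)
  have hs1 : sinh 1 ≠ 0 := (sinh_pos_iff.2 one_pos).ne'
  have hd01 : dist (c 0) (c 1) = 1 := by
    rw [hc 0 le_rfl 1 zero_le_one]; norm_num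
  have hct : ∀ t, 0 ≤ t → (c t).vec ∈ V := by
    intro t ht
    rcases le_total t 1 with h | h
    · have hb := Hyp.vec_btw (Hyp.isRay_btw hc le_rfl ht h)
      rw [hd01] at hb
      rw [← V.smul_mem_iff hs1, hb]
      exact V.add_mem (V.smul_mem _ h0V) (V.smul_mem _ h1V)
    · have hb := Hyp.vec_btw (Hyp.isRay_btw hc le_rfl zero_le_one h)
      rw [hd01] at hb
      rw [← V.smul_mem_iff hs1]
      have : sinh 1 • (c t).vec = sinh (dist (c 0) (c t)) • (c 1).vec
          - sinh (dist (c 1) (c t)) • (c 0).vec := by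
        rw [hb]; abel
      rw [this]
      exact V.sub_mem (V.smul_mem _ h1V) (V.smul_mem _ h0V)
  have hsub : idealTriangle c y ⊆ {p : Hyp m | p.vec ∈ V} := by
    refine closure_minimal ?_ ((Submodule.closed_of_finiteDimensional V).preimage cont_vec)
    rintro p ⟨t, ht, hp⟩
    by_cases hd : dist y (c t) = 0
    · have hp' := hp
      unfold Pool.Agent.Work.MP_a6f1bd_gt.Btw at hp'
      rw [hd] at hp'
      have h2 : dist y p = 0 := by
        have a1 : 0 ≤ dist y p := dist_nonneg
        have a2 : 0 ≤ dist p (c t) := dist_nonneg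
        linarith
      have h3 : y = p := dist_eq_zero.1 h2
      rw [← h3]
      exact hyV
    · have hb := Hyp.vec_btw hp
      have hs : sinh (dist y (c t)) ≠ 0 :=
        (sinh_pos_iff.2 (lt_of_le_of_ne dist_nonneg (Ne.symm hd))).ne'
      show p.vec ∈ V
      rw [← V.smul_mem_iff hs, hb]
      exact V.add_mem (V.smul_mem _ hyV) (V.smul_mem _ (hct t ht))
  set l0 := lor (c 0).vec y.vec with hl0
  set l1 := lor (c 1).vec y.vec with hl1
  refine ⟨(c 0).vec - l0 • y.vec, (c 1).vec - l1 • y.vec, fun p hp => ?_⟩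
  have hpV : p.vec ∈ V := hsub hp
  rw [hV, Submodule.mem_span_insert] at hpV
  obtain ⟨α, z, hz, hpz⟩ := hpV
  rw [Submodule.mem_span_pair] at hz
  obtain ⟨β, δ, rfl⟩ := hz
  have hyy := lor_self y
  have hcd : cosh (dist y p) = lor p.vec y.vec := by rw [Hyp.cosh_dist, lor_comm]
  have hk : α - cosh (dist y p) + β * l0 + δ * l1 = 0 := by
    have h1 : lor p.vec y.vec = α * 1 + (β * l0 + δ * l1) := by
      rw [hpz, lor_add_left, lor_add_left, lor_smul_left, lor_smul_left, lor_smul_left, hyy]
    rw [hcd, h1]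
    ring
  have hw : p.vec - cosh (dist y p) • y.vec =
      β • ((c 0).vec - l0 • y.vec) + δ • ((c 1).vec - l1 • y.vec) := by
    have h2 : p.vec - cosh (dist y p) • y.vec =
        (α - cosh (dist y p) + β * l0 + δ * l1) • y.vec +
        (β • ((c 0).vec - l0 • y.vec) + δ • ((c 1).vec - l1 • y.vec)) := by
      rw [hpz]
      module
    rw [h2, hk, zero_smul, zero_add]
  unfold hlog
  rw [hw]
  refine Submodule.smul_mem _ _ (Submodule.mem_span_pair.2 ⟨β, δ, rfl⟩)

end Pool.Agent.Work.MP_a6f1bd_R
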