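import Pool.Agent.Work.MP_a6f1bd_R.Interface1

set_option autoImplicit false

/-! # Block INJ: the theorem of Cartan and Hadamard -/

namespace Pool.Agent.Work.MP_a6f1bd_R

open Real Filter Topology Set
open scoped ContDiff

theorem r_INJ (hGEO : Stmt_GEO) (hEXD : Stmt_EXD) (hLFU : Stmt_LFU) (hLFT : Stmt_LFT) :
    Stmt_INJ := by
  intro m G hc hN x
  obtain ⟨f, hf⟩ : ∃ f, f = G.ex hc x := ⟨_, rfl⟩
  have hf0 : f 0 = x := by
    have h := (hGEO m G).2.2.2.1 hc x 0 0 1
    rw [smul_zero, zero_mul, G.gd_zero] at h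
    rw [hf]
    exact h
  have hD : ∀ v, ∃ D : E m ≃L[ℝ] E m, HasStrictFDerivAt f (D : E m →L[ℝ] E m) v := by
    intro v
    obtain ⟨D, _, h, _⟩ := hEXD m G hc hN x v
    exact ⟨D, by rw [hf]; exact h⟩
  choose D hD using hD
  obtain ⟨hloc, huniq, _⟩ := hLFU m f D hD
  have hfc : Continuous f := hloc.continuous
  -- the lifts
  have hseg : ∀ q : E m, ∃ L : ℝ → E m, L 0 = 0 ∧ ContinuousOn L (Icc 0 1) ∧
      ∀ t ∈ Icc (0 : ℝ) 1, f (L t) = x + t • (q - x) := by
    intro q
    obtain ⟨L, h1, h2, h3⟩ := hLFT m G hc hN x 0 (fun t => x + t • (q - x))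
      (contDiff_const.add (contDiff_id.smul contDiff_const))
      (by
        show G.ex hc x 0 = x + (0 : ℝ) • (q - x)
        rw [zero_smul, add_zero, ← hf]
        exact hf0)
    refine ⟨L, h1, h2, ?_⟩
    intro t ht
    rw [hf]
    exact (h3 t ht).1
  choose L hL0 hLc hLf using hseg
  have hcont : Continuous (fun p : unitInterval × E m => L p.2 (p.1 : ℝ)) := by
    refine hloc.continuous_lift (T2Space.isSeparatedMap f)
      ⟨fun p : unitInterval × E m => x + (p.1 : ℝ) • (p.2 - x), by fun_prop⟩ ?_ ?_ ?_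
    · funext p
      exact hLf p.2 p.1 p.1.2
    · have h : (fun a : E m => L a ((0 : unitInterval) : ℝ)) = fun _ => 0 := by
        funext a
        exact hL0 a
      show Continuous (fun a : E m => L a ((0 : unitInterval) : ℝ))
      rw [h]
      exact continuous_const
    · intro a
      exact (hLc a).comp_continuous continuous_subtype_val (fun t => t.2)
  obtain ⟨Ψ, hΨ⟩ : ∃ Ψ : E m → E m, Ψ = fun q => L q 1 := ⟨_, rfl⟩
  have hΨc : Continuous Ψ := by
    have h := hcont.comp ((continuous_const (y := (1 : unitInterval))).prodMk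
      (continuous_id (X := E m)))
    rw [hΨ]
    exact h
  have hfΨ : ∀ q, f (Ψ q) = q := by
    intro q
    rw [hΨ]
    show f (L q 1) = q
    rw [hLf q 1 (right_mem_Icc.mpr zero_le_one), one_smul]
    abel
  have hΨx : Ψ x = 0 := by
    rw [hΨ]
    refine huniq 1 (L x) (fun _ => 0) zero_le_one (hLc x) continuousOn_const ?_ (hL0 x) 1
      (right_mem_Icc.mpr zero_le_one)
    intro t ht
    show f (L x t) = f 0
    rw [hLf x t ht, sub_self, smul_zero, add_zero, hf0]
  have hΨf : ∀ v, Ψ (f v) = v := by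
    have hcl : IsClosed {v | Ψ (f v) = v} := isClosed_eq (hΨc.comp hfc) continuous_id
    have hop : IsOpen {v | Ψ (f v) = v} := by
      rw [isOpen_iff_mem_nhds]
      intro v0 hv0
      obtain ⟨e, he, hfe⟩ := hloc v0
      have hv0' : Ψ (f v0) = v0 := hv0
      have h1 : ∀ᶠ v in 𝓝 v0, v ∈ e.source := e.open_source.mem_nhds he
      have h2 : ∀ᶠ v in 𝓝 v0, Ψ (f v) ∈ e.source := by
        have h3 : ContinuousAt (fun v => Ψ (f v)) v0 := (hΨc.comp hfc).continuousAt
        apply h3
        show e.source ∈ 𝓝 (Ψ (f v0))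
        rw [hv0']
        exact e.open_source.mem_nhds he
      filter_upwards [h1, h2] with v hv1 hv2
      show Ψ (f v) = v
      have h3 : f (Ψ (f v)) = f v := hfΨ (f v)
      rw [hfe] at h3
      have h4 := e.injOn (by rw [← hfe]; exact hv2) hv1 h3
      rw [hfe]
      exact h4
    have hne : ({v | Ψ (f v) = v} : Set (E m)).Nonempty := ⟨0, by
      show Ψ (f 0) = 0
      rw [hf0]
      exact hΨx⟩
    have h := IsClopen.eq_univ ⟨hcl, hop⟩ hne
    intro v
    have hv : v ∈ {v | Ψ (f v) = v} := by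
      rw [h]
      exact mem_univ v
    exact hv
  have hinj : Function.Injective f := Function.LeftInverse.injective hΨf
  have hlo : G.lo hc x = Ψ := by
    funext y
    apply hinj
    rw [hfΨ]
    have h : ∃ v, G.ex hc x v = y := ⟨Ψ y, by rw [← hf]; exact hfΨ y⟩
    have h2 : G.ex hc x (Function.invFun (G.ex hc x) y) = y := Function.invFun_eq h
    rw [hf]
    exact h2
  rw [hlo, ← hf]
  refine ⟨hfΨ, hΨf, hΨc, hf0, hΨx, ?_⟩
  intro v D' hD'
  refine HasStrictFDerivAt.of_local_left_inverse hΨc.continuousAt ?_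
    (Eventually.of_forall hfΨ)
  rw [hΨf]
  exact hD'

end Pool.Agent.Work.MP_a6f1bd_R
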