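import Pool.Agent.Work.MP_a6f1bd_R.Interface2

set_option autoImplicit false

/-! # Block IOT: linear algebra, Gram matrices -/

namespace Pool.Agent.Work.MP_a6f1bd_R

theorem r_IOT : Stmt_IOT := by
  intro T V W _ _ _ _ A B f h hpos hAB
  classical
  set F : (T →₀ ℝ) →ₗ[ℝ] V := Finsupp.linearCombination ℝ f with hF
  set H : (T →₀ ℝ) →ₗ[ℝ] W := Finsupp.linearCombination ℝ h with hH
  have key : ∀ z : T →₀ ℝ, B (H z) (H z) = A (F z) (F z) := by
    intro z
    have e1 : H z = ∑ p ∈ z.support, z p • h p := by
      rw [hH, Finsupp.linearCombination_apply, Finsupp.sum]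
    have e2 : F z = ∑ p ∈ z.support, z p • f p := by
      rw [hF, Finsupp.linearCombination_apply, Finsupp.sum]
    rw [e1, e2]
    simp only [map_sum, LinearMap.sum_apply, map_smul, LinearMap.smul_apply, smul_eq_mul, hAB]
  have hker : ∀ z, F z = 0 → H z = 0 := by
    intro z hz
    by_contra hne
    have h1 := hpos (H z) hne
    rw [key, hz, map_zero] at h1
    exact lt_irrefl _ h1
  obtain ⟨r, hr⟩ := LinearMap.exists_rightInverse_of_surjective F.rangeRestrict
    (LinearMap.range_rangeRestrict F)
  obtain ⟨g, hg⟩ := LinearMap.exists_extend (H.comp r)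
  refine ⟨g, fun p => ?_⟩
  have hFp : F (Finsupp.single p 1) = f p := by
    rw [hF, Finsupp.linearCombination_single, one_smul]
  have hHp : H (Finsupp.single p 1) = h p := by
    rw [hH, Finsupp.linearCombination_single, one_smul]
  set x : T →₀ ℝ := Finsupp.single p 1 with hx
  have h1 : g (F x) = H (r (F.rangeRestrict x)) := by
    have h2 := LinearMap.congr_fun hg (F.rangeRestrict x)
    exact h2
  have h3 : F (r (F.rangeRestrict x)) = F x := by
    have h4 := LinearMap.congr_fun hr (F.rangeRestrict x)
    exact congrArg Subtype.val h4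
  have h5 : H (r (F.rangeRestrict x) - x) = 0 := hker _ (by rw [map_sub, h3, sub_self])
  rw [map_sub, sub_eq_zero] at h5
  rw [← hFp, h1, h5, hHp]

end Pool.Agent.Work.MP_a6f1bd_R
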