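import Pool.Agent.Work.MP_a6f1bd_R.Interface1

set_option autoImplicit false

/-!
# Block JAC: the variation equation is the Jacobi equation
-/

namespace Pool.Agent.Work.MP_a6f1bd_R

open Real Filter Topology Set
open scoped ContDiff

namespace X_JAC

variable {m : ℕ}

lemma fd_eval (B : E m → E m →L[ℝ] E m →L[ℝ] E m) (hB : ContDiff ℝ ∞ B) (x u v w : E m) :
    fderiv ℝ (fun y => B y v w) x u = fderiv ℝ B x u v w := by
  have h0 : DifferentiableAt ℝ B x := (hB.differentiable (by simp)) x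
  have h1 : HasFDerivAt B (fderiv ℝ B x) x := h0.hasFDerivAt
  have h2 : HasFDerivAt (fun y => B y v) ((fderiv ℝ B x).flip v) x := by
    simpa using h1.clm_apply (hasFDerivAt_const v x)
  have h3 : HasFDerivAt (fun y => B y v w) (((fderiv ℝ B x).flip v).flip w) x := by
    simpa using h2.clm_apply (hasFDerivAt_const w x)
  rw [h3.fderiv]
  rfl

lemma fd_symm (B : E m → E m →L[ℝ] E m →L[ℝ] E m) (hB : ContDiff ℝ ∞ B)
    (hs : ∀ x u v, B x u v = B x v u) (x u v w : E m) :
    fderiv ℝ B x u v w = fderiv ℝ B x u w v := by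
  rw [← fd_eval B hB, ← fd_eval B hB]
  congr 2
  funext y
  exact hs y v w

end X_JAC

open X_JAC in
theorem r_JAC (hGAM : Stmt_GAM) (hRLN : Stmt_RLN) : Stmt_JAC := by
  intro m G c J V hc hJ s hs'
  obtain ⟨B, hB, hG, -, hs⟩ := hGAM m G
  obtain ⟨hR, -⟩ := hRLN m G B hB hG
  obtain ⟨h1, h2⟩ := hc s
  obtain ⟨h3, h4⟩ := hJ s hs'
  have hBd : HasFDerivAt B (fderiv ℝ B (c s)) (c s) :=
    ((hB.differentiable (by simp)) (c s)).hasFDerivAt
  have hBc : HasDerivAt (fun r => B (c r)) (fderiv ℝ B (c s) (deriv c s)) s := by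
    have h7 := (HasFDerivAt.comp (g := B) (g' := fderiv ℝ B (c s)) s hBd
      h1.hasFDerivAt).hasDerivAt
    refine HasDerivAt.congr_deriv (f := fun r => B (c r)) h7 ?_
    simp
  have h5 := (hBc.clm_apply h2).clm_apply h3
  have h6 := h4.add h5
  have e1 : (fun r => G.cov (c r) (deriv c r) (J r) (V r))
      = V + fun r => B (c r) (deriv c r) (J r) := by
    funext r
    simp only [RMetric.cov, hG, Pi.add_apply]
  rw [e1]
  refine h6.congr_deriv ?_
  have e2 : (fun y => G.Gam y (deriv c s) (deriv c s))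
      = fun y => B y (deriv c s) (deriv c s) := by
    funext y
    exact hG _ _ _
  rw [e2, fd_eval B hB, hR]
  simp only [RMetric.cov, hG, map_add, map_neg, _root_.add_apply,
    _root_.neg_apply]
  rw [fd_symm B hB hs (c s) (deriv c s) (J s) (deriv c s),
    hs (c s) (J s) (B (c s) (deriv c s) (deriv c s)),
    hs (c s) (J s) (deriv c s)]
  module

end Pool.Agent.Work.MP_a6f1bd_R
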