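import Pool.Agent.Work.MP_a6f1bd_R.Interface1

set_option autoImplicit false

/-!
# Block JES: estimates for Jacobi fields
-/

namespace Pool.Agent.Work.MP_a6f1bd_R

open Real Filter Topology Set
open scoped ContDiff

namespace X_JES

variable {m : ℕ} (G : RMetric m)

lemma g_nonneg (x v : E m) : 0 ≤ G.g x v v := by
  by_cases h : v = 0
  · subst h; simp
  · exact (G.pos x v h).le

end X_JES

theorem r_JES (hGAM : Stmt_GAM) (_hRLN : Stmt_RLN) (hCMT : Stmt_CMT) (hSYR : Stmt_SYR)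
    (hJAC : Stmt_JAC) (hRAY : Stmt_RAY) : Stmt_JES := by
  intro m G hN c J V hc hv hJ0
  obtain ⟨B, hB, hG, hk, hs⟩ := hGAM m G
  have hcm := (hCMT m G).2
  set T : ℝ → E m := deriv c with hT
  set D : ℝ → E m := fun s => G.cov (c s) (T s) (J s) (V s) with hD
  set R : ℝ → E m := fun s => G.Rm (c s) (J s) (T s) (T s) with hR
  have hD0 : D 0 = V 0 := by
    simp only [hD, RMetric.cov, hG, hJ0, map_zero, add_zero]
  -- derivative facts
  have dc : ∀ s, HasDerivAt c (T s) s := fun s => (hc s).1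
  have dT : ∀ s, HasDerivAt T (-G.Gam (c s) (T s) (T s)) s := fun s => (hc s).2
  have dJ : ∀ s ∈ Ioo (-1 : ℝ) 2, HasDerivAt J (V s) s := fun s hs => (hv s hs).1
  have dD : ∀ s ∈ Ioo (-1 : ℝ) 2, HasDerivAt D (-R s - G.Gam (c s) (T s) (D s)) s :=
    fun s hs => hJAC m G c J V hc hv s hs
  have covT : ∀ s, G.cov (c s) (T s) (T s) (-G.Gam (c s) (T s) (T s)) = 0 := by
    intro s; simp [RMetric.cov]
  have covD : ∀ s, G.cov (c s) (T s) (D s) (-R s - G.Gam (c s) (T s) (D s)) = -R s := by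
    intro s; simp [RMetric.cov]
  have covJ : ∀ s, G.cov (c s) (T s) (J s) (V s) = D s := fun s => rfl
  have rTT : ∀ s, G.g (c s) (R s) (T s) = 0 := by
    intro s
    have h := (hSYR m G (c s) (J s) (T s) (T s) (T s)).2.1
    simp only [hR]
    linarith
  have dDT : ∀ s ∈ Ioo (-1 : ℝ) 2, HasDerivAt (fun r => G.g (c r) (D r) (T r)) 0 s := by
    intro s hs'
    have h := hcm c D T (T s) _ _ s (dc s) (dD s hs') (dT s)
    rw [covT, covD] at h
    simpa [rTT s] using h
  have dJT : ∀ s ∈ Ioo (-1 : ℝ) 2,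
      HasDerivAt (fun r => G.g (c r) (J r) (T r)) (G.g (c s) (D s) (T s)) s := by
    intro s hs'
    have h := hcm c J T (T s) _ _ s (dc s) (dJ s hs') (dT s)
    rw [covT, covJ] at h
    simpa using h
  have dJJ : ∀ s ∈ Ioo (-1 : ℝ) 2,
      HasDerivAt (fun r => G.g (c r) (J r) (J r)) (2 * G.g (c s) (J s) (D s)) s := by
    intro s hs'
    have h := hcm c J J (T s) _ _ s (dc s) (dJ s hs') (dJ s hs')
    rw [covJ, G.symm (c s) (D s) (J s)] at h
    convert h using 1
    ring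
  have dJD : ∀ s ∈ Ioo (-1 : ℝ) 2,
      HasDerivAt (fun r => G.g (c r) (J r) (D r))
        (G.g (c s) (D s) (D s) - G.g (c s) (R s) (J s)) s := by
    intro s hs'
    have h := hcm c J D (T s) _ _ s (dc s) (dJ s hs') (dD s hs')
    rw [covJ, covD, G.symm (c s) (J s) (-R s)] at h
    convert h using 1
    simp
    ring
  have sub1 : ∀ s ∈ Icc (0 : ℝ) 1, s ∈ Ioo (-1 : ℝ) 2 := fun s hs => ⟨by linarith [hs.1], by linarith [hs.2]⟩
  have sub2 : ∀ s ∈ Ioc (0 : ℝ) 1, s ∈ Ioo (-1 : ℝ) 2 := fun s hs => ⟨by linarith [hs.1], by linarith [hs.2]⟩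
  -- part 1
  have cDT : ∀ s ∈ Icc (0 : ℝ) 1, G.g (c s) (D s) (T s) = G.g (c 0) (V 0) (T 0) := by
    intro s hs'
    have h := constant_of_has_deriv_right_zero (f := fun r => G.g (c r) (D r) (T r)) (a := 0) (b := 1)
      (fun r hr => (dDT r (sub1 r hr)).continuousAt.continuousWithinAt)
      (fun r hr => (dDT r (sub1 r ⟨hr.1, hr.2.le⟩)).hasDerivWithinAt) s hs'
    simpa [hD0] using h
  have p1 : ∀ s ∈ Icc (0 : ℝ) 1, G.g (c s) (J s) (T s) = s * G.g (c 0) (V 0) (T 0) := by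
    intro s hs'
    have h := constant_of_has_deriv_right_zero
      (f := fun r => G.g (c r) (J r) (T r) - r * G.g (c 0) (V 0) (T 0)) (a := 0) (b := 1)
      (fun r hr => (((dJT r (sub1 r hr)).sub ((hasDerivAt_id r).mul_const _)).continuousAt).continuousWithinAt)
      (fun r hr => by
        have h1 := (dJT r (sub1 r ⟨hr.1, hr.2.le⟩)).fun_sub
          ((hasDerivAt_id' r).mul_const (G.g (c 0) (V 0) (T 0)))
        rw [cDT r ⟨hr.1, hr.2.le⟩] at h1
        have h2 := h1.hasDerivWithinAt (s := Ici r)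
        simpa using h2) s hs'
    simp only [hJ0, map_zero, zero_apply, zero_mul, sub_zero] at h
    linarith
  -- part 2
  have z01 : (0 : ℝ) ∈ Ioo (-1 : ℝ) 2 := by constructor <;> norm_num
  have slopeJJ : Tendsto (fun s : ℝ => G.g (c s) (J s) (J s) / s) (𝓝[>] 0) (𝓝 0) := by
    have h := (dJJ 0 z01).tendsto_slope_zero_right
    simp only [hJ0, map_zero, zero_apply, zero_add, mul_zero, sub_zero, smul_eq_mul] at h
    refine h.congr (fun s => ?_)
    rw [div_eq_inv_mul]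
  have pcont : Tendsto (fun s : ℝ => G.g (c s) (J s) (D s)) (𝓝[>] 0) (𝓝 0) := by
    have h := (dJD 0 z01).continuousAt
    have h2 : Tendsto (fun s : ℝ => G.g (c s) (J s) (D s)) (𝓝 0) (𝓝 (G.g (c 0) (J 0) (D 0))) := h
    simp only [hJ0, map_zero, zero_apply] at h2
    exact h2.mono_left nhdsWithin_le_nhds
  have p2 : ∀ s ∈ Ioc (0 : ℝ) 1,
      0 ≤ s * G.g (c s) (J s) (D s) - G.g (c s) (J s) (J s) := by
    intro s hs'
    have h := hRAY (fun s => s * G.g (c s) (J s) (D s) - G.g (c s) (J s) (J s))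
      (fun s => (G.g (c s) (J s) (D s) + s * (G.g (c s) (D s) (D s) - G.g (c s) (R s) (J s)))
        - 2 * G.g (c s) (J s) (D s)) 0 ?_ ?_ ?_ s hs'
    · simpa using h
    · intro r hr
      have h1 := ((hasDerivAt_id' r).fun_mul (dJD r (sub2 r hr))).fun_sub (dJJ r (sub2 r hr))
      simpa using h1
    · intro r hr
      have hK : G.g (c r) (R r) (J r) ≤ 0 := hN (c r) (J r) (T r)
      have hq := X_JES.g_nonneg G (c r) (r • D r - J r)
      simp only [map_sub, map_smul, sub_apply, smul_apply,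
        smul_eq_mul, G.symm (c r) (D r) (J r)] at hq
      nlinarith [mul_nonneg (mul_nonneg hr.1.le hr.1.le) (neg_nonneg.mpr hK)]
    · have h1 : Tendsto (fun s : ℝ => G.g (c s) (J s) (D s) - G.g (c s) (J s) (J s) / s)
          (𝓝[>] 0) (𝓝 (0 - 0)) := pcont.sub slopeJJ
      rw [sub_zero] at h1
      refine h1.congr' ?_
      filter_upwards [self_mem_nhdsWithin] with r hr
      have hr' : (r : ℝ) ≠ 0 := ne_of_gt hr
      field_simp
  -- part 3
  have slopeJ : Tendsto (fun s : ℝ => s⁻¹ • J s) (𝓝[>] 0) (𝓝 (V 0)) := by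
    have h := (dJ 0 z01).tendsto_slope_zero_right
    simpa [hJ0] using h
  have lim3 : Tendsto (fun s : ℝ => G.g (c s) (J s) (J s) / s / s) (𝓝[>] 0)
      (𝓝 (G.g (c 0) (V 0) (V 0))) := by
    have hc0 : Tendsto c (𝓝[>] 0) (𝓝 (c 0)) :=
      ((dc 0).continuousAt.tendsto).mono_left nhdsWithin_le_nhds
    have hg : Tendsto (fun s => G.g (c s)) (𝓝[>] 0) (𝓝 (G.g (c 0))) :=
      (G.smooth.continuous.tendsto (c 0)).comp hc0
    have hcon : Continuous fun p : (E m →L[ℝ] E m →L[ℝ] ℝ) × E m => p.1 p.2 p.2 := by fun_prop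
    have h := (hcon.tendsto (G.g (c 0), V 0)).comp (hg.prodMk_nhds slopeJ)
    refine h.congr' ?_
    filter_upwards [self_mem_nhdsWithin] with r hr
    have hr' : (r : ℝ) ≠ 0 := ne_of_gt hr
    simp only [Function.comp_def, map_smul, smul_apply, smul_eq_mul]
    field_simp
  have p3 : ∀ s ∈ Ioc (0 : ℝ) 1,
      G.g (c 0) (V 0) (V 0) * s ≤ G.g (c s) (J s) (J s) / s := by
    intro s hs'
    refine hRAY (fun s => G.g (c s) (J s) (J s) / s)
      (fun s => (2 * G.g (c s) (J s) (D s) * s - G.g (c s) (J s) (J s) * 1) / s ^ 2)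
      (G.g (c 0) (V 0) (V 0)) ?_ ?_ lim3 s hs'
    · intro r hr
      exact (dJJ r (sub2 r hr)).div (hasDerivAt_id r) (ne_of_gt hr.1)
    · intro r hr
      have hr' : (r : ℝ) ≠ 0 := ne_of_gt hr.1
      have h2 := p2 r hr
      have h3 : r * ((2 * G.g (c r) (J r) (D r) * r - G.g (c r) (J r) (J r) * 1) / r ^ 2)
          - G.g (c r) (J r) (J r) / r
          = 2 * (r * G.g (c r) (J r) (D r) - G.g (c r) (J r) (J r)) / r := by
        field_simp
        ring
      have h4 : 0 ≤ 2 * (r * G.g (c r) (J r) (D r) - G.g (c r) (J r) (J r)) / r :=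
        div_nonneg (by linarith) hr.1.le
      linarith
  refine ⟨p1, ?_, ?_⟩
  · have h := p2 1 ⟨by norm_num, le_refl 1⟩
    simp only [one_mul] at h
    have : G.g (c 1) (J 1) (D 1) - G.g (c 1) (J 1) (J 1) ≥ 0 := h
    simp only [hD] at this
    linarith
  · have h := p3 1 ⟨by norm_num, le_refl 1⟩
    simpa using h

end Pool.Agent.Work.MP_a6f1bd_R
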