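import Pool.Agent.Work.MP_a6f1bd_R.Interface1

set_option autoImplicit false

/-!
# Block LEN: the length of a curve and its lift
-/

namespace Pool.Agent.Work.MP_a6f1bd_R

open Real Filter Topology Set
open scoped ContDiff

theorem r_LEN (hCSC : Stmt_CSC) : Stmt_LEN := by
  intro m G x c L hcd hLc hL
  obtain ⟨hCS, -, -, -, hcont, -, -, hnn⟩ := hCSC m G
  have hcont2 : Continuous (fun t => G.nrm (c t) (deriv c t)) :=
    hcont.comp (hcd.continuous.prodMk (hcd.continuous_deriv le_rfl))
  have hlen : 0 ≤ G.length c :=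
    intervalIntegral.integral_nonneg zero_le_one fun t _ => (hnn (c t) (deriv c t)).1
  have first : ∀ W, G.g x (L 1 - L 0) W ≤ G.nrm x W * G.length c := by
    intro W
    have hder : ∀ t ∈ Ioo (0 : ℝ) 1, ∃ d : ℝ, d ≤ 0 ∧
        HasDerivAt (fun t => (G.g x).flip W (L t)
          - G.nrm x W * ∫ r in (0 : ℝ)..t, G.nrm (c r) (deriv c r)) d t := by
      intro t ht
      obtain ⟨w, hw, hwn⟩ := hL t (Ioo_subset_Icc_self ht)
      have hw' : HasDerivAt L w t := hw.hasDerivAt (Icc_mem_nhds ht.1 ht.2)
      have h1 : HasDerivAt (fun t => (G.g x).flip W (L t)) ((G.g x).flip W w) t :=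
        ((G.g x).flip W).hasFDerivAt.comp_hasDerivAt t hw'
      have h2 : HasDerivAt (fun t => ∫ r in (0 : ℝ)..t, G.nrm (c r) (deriv c r))
          (G.nrm (c t) (deriv c t)) t := (hcont2.integral_hasStrictDerivAt 0 t).hasDerivAt
      refine ⟨_, ?_, h1.sub (h2.const_mul (G.nrm x W))⟩
      have h3 : G.g x w W ≤ G.nrm x w * G.nrm x W := (le_abs_self _).trans (hCS x w W)
      have h4 : G.nrm x w * G.nrm x W ≤ G.nrm (c t) (deriv c t) * G.nrm x W :=
        mul_le_mul_of_nonneg_right hwn (hnn x W).1
      have h5 : (G.g x).flip W w = G.g x w W := rfl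
      rw [h5]
      linarith [mul_comm (G.nrm x W) (G.nrm (c t) (deriv c t))]
    have hanti : AntitoneOn (fun t => (G.g x).flip W (L t)
          - G.nrm x W * ∫ r in (0 : ℝ)..t, G.nrm (c r) (deriv c r)) (Icc 0 1) := by
      apply antitoneOn_of_deriv_nonpos (convex_Icc 0 1)
      · apply ContinuousOn.sub
        · exact ((G.g x).flip W).continuous.comp_continuousOn hLc
        · exact continuousOn_const.mul
            (continuous_iff_continuousAt.2 fun t =>
              (hcont2.integral_hasStrictDerivAt 0 t).hasDerivAt.continuousAt).continuousOn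
      · intro t ht
        rw [interior_Icc] at ht
        obtain ⟨d, -, hd⟩ := hder t ht
        exact hd.differentiableAt.differentiableWithinAt
      · intro t ht
        rw [interior_Icc] at ht
        obtain ⟨d, hd0, hd⟩ := hder t ht
        rw [hd.deriv]
        exact hd0
    have h6 := hanti (left_mem_Icc.2 zero_le_one) (right_mem_Icc.2 zero_le_one) zero_le_one
    simp only [intervalIntegral.integral_same, mul_zero, sub_zero] at h6
    have h7 : G.g x (L 1 - L 0) W = (G.g x).flip W (L 1) - (G.g x).flip W (L 0) := by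
      rw [← map_sub]
      rfl
    rw [h7]
    have h8 : G.length c = ∫ r in (0 : ℝ)..1, G.nrm (c r) (deriv c r) := rfl
    rw [h8]
    linarith
  refine ⟨first, ?_⟩
  have h1 := first (L 1)
  have h2 : G.g x (L 1 - L 0) (L 1) = G.g x (L 1) (L 1) - G.g x (L 0) (L 1) := by
    rw [map_sub]
    rfl
  have h3 : G.g x (L 0) (L 1) ≤ G.nrm x (L 0) * G.nrm x (L 1) :=
    (le_abs_self _).trans (hCS x (L 0) (L 1))
  have h4 := hnn x (L 1)
  have h5 := hnn x (L 0)
  rcases h4.1.eq_or_lt with h0 | hpos
  · rw [← h0]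
    linarith [h5.1]
  · rw [h2, ← h4.2] at h1
    have h6 : G.nrm x (L 1) * G.nrm x (L 1) ≤ (G.nrm x (L 0) + G.length c) * G.nrm x (L 1) := by
      nlinarith
    exact le_of_mul_le_mul_right h6 hpos

end Pool.Agent.Work.MP_a6f1bd_R
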