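import Pool.Agent.Work.MP_a6f1bd_R.Interface1

set_option autoImplicit false

/-! # Block LFA: curves of bounded speed can be lifted -/

namespace Pool.Agent.Work.MP_a6f1bd_R

open Real Filter Topology Set
open scoped ContDiff NNReal

namespace X_LFA

/-- a lift on `Icc 0 b` exists -/
def P {m : ℕ} (f : E m → E m) (c : ℝ → E m) (v0 : E m) (b : ℝ) : Prop :=
  ∃ L : ℝ → E m, L 0 = v0 ∧ ContinuousOn L (Icc 0 b) ∧ ∀ t ∈ Icc (0 : ℝ) b, f (L t) = c t

theorem P.mono {m : ℕ} {f : E m → E m} {c : ℝ → E m} {v0 : E m} {b b' : ℝ} (h : P f c v0 b)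
    (hb : b' ≤ b) : P f c v0 b' := by
  obtain ⟨L, h1, h2, h3⟩ := h
  exact ⟨L, h1, h2.mono (Icc_subset_Icc_right hb), fun t ht => h3 t ⟨ht.1, ht.2.trans hb⟩⟩

/-- extension by a local inverse -/
theorem step {m : ℕ} {f : E m → E m} {c : ℝ → E m} {v0 : E m} (hf : IsLocalHomeomorph f)
    (hc : Continuous c) {x y : ℝ} (hx : 0 ≤ x) (hxy : x < y) (h : P f c v0 x) :
    ∃ b ∈ Ioc x y, P f c v0 b := by
  obtain ⟨L, h1, h2, h3⟩ := h
  obtain ⟨e, he1, he2⟩ := hf (L x)
  have hcx : c x = e (L x) := by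
    rw [← he2]
    exact (h3 x ⟨hx, le_rfl⟩).symm
  have htg : c x ∈ e.target := by
    rw [hcx]
    exact e.map_source he1
  have hnb : c ⁻¹' e.target ∈ 𝓝 x := hc.continuousAt.preimage_mem_nhds (e.open_target.mem_nhds htg)
  obtain ⟨ε, hε, hball⟩ := Metric.mem_nhds_iff.1 hnb
  have hb1 : x < min y (x + ε / 2) := lt_min hxy (by linarith only [hε])
  have hsub : ∀ t ∈ Icc x (min y (x + ε / 2)), c t ∈ e.target := by
    intro t ht
    apply hball
    rw [Metric.mem_ball, Real.dist_eq, abs_of_nonneg (by linarith only [ht.1])]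
    have := ht.2.trans (min_le_right _ _)
    linarith only [this, hε]
  have hinv : e.symm (c x) = L x := by
    rw [hcx]
    exact e.left_inv he1
  refine ⟨min y (x + ε / 2), ⟨hb1, min_le_left _ _⟩,
    fun t => if t ≤ x then L t else e.symm (c t), ?_, ?_, ?_⟩
  · show (if (0 : ℝ) ≤ x then L 0 else _) = v0
    rw [if_pos hx, h1]
  · rw [← Icc_union_Icc_eq_Icc hx hb1.le]
    refine ContinuousOn.union_of_isClosed ?_ ?_ isClosed_Icc isClosed_Icc
    · refine h2.congr fun t ht => ?_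
      show (if t ≤ x then L t else _) = L t
      rw [if_pos ht.2]
    · have h4 : ContinuousOn (fun t => e.symm (c t)) (Icc x (min y (x + ε / 2))) :=
        e.continuousOn_symm.comp hc.continuousOn hsub
      refine h4.congr fun t ht => ?_
      show (if t ≤ x then L t else e.symm (c t)) = e.symm (c t)
      by_cases htx : t ≤ x
      · have : t = x := le_antisymm htx ht.1
        rw [if_pos htx, this, hinv]
      · rw [if_neg htx]
  · intro t ht
    show f (if t ≤ x then L t else e.symm (c t)) = c t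
    by_cases htx : t ≤ x
    · rw [if_pos htx]
      exact h3 t ⟨ht.1, htx⟩
    · rw [if_neg htx, he2]
      exact e.right_inv (hsub t ⟨(not_le.1 htx).le, ht.2⟩)

end X_LFA

open X_LFA

theorem r_LFA (hLFU : Stmt_LFU) : Stmt_LFA := by
  intro m f D hf c C v0 hc hv0 hC
  obtain ⟨hloc, huniq, hder⟩ := hLFU m f D hf
  have hfc : Continuous f := continuous_iff_continuousAt.2 fun v => (hf v).continuousAt
  have hcc : Continuous c := hc.continuous
  -- `0 ≤ C`
  have hC0 : 0 ≤ C := by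
    have h1 := hC 0 ⟨le_rfl, zero_le_one⟩ v0 ((D v0).symm (deriv c 0)) hv0
      (ContinuousLinearEquiv.apply_symm_apply _ _)
    exact (norm_nonneg _).trans h1
  -- lifts are Lipschitz
  have hlip : ∀ b : ℝ, b ≤ 1 → ∀ L : ℝ → E m, ContinuousOn L (Icc 0 b) →
      (∀ t ∈ Icc (0 : ℝ) b, f (L t) = c t) → ∀ s ∈ Icc (0 : ℝ) b, ∀ t ∈ Icc (0 : ℝ) b,
      ‖L t - L s‖ ≤ C * ‖t - s‖ := by
    intro b hb L hL1 hL2 s hs t ht
    refine Convex.norm_image_sub_le_of_norm_hasDerivWithin_le
      (f' := fun t => (D (L t)).symm (deriv c t)) (s := Icc 0 b) (fun x hx =>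
        hder b c L hc hL1 hL2 x hx) (fun x hx => ?_) (convex_Icc _ _) hs ht
    exact hC x ⟨hx.1, hx.2.trans hb⟩ (L x) _ (hL2 x hx)
      (ContinuousLinearEquiv.apply_symm_apply _ _)
  -- closedness
  have hclosed : ∀ β : ℝ, 0 < β → β ≤ 1 → (∀ t, t < β → P f c v0 t) → P f c v0 β := by
    intro β hβ hβ1 hP
    choose! Lt hL0 hLc hLf using hP
    have hLip : LipschitzOnWith ⟨C, hC0⟩ (fun t => Lt t t) (Ico 0 β) := by
      rw [lipschitzOnWith_iff_dist_le_mul]
      have key : ∀ s t : ℝ, 0 ≤ s → s ≤ t → t < β → dist (Lt s s) (Lt t t) ≤ C * dist s t := by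
        intro s t hs hst ht
        have h1 : Lt s s = Lt t s := huniq s (Lt s) (Lt t) hs (hLc s (hst.trans_lt ht))
          ((hLc t ht).mono (Icc_subset_Icc_right hst)) (fun u hu => by
            rw [hLf s (hst.trans_lt ht) u hu, hLf t ht u ⟨hu.1, hu.2.trans hst⟩])
          (by rw [hL0 s (hst.trans_lt ht), hL0 t ht]) s ⟨hs, le_rfl⟩
        have h2 := hlip t (ht.le.trans hβ1) (Lt t) (hLc t ht) (hLf t ht) t ⟨hs.trans hst, le_rfl⟩ s
          ⟨hs, hst⟩
        rw [h1, dist_eq_norm, dist_eq_norm]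
        exact h2
      intro s hs t ht
      rcases le_total s t with h | h
      · exact key s t hs.1 h ht.2
      · rw [dist_comm, dist_comm s t]
        exact key t s ht.1 h hs.2
    obtain ⟨g, hg1, hg2⟩ := hLip.extend_finite_dimension
    have hgc : Continuous g := hg1.continuous
    refine ⟨g, ?_, hgc.continuousOn, ?_⟩
    · have h1 : Lt 0 0 = g 0 := hg2 ⟨le_rfl, hβ⟩
      rw [← h1, hL0 0 hβ]
    · have h1 : EqOn (fun t => f (g t)) c (Ico 0 β) := by
        intro t ht
        have h2 : Lt t t = g t := hg2 ht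
        show f (g t) = c t
        rw [← h2]
        exact hLf t ht.2 t ⟨ht.1, le_rfl⟩
      have h3 := h1.closure (hfc.comp hgc) hcc
      rw [closure_Ico hβ.ne] at h3
      exact fun t ht => h3 ht
  have h0 : P f c v0 0 := by
    refine ⟨fun _ => v0, rfl, continuousOn_const, fun t ht => ?_⟩
    have : t = 0 := le_antisymm ht.2 ht.1
    rw [this]
    exact hv0
  have hall : Icc (0 : ℝ) 1 ⊆ {b | P f c v0 b} := by
    refine IsClosed.Icc_subset_of_forall_exists_gt ?_ h0 ?_
    · rw [← closure_subset_iff_isClosed]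
      intro β hβ
      have hβI : β ∈ Icc (0 : ℝ) 1 :=
        closure_minimal inter_subset_right isClosed_Icc hβ
      refine ⟨?_, hβI⟩
      rcases hβI.1.eq_or_lt with h | h
      · rw [← h]
        exact h0
      · refine hclosed β h hβI.2 fun t ht => ?_
        obtain ⟨b, hb1, hb2⟩ := mem_closure_iff.1 hβ (Ioi t) isOpen_Ioi ht
        exact P.mono hb2.1 (le_of_lt hb1)
    · intro x hx y hy
      obtain ⟨b, hb, hP⟩ := step hloc hcc hx.2.1 hy hx.1
      exact ⟨b, hP, hb⟩
  exact hall ⟨zero_le_one, le_rfl⟩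

end Pool.Agent.Work.MP_a6f1bd_R
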