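import Pool.Agent.Work.MP_a6f1bd_R.Interface1

set_option autoImplicit false

/-!
# Block LFT: lifts of curves by the exponential map
-/

namespace Pool.Agent.Work.MP_a6f1bd_R

open Real Filter Topology Set
open scoped ContDiff

theorem r_LFT (hEXD : Stmt_EXD) (hCSC : Stmt_CSC) (hLFU : Stmt_LFU) (hLFA : Stmt_LFA) :
    Stmt_LFT := by
  intro m G hc hN x v0 c hcd h0
  choose D P hD hP h1 h2 h3 h4 using hEXD m G hc hN x
  have hLD : IsLD (G.ex hc x) D := hD
  obtain ⟨-, -, -, hκ, hcont, -, -, hnn⟩ := hCSC m G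
  obtain ⟨κ, hκ0, hκ⟩ := hκ x
  have hcont2 : Continuous (fun t => G.nrm (c t) (deriv c t)) :=
    hcont.comp (hcd.continuous.prodMk (hcd.continuous_deriv le_rfl))
  obtain ⟨M, hM⟩ := (isCompact_Icc (a := (0 : ℝ)) (b := 1)).bddAbove_image hcont2.continuousOn
  have key : ∀ (t : ℝ) (v w : E m), G.ex hc x v = c t → D v w = deriv c t →
      G.nrm x w ≤ G.nrm (c t) (deriv c t) := by
    intro t v w hv hw
    have h := h1 v w
    rw [hv, hw] at h
    exact Real.sqrt_le_sqrt h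
  obtain ⟨L, hL0, hLc, hL⟩ := hLFA m (G.ex hc x) D hLD c (κ * M) v0 hcd h0 (by
    intro t ht v w hv hw
    have h5 := key t v w hv hw
    have h6 : G.nrm (c t) (deriv c t) ≤ M := hM (mem_image_of_mem _ ht)
    calc ‖w‖ ≤ κ * G.nrm x w := hκ w
      _ ≤ κ * M := mul_le_mul_of_nonneg_left (h5.trans h6) hκ0.le)
  refine ⟨L, hL0, hLc, fun t ht => ⟨hL t ht, (D (L t)).symm (deriv c t),
    (hLFU m (G.ex hc x) D hLD).2.2 1 c L hcd hLc hL t ht, ?_⟩⟩
  exact key t (L t) _ (hL t ht) ((D (L t)).apply_symm_apply _)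

end Pool.Agent.Work.MP_a6f1bd_R
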