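import Pool.Agent.Work.MP_a6f1bd_R.Interface1

set_option autoImplicit false

/-! # Block LFU: uniqueness and derivative of lifts -/

namespace Pool.Agent.Work.MP_a6f1bd_R

open Real Filter Topology Set
open scoped ContDiff

theorem r_LFU : Stmt_LFU := by
  intro m f D hfD
  have hloc : IsLocalHomeomorph f := by
    refine IsLocalHomeomorph.mk f fun x => ?_
    exact ⟨(hfD x).toOpenPartialHomeomorph f, (hfD x).mem_toOpenPartialHomeomorph_source,
      fun _ _ => rfl⟩
  refine ⟨hloc, ?_, ?_⟩
  · intro b L L1 hb hL hL1 heq h0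
    have hsep : IsSeparatedMap f := T2Space.isSeparatedMap f
    have h := hsep.eqOn_of_comp_eqOn hloc.isLocallyInjective (isPreconnected_Icc (a := (0 : ℝ))
      (b := b)) hL hL1 (fun t ht => heq t ht) (left_mem_Icc.2 hb) h0
    exact fun t ht => h ht
  · intro b c L hc hL hfL t ht
    have hs := hfD (L t)
    have h1 : HasStrictFDerivAt (hs.localInverse f (D (L t)) (L t))
      ((D (L t)).symm : E m →L[ℝ] E m) (c t) := by
      have h := hs.to_localInverse
      rwa [hfL t ht] at h
    have h2 : HasDerivAt c (deriv c t) t :=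
      (hc.differentiable (by norm_num) t).hasDerivAt
    have h3 : HasDerivWithinAt (fun s => hs.localInverse f (D (L t)) (L t) (c s))
      ((D (L t)).symm (deriv c t)) (Icc 0 b) t :=
      (h1.hasFDerivAt.comp_hasDerivAt t h2).hasDerivWithinAt
    have h4 : ∀ᶠ s in 𝓝[Icc 0 b] t, L s = hs.localInverse f (D (L t)) (L t) (c s) := by
      have h5 : Tendsto L (𝓝[Icc 0 b] t) (𝓝 (L t)) := hL t ht
      have h6 := h5.eventually hs.eventually_left_inverse
      filter_upwards [h6, self_mem_nhdsWithin] with s hs1 hs2
      rw [← hfL s hs2]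
      exact hs1.symm
    exact h3.congr_of_eventuallyEq h4 (by rw [← hfL t ht, hs.localInverse_apply_image])

end Pool.Agent.Work.MP_a6f1bd_R
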