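import Pool.Agent.Work.MP_a6f1bd_R.Interface1

set_option autoImplicit false

/-! # Block LPF -/

namespace Pool.Agent.Work.MP_a6f1bd_R

open Real Filter Topology Set
open scoped ContDiff NNReal

namespace X_LPF

theorem gron {V : Type} [NormedAddCommGroup V] [NormedSpace ℝ V] {F : V → V} {Φ : ℝ → V → V}
    (hΦ : IsFlow F Φ) {B : Set V} {L : ℝ≥0} (hL : LipschitzOnWith L F B) {x y : V} {τ : ℝ}
    (hx : ∀ t ∈ Ico (0 : ℝ) τ, Φ t x ∈ B) (hy : ∀ t ∈ Ico (0 : ℝ) τ, Φ t y ∈ B) :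
    ∀ t ∈ Icc (0 : ℝ) τ, ‖Φ t x - Φ t y‖ ≤ ‖x - y‖ * exp (L * t) := by
  intro t ht
  have hd := hΦ.2
  have h := dist_le_of_trajectories_ODE_of_mem (v := fun _ => F) (s := fun _ => B) (K := L)
    (f := fun t => Φ t x) (g := fun t => Φ t y) (a := 0) (b := τ) (δ := ‖x - y‖)
    (fun t _ => hL) (fun t _ => (hd x t).continuousAt.continuousWithinAt)
    (fun t _ => (hd x t).hasDerivWithinAt) hx
    (fun t _ => (hd y t).continuousAt.continuousWithinAt)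
    (fun t _ => (hd y t).hasDerivWithinAt) hy (by rw [hΦ.1, hΦ.1, dist_eq_norm]) t ht
  rw [dist_eq_norm, sub_zero] at h
  exact h

end X_LPF

theorem r_LPF : Stmt_LPF := by
  intro V _ _ _ F Φ hF hΦ x0
  have hd := hΦ.2
  have hc : ∀ x, Continuous fun t => Φ t x := fun x =>
    continuous_iff_continuousAt.2 fun t => (hd x t).continuousAt
  obtain ⟨R, hR⟩ := (isCompact_Icc (a := (0 : ℝ)) (b := 1)).exists_bound_of_continuousOn
    (hc x0).continuousOn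
  have hfd : Continuous (fderiv ℝ F) := hF.continuous_fderiv (by norm_num)
  obtain ⟨C, hC⟩ := (isCompact_closedBall (0 : V) (R + 1)).exists_bound_of_continuousOn
    hfd.continuousOn
  set L : ℝ≥0 := Real.toNNReal C with hLdef
  have hLip : LipschitzOnWith L F (Metric.closedBall (0 : V) (R + 1)) := by
    refine Convex.lipschitzOnWith_of_nnnorm_fderiv_le (𝕜 := ℝ)
      (fun z _ => (hF.differentiable (by norm_num)) z) (fun z hz => ?_)
      (convex_closedBall _ _)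
    rw [← NNReal.coe_le_coe, coe_nnnorm]
    exact (hC z hz).trans (Real.le_coe_toNNReal C)
  have hL0 : (0 : ℝ) ≤ L := L.2
  have hδ : 0 < exp (-L) / 2 := by positivity
  have hδL : exp (-L) / 2 * exp L = 1 / 2 := by
    rw [div_mul_eq_mul_div, ← Real.exp_add, neg_add_cancel, Real.exp_zero]
  have hδ2 : exp (-L) / 2 ≤ 1 / 2 := by
    have : exp (-(L : ℝ)) ≤ 1 := Real.exp_le_one_iff.2 (by linarith)
    linarith
  have h0B : ∀ t ∈ Icc (0 : ℝ) 1, Φ t x0 ∈ Metric.closedBall (0 : V) (R + 1) := by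
    intro t ht
    rw [mem_closedBall_zero_iff]
    linarith [hR t ht]
  have hB : ∀ x t, t ∈ Icc (0 : ℝ) 1 → ‖Φ t x - Φ t x0‖ < 1 →
      Φ t x ∈ Metric.closedBall (0 : V) (R + 1) := by
    intro x t ht h
    rw [mem_closedBall_zero_iff]
    have h1 := hR t ht
    have h2 : ‖Φ t x‖ ≤ ‖Φ t x - Φ t x0‖ + ‖Φ t x0‖ := by
      simpa using norm_add_le (Φ t x - Φ t x0) (Φ t x0)
    linarith
  have claim : ∀ x ∈ Metric.ball x0 (exp (-L) / 2), ∀ t ∈ Icc (0 : ℝ) 1,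
      ‖Φ t x - Φ t x0‖ < 1 := by
    intro x hx
    rw [Metric.mem_ball, dist_eq_norm] at hx
    by_contra hcon
    push Not at hcon
    obtain ⟨t1, ht1, h1⟩ := hcon
    have hcl : IsClosed {t : ℝ | 1 ≤ ‖Φ t x - Φ t x0‖} :=
      isClosed_le continuous_const (((hc x).sub (hc x0)).norm)
    obtain ⟨τ, ⟨hτ, hτ1⟩, hmin⟩ := (isCompact_Icc.inter_right hcl).exists_isLeast ⟨t1, ht1, h1⟩
    have hlt : ∀ t ∈ Ico (0 : ℝ) τ, ‖Φ t x - Φ t x0‖ < 1 := by
      intro t ht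
      by_contra h2
      push Not at h2
      exact absurd (hmin ⟨⟨ht.1, ht.2.le.trans hτ.2⟩, h2⟩) (not_le.2 ht.2)
    have h3 := X_LPF.gron hΦ hLip (x := x) (y := x0) (τ := τ)
      (fun t ht => hB x t ⟨ht.1, ht.2.le.trans hτ.2⟩ (hlt t ht))
      (fun t ht => h0B t ⟨ht.1, ht.2.le.trans hτ.2⟩) τ ⟨hτ.1, le_rfl⟩
    have h4 : exp (L * τ) ≤ exp L := Real.exp_le_exp.2 (by
      have := mul_le_mul_of_nonneg_left hτ.2 hL0
      linarith)
    have h5 : ‖x - x0‖ * exp (L * τ) ≤ exp (-L) / 2 * exp L :=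
      mul_le_mul hx.le h4 (Real.exp_pos _).le hδ.le
    have h6 : (1 : ℝ) ≤ ‖Φ τ x - Φ τ x0‖ := hτ1
    linarith
  refine ⟨exp (-L) / 2, exp L, hδ, (Real.exp_pos _).le, ?_⟩
  intro x hx y hy t ht
  have h3 := X_LPF.gron hΦ hLip (x := x) (y := y) (τ := 1)
    (fun t ht => hB x t ⟨ht.1, ht.2.le⟩ (claim x hx t ⟨ht.1, ht.2.le⟩))
    (fun t ht => hB y t ⟨ht.1, ht.2.le⟩ (claim y hy t ⟨ht.1, ht.2.le⟩)) t ht
  have h4 : exp (L * t) ≤ exp L := Real.exp_le_exp.2 (by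
    have := mul_le_mul_of_nonneg_left ht.2 hL0
    linarith)
  calc ‖Φ t x - Φ t y‖ ≤ ‖x - y‖ * exp (L * t) := h3
    _ ≤ ‖x - y‖ * exp L := mul_le_mul_of_nonneg_left h4 (norm_nonneg _)
    _ = exp L * ‖x - y‖ := mul_comm _ _

end Pool.Agent.Work.MP_a6f1bd_R
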