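import Pool.Agent.Work.MP_a6f1bd_R.Interface1

set_option autoImplicit false

/-!
# Riemannian metrics on `ℝ^m`, block MIN: geodesics minimise the length
-/

namespace Pool.Agent.Work.MP_a6f1bd_R

open Real Filter Topology Set
open scoped ContDiff

theorem r_MIN (hCSC : Stmt_CSC) (hGEO : Stmt_GEO) (hINJ : Stmt_INJ) (hDIS : Stmt_DIS) :
    Stmt_MIN := by
  intro m G hc hN c hgeo a b
  obtain ⟨-, -, h3, -, -, -, -, -⟩ := hCSC m G
  obtain ⟨-, -, g3, -, g5⟩ := hGEO m G
  obtain ⟨-, i2, -⟩ := hINJ m G hc hN (c a)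
  obtain ⟨-, d2, -⟩ := hDIS m G hc hN
  have h : G.lo hc (c a) (c b) = (b - a) • deriv c a := by
    have e : G.ex hc (c a) ((b - a) • deriv c a) = c b := by
      unfold RMetric.ex
      rw [g3 hc c (b - a) a hgeo 1]
      congr 1
      ring
    rw [← i2 ((b - a) • deriv c a), e]
  refine ⟨h, ?_⟩
  rw [d2, h, h3, abs_sub_comm, g5 c hgeo a 0]

end Pool.Agent.Work.MP_a6f1bd_R
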