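import Pool.Agent.Work.MP_a6f1bd_R.Interface2

set_option autoImplicit false

/-! # Block MSP: the metric space `(ℝ^m, rdist)` (helper67) -/

namespace Pool.Agent.Work.MP_a6f1bd_R

open Real Filter Topology Set
open scoped ContDiff
open Pool.Agent.Work.MP_a6f1bd_gt

theorem r_MSP (hDIS : Stmt_DIS) (hCPL : Stmt_CPL) (hSGM : Stmt_SGM) (hMIN : Stmt_MIN)
    (hNPB : Stmt_NPB) (hCGB : Stmt_CGB) : Stmt_MSP := by
  intro m G hc hn
  obtain ⟨-, -, htri, hsymm, hself, heq, hnn, -⟩ := hDIS m G hc hn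
  have h : G.DAx := ⟨hself, hsymm, htri, heq⟩
  refine ⟨h, ?_, ?_, ?_, ?_⟩
  · letI : MetricSpace (Pt m) := G.msp h
    refine Metric.complete_of_cauchySeq_tendsto fun u hu => ?_
    obtain ⟨x, hx⟩ := hCPL m G hc hn u (fun ε hε => by
      obtain ⟨N, hN⟩ := Metric.cauchySeq_iff.1 hu ε hε
      exact ⟨N, fun i hi j hj => hN i hi j hj⟩)
    exact ⟨x, tendsto_iff_dist_tendsto_zero.2 hx⟩
  · letI : MetricSpace (Pt m) := G.msp h
    intro p q
    by_cases hpq : p = q
    · subst hpq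
      refine ⟨fun _ => p, rfl, rfl, ?_⟩
      intro s hs t ht
      have h0 : dist p p = 0 := dist_self p
      have hs0 : s = 0 := le_antisymm (hs.2.trans h0.le) hs.1
      have ht0 : t = 0 := le_antisymm (ht.2.trans h0.le) ht.1
      rw [hs0, ht0, sub_self, abs_zero]
      exact h0
    · obtain ⟨c, ⟨hg, hu⟩, h0, h1, -⟩ := hSGM m G hc hn p q hpq
      refine ⟨c, h0, h1, ?_⟩
      intro s hs t ht
      have h2 := (hMIN m G hc hn c hg s t).2
      rw [hu, mul_one] at h2
      exact h2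
  · exact fun y p z q hb => hNPB m G hc hn y p z q hb
  · exact fun hge y p z q hb => hCGB m G hc hn hge y p z q hb

end Pool.Agent.Work.MP_a6f1bd_R
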