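import Pool.Agent.Work.MP_a6f1bd_R.Interface2

set_option autoImplicit false

/-! # Block NPB: nonpositive curvature -/

namespace Pool.Agent.Work.MP_a6f1bd_R

open Real Filter Topology Set
open scoped ContDiff
open Pool.Agent.Work.MP_a6f1bd_gt

theorem r_NPB (hBTG : Stmt_BTG) (hSTW : Stmt_STW) (hDIS : Stmt_DIS) : Stmt_NPB := by
  intro m G hc hN y p z q h
  obtain ⟨-, -, -, hsym, hself, heq, hnn, -⟩ := hDIS m G hc hN
  by_cases hyz : y = z
  · subst hyz
    rw [hself y, hsym p y] at h
    have h0 := hnn y p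
    have h1 : G.rdist y p = 0 := by linarith
    have h2 : G.rdist p y = 0 := by rw [hsym, h1]
    rw [hself y, h1, h2]
    simp
  · obtain ⟨c, hU, hc0, hcp, hcz⟩ := hBTG m G hc hN y p z hyz h
    have h1 := hSTW m G hc hN q c hU (G.rdist y p) (G.rdist y z) (hnn y p)
      (by have := hnn p z; linarith)
    rw [hc0, hcp, hcz] at h1
    have h2 : G.rdist y z - G.rdist y p = G.rdist p z := by linarith
    rw [h2] at h1
    exact h1

end Pool.Agent.Work.MP_a6f1bd_R
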