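import Pool.Agent.Work.MP_a6f1bd_R.Interface2

set_option autoImplicit false

namespace Pool.Agent.Work.MP_a6f1bd_R

open Real Filter Topology Set
open scoped ContDiff

theorem r_PAR (hLIN : Stmt_LIN) (hGAM : Stmt_GAM) : Stmt_PAR := by
  intro m G c hc a
  obtain ⟨B, hB, hG, -, -⟩ := hGAM m G
  have hc0 : Continuous c := continuous_iff_continuousAt.2 fun t => (hc t).1.continuousAt
  have hc1 : Continuous (deriv c) := continuous_iff_continuousAt.2 fun t => (hc t).2.continuousAt
  have hA : Continuous fun s => -(B (c s) (deriv c s)) :=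
    ((hB.continuous.comp hc0).clm_apply hc1).neg
  obtain ⟨P, hP1, hP⟩ := hLIN (E m) (fun s => -(B (c s) (deriv c s))) hA 1
    ⟨by norm_num, by norm_num⟩ a
  refine ⟨P, hP1, fun s hs => ?_⟩
  have h := hP s hs
  rw [hG]
  exact h

end Pool.Agent.Work.MP_a6f1bd_R
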