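import Pool.Agent.Work.MP_a6f1bd_R.Interface1

set_option autoImplicit false

/-! # Block RAY: a lemma on real functions -/

namespace Pool.Agent.Work.MP_a6f1bd_R

open Real Filter Topology Set
open scoped ContDiff

theorem r_RAY : Stmt_RAY := by
  intro k k' L hk hkk hlim s hs
  have hq : ∀ x ∈ Ioc (0 : ℝ) 1,
      HasDerivAt (fun r => k r / r) ((k' x * x - k x * 1) / x ^ 2) x := fun x hx =>
    (hk x hx).div (hasDerivAt_id x) hx.1.ne'
  have hmono : ∀ ε ∈ Ioc (0 : ℝ) s, k ε / ε ≤ k s / s := by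
    intro ε hε
    have hsub : ∀ x ∈ Icc ε s, x ∈ Ioc (0 : ℝ) 1 := fun x hx =>
      ⟨lt_of_lt_of_le hε.1 hx.1, hx.2.trans hs.2⟩
    have hm : MonotoneOn (fun r => k r / r) (Icc ε s) := by
      refine monotoneOn_of_deriv_nonneg (convex_Icc ε s) ?_ ?_ ?_
      · exact fun x hx => (hq x (hsub x hx)).continuousAt.continuousWithinAt
      · exact fun x hx =>
          (hq x (hsub x (interior_subset hx))).differentiableAt.differentiableWithinAt
      · intro x hx
        have hx' := hsub x (interior_subset hx)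
        rw [(hq x hx').deriv]
        have h1 := hkk x hx'
        refine div_nonneg ?_ (sq_nonneg x)
        linarith
    exact hm ⟨le_refl _, hε.2⟩ ⟨hε.2, le_refl _⟩ hε.2
  have hle : L ≤ k s / s := by
    refine le_of_tendsto hlim ?_
    have : Ioc (0 : ℝ) s ∈ 𝓝[>] (0 : ℝ) := Ioc_mem_nhdsGT hs.1
    exact Filter.eventually_of_mem this hmono
  rwa [le_div_iff₀ hs.1] at hle

end Pool.Agent.Work.MP_a6f1bd_R
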