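import Pool.Agent.Work.MP_a6f1bd_R.Interface1

set_option autoImplicit false

namespace Pool.Agent.Work.MP_a6f1bd_R

open Real Filter Topology Set
open scoped ContDiff

namespace X_RLN

section gen

variable {V : Type} [NormedAddCommGroup V] [NormedSpace ℝ V]

/-- `u v w ↦ L u (L v w)` -/
noncomputable def tri (L : V →L[ℝ] V →L[ℝ] V) : V →L[ℝ] V →L[ℝ] V →L[ℝ] V :=
  ((ContinuousLinearMap.compL ℝ V (V →L[ℝ] V) (V →L[ℝ] V)).flip L).comp
    ((ContinuousLinearMap.compL ℝ V V V).comp L)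

theorem tri_apply (L : V →L[ℝ] V →L[ℝ] V) (u v w : V) : tri L u v w = L u (L v w) := rfl

/-- the trilinear map of the formula -/
noncomputable def quad (D : V →L[ℝ] V →L[ℝ] V →L[ℝ] V) (L : V →L[ℝ] V →L[ℝ] V) :
    V →L[ℝ] V →L[ℝ] V →L[ℝ] V :=
  D - D.flip + tri L - (tri L).flip

theorem quad_apply (D : V →L[ℝ] V →L[ℝ] V →L[ℝ] V) (L : V →L[ℝ] V →L[ℝ] V)
    (u v w : V) : quad D L u v w = D u v w - D v u w + L u (L v w) - L v (L u w) := rfl

theorem fd (B : V → V →L[ℝ] V →L[ℝ] V) (hB : ContDiff ℝ ∞ B) (x u v w : V) :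
    fderiv ℝ (fun y => B y v w) x u = fderiv ℝ B x u v w := by
  have hd : DifferentiableAt ℝ B x := (hB.differentiable (by simp)).differentiableAt
  have h3 := (hd.hasFDerivAt.clm_apply (hasFDerivAt_const v x)).clm_apply (hasFDerivAt_const w x)
  rw [h3.fderiv]
  simp

end gen

end X_RLN

theorem r_RLN : Stmt_RLN := by
  intro m G B hB hG
  have h1 : ∀ x u v w, G.Rm x u v w =
      fderiv ℝ B x u v w - fderiv ℝ B x v u w + B x u (B x v w) - B x v (B x u w) := by
    intro x u v w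
    have e : ∀ a b : E m, (fun y => G.Gam y a b) = fun y => B y a b := fun a b =>
      funext fun y => hG y a b
    unfold RMetric.Rm
    rw [e, e, X_RLN.fd B hB, X_RLN.fd B hB, hG, hG, hG, hG]
  exact ⟨h1, fun x => X_RLN.quad (fderiv ℝ B x) (B x), fun x u v w => by
    rw [h1]; exact (X_RLN.quad_apply (fderiv ℝ B x) (B x) u v w).symm⟩

end Pool.Agent.Work.MP_a6f1bd_R
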