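import Pool.Agent.Work.MP_a6f1bd_R.Interface1

set_option autoImplicit false

/-! # Block SEC (MP_a6f1bd, project Riemann): the curvature bounds in polynomial form -/

namespace Pool.Agent.Work.MP_a6f1bd_R

open Real Filter Topology Set
open scoped ContDiff

namespace X_SEC

variable {m : ℕ} (G : RMetric m)

lemma pos_gram (x u v : E m) (h : LinearIndependent ℝ ![u, v]) :
    0 < G.g x u u * G.g x v v - G.g x u v ^ 2 := by
  rw [LinearIndependent.pair_iff] at h
  have hv : v ≠ 0 := by
    intro hv
    have := h 0 1 (by rw [hv]; simp)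
    exact one_ne_zero this.2
  have hb := G.pos x v hv
  have hz : G.g x v v • u - G.g x u v • v ≠ 0 := by
    intro hz
    have := h (G.g x v v) (-G.g x u v) (by rw [neg_smul, ← sub_eq_add_neg]; exact hz)
    exact hb.ne' this.1
  have h1 := G.pos x _ hz
  simp only [map_sub, map_smul, sub_apply, smul_apply,
    smul_eq_mul] at h1
  rw [G.symm x v u] at h1
  have h2 : 0 < G.g x v v * (G.g x u u * G.g x v v - G.g x u v ^ 2) := by
    have h3 : G.g x v v * (G.g x u u * G.g x v v - G.g x u v ^ 2) =
        G.g x v v * (G.g x v v * G.g x u u - G.g x u v * G.g x u v) -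
          G.g x u v * (G.g x v v * G.g x u v - G.g x u v * G.g x v v) := by ring
    rw [h3]
    convert h1 using 1
  exact (mul_pos_iff_of_pos_left hb).1 h2

end X_SEC

open X_SEC in
theorem r_SEC (_hGAM : Stmt_GAM) (hRLN : Stmt_RLN) (hSYR : Stmt_SYR) : Stmt_SEC := by
  intro m G
  obtain ⟨B, hB, hG, hk, hs⟩ := _hGAM m G
  obtain ⟨-, Q, hQ⟩ := hRLN m G B hB hG
  have hzero : ∀ x v w z, G.g x (G.Rm x v v w) z = 0 := by
    intro x v w z
    have h := (hSYR m G x v v w z).1
    linarith
  -- the dependent case
  have dep : ∀ x u v, ¬ LinearIndependent ℝ ![u, v] →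
      G.g x (G.Rm x u v v) u = 0 ∧ G.g x u u * G.g x v v - G.g x u v ^ 2 = 0 := by
    intro x u v h
    rw [LinearIndependent.pair_iff] at h
    push Not at h
    obtain ⟨s, t, hst, hne⟩ := h
    have hcase : (∃ a : ℝ, u = a • v) ∨ ∃ a : ℝ, v = a • u := by
      by_cases hs0 : s = 0
      · right
        have ht : t ≠ 0 := hne hs0
        refine ⟨0, ?_⟩
        rw [hs0, zero_smul, zero_add] at hst
        rw [zero_smul]
        exact (smul_eq_zero.1 hst).resolve_left ht
      · left
        refine ⟨-(t / s), ?_⟩
        have h1 : s • u = -(t • v) := eq_neg_of_add_eq_zero_left hst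
        have h2 : u = s⁻¹ • (s • u) := by rw [smul_smul, inv_mul_cancel₀ hs0, one_smul]
        rw [h2, h1, smul_neg, smul_smul, neg_smul]
        congr 2
        field_simp
    rcases hcase with ⟨a, rfl⟩ | ⟨a, rfl⟩
    · have h0 := hzero x v v (a • v)
      rw [hQ] at h0 ⊢
      constructor
      · rw [map_smul (Q x), smul_apply, smul_apply,
          map_smul (G.g x), smul_apply, h0, smul_zero]
      · simp only [map_smul, smul_apply, smul_eq_mul]
        ring
    · have h0 := hzero x u (a • u) u
      rw [hQ] at h0 ⊢
      constructor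
      · rw [map_smul (Q x u), smul_apply,
          map_smul (G.g x), smul_apply, h0, smul_zero]
      · simp only [map_smul, smul_apply, smul_eq_mul]
        ring
  refine ⟨?_, ?_⟩
  · intro h x u v
    by_cases hi : LinearIndependent ℝ ![u, v]
    · have h1 := h x u v hi
      have h2 := pos_gram G x u v hi
      unfold RMetric.sec at h1
      by_contra hcon
      push Not at hcon
      exact absurd h1 (not_le.2 (div_pos hcon h2))
    · exact (dep x u v hi).1.le
  · intro h x u v
    by_cases hi : LinearIndependent ℝ ![u, v]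
    · have h1 := h x u v hi
      have h2 := pos_gram G x u v hi
      unfold RMetric.sec at h1
      rw [le_div_iff₀ h2] at h1
      linarith
    · obtain ⟨h1, h2⟩ := dep x u v hi
      rw [h1, h2, neg_zero]

end Pool.Agent.Work.MP_a6f1bd_R
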