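import Pool.Agent.Work.MP_a6f1bd_R.Interface2

set_option autoImplicit false

/-! # Block SGB: geodesic segments are metric segments -/

namespace Pool.Agent.Work.MP_a6f1bd_R

open Real Filter Topology Set
open scoped ContDiff

theorem r_SGB (hMIN : Stmt_MIN) (hBTG : Stmt_BTG) (hDIS : Stmt_DIS) (hGEO : Stmt_GEO) :
    Stmt_SGB := by
  intro m G hc hN p q
  obtain ⟨-, g2, -, g4, -⟩ := hGEO m G
  obtain ⟨-, -, -, dsymm, dself, dzero, dnn, -⟩ := hDIS m G hc hN
  ext x
  constructor
  · rintro ⟨c, hcg, hc0, hc1, s, hs, rfl⟩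
    have h := (hMIN m G hc hN c hcg)
    have h1 := (h 0 s).2
    have h2 := (h s 1).2
    have h3 := (h 0 1).2
    rw [hc0] at h1 h2 h3
    rw [hc1] at h2 h3
    change G.rdist p (c s) + G.rdist (c s) q = G.rdist p q
    rw [h1, h2, h3, zero_sub, abs_neg, abs_of_nonneg hs.1,
      abs_of_nonpos (by linarith [hs.2] : s - 1 ≤ 0), zero_sub, abs_neg, abs_one]
    ring
  · intro hx
    change G.rdist p x + G.rdist x q = G.rdist p q at hx
    by_cases hpq : p = q
    · subst hpq
      rw [dself] at hx
      have h1 : G.rdist p x = 0 := by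
        have h2 := dnn p x
        have h3 := dnn x p
        linarith
      have h2 := dzero _ _ h1
      subst h2
      have h0 : ∀ r, G.gd hc p 0 r = p := by
        intro r
        have h3 := g4 hc p 0 0 r
        rw [smul_zero, zero_mul, G.gd_zero] at h3
        exact h3
      exact ⟨G.gd hc p 0, G.gd_geo hc _ _, h0 0, h0 1, 0, ⟨le_refl _, zero_le_one⟩, h0 0⟩
    · obtain ⟨c₁, hU, h0, hx1, hL⟩ := hBTG m G hc hN p x q hpq hx
      have hLpos : 0 < G.rdist p q := by
        rcases (dnn p q).lt_or_eq with h | h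
        · exact h
        · exact absurd (dzero _ _ h.symm) hpq
      have hle : G.rdist p x ≤ G.rdist p q := by
        have := dnn x q
        linarith
      refine ⟨fun r => c₁ (G.rdist p q * r + 0), (g2 c₁ (G.rdist p q) 0 hU.1).1, ?_, ?_,
        G.rdist p x / G.rdist p q, ⟨div_nonneg (dnn _ _) hLpos.le, (div_le_one hLpos).2 hle⟩, ?_⟩
      · change c₁ (G.rdist p q * 0 + 0) = p
        rw [mul_zero, zero_add, h0]
      · change c₁ (G.rdist p q * 1 + 0) = q
        rw [mul_one, add_zero, hL]
      · change c₁ (G.rdist p q * (G.rdist p x / G.rdist p q) + 0) = x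
        rw [mul_div_cancel₀ _ hLpos.ne', add_zero, hx1]

end Pool.Agent.Work.MP_a6f1bd_R
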