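import Pool.Agent.Work.MP_a6f1bd_R.Interface2

set_option autoImplicit false
set_option maxSynthPendingDepth 3

/-!
# Riemannian metrics on `ℝ^m`, block SGM: the unit speed geodesic between two points
-/

namespace Pool.Agent.Work.MP_a6f1bd_R

open Real Filter Topology Set
open scoped ContDiff

theorem r_SGM (hCSC : Stmt_CSC) (hGEO : Stmt_GEO) (hINJ : Stmt_INJ) (hDIS : Stmt_DIS)
    (hMIN : Stmt_MIN) : Stmt_SGM := by
  intro m G hc hN p q hpq
  obtain ⟨-, -, h3, -, -, -, -, -⟩ := hCSC m G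
  obtain ⟨g1, -, -, g4, -⟩ := hGEO m G
  obtain ⟨i1, -, -⟩ := hINJ m G hc hN p
  obtain ⟨-, d2, -, -, -, d6, d7, -⟩ := hDIS m G hc hN
  have hL : 0 < G.rdist p q :=
    lt_of_le_of_ne (d7 p q) (fun h => hpq (d6 p q h.symm))
  set L : ℝ := G.rdist p q with hLdef
  set v : E m := G.lo hc p q with hv
  have hnv : G.nrm p v = L := (d2 p q).symm
  have hLu : L • (L⁻¹ • v) = v := smul_inv_smul₀ hL.ne' v
  have hnu : G.nrm p (L⁻¹ • v) = 1 := by
    rw [h3, hnv, abs_of_pos (inv_pos.mpr hL)]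
    exact inv_mul_cancel₀ hL.ne'
  have hcL : G.gd hc p (L⁻¹ • v) L = q := by
    have e := g4 hc p (L⁻¹ • v) L 1
    rw [hLu, mul_one] at e
    rw [← e]
    exact i1 q
  refine ⟨G.gd hc p (L⁻¹ • v), ⟨G.gd_geo hc p _, ?_⟩, G.gd_zero hc p _, hcL, ?_⟩
  · rw [G.gd_zero, G.gd_deriv_zero]
    exact hnu
  · intro c₂ hU h0 hq
    have hm := (hMIN m G hc hN c₂ hU.1 0 L).1
    rw [h0, hq, sub_zero] at hm
    have hd : deriv c₂ 0 = L⁻¹ • v := by
      have hm' : v = L • deriv c₂ 0 := hm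
      rw [hm', inv_smul_smul₀ hL.ne']
    apply g1 c₂ _ 0 hU.1 (G.gd_geo hc p _)
    · rw [h0, G.gd_zero]
    · rw [hd, G.gd_deriv_zero]

end Pool.Agent.Work.MP_a6f1bd_R
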