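import Pool.Agent.Work.MP_a6f1bd_R.Interface2

set_option autoImplicit false

/-!
# Block SNH: the minimum principle for `u'' ≤ u`

`φ = u' sinh - u cosh` is antitone on `[0, ∞)`, so `φ ≤ - u 0`, so
`(u - u 0 cosh) / sinh` is antitone on `(0, L]`.
-/

namespace Pool.Agent.Work.MP_a6f1bd_R

open Real Filter Topology Set

theorem r_SNH : Stmt_SNH := by
  intro u u₁ u₂ h1 h2 h3 a L ha haL
  rcases ha.eq_or_lt with h0 | h0
  · rw [← h0]
    simp
  have hL : 0 < L := h0.trans_le haL
  -- the function `φ`
  have hφ : ∀ t, HasDerivAt (fun r => u₁ r * sinh r - u r * cosh r) ((u₂ t - u t) * sinh t) t := by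
    intro t
    have := ((h2 t).mul (Real.hasDerivAt_sinh t)).sub ((h1 t).mul (Real.hasDerivAt_cosh t))
    refine this.congr_deriv ?_
    ring
  have hφa : AntitoneOn (fun r => u₁ r * sinh r - u r * cosh r) (Ici 0) := by
    refine antitoneOn_of_deriv_nonpos (convex_Ici 0)
      (fun t _ => (hφ t).continuousAt.continuousWithinAt)
      (fun t _ => (hφ t).differentiableAt.differentiableWithinAt) ?_
    intro t ht
    rw [interior_Ici] at ht
    rw [(hφ t).deriv]
    exact mul_nonpos_of_nonpos_of_nonneg (by linarith [h3 t]) (Real.sinh_pos_iff.2 ht).le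
  have hφ0 : ∀ t, 0 ≤ t → u₁ t * sinh t - u t * cosh t ≤ -u 0 := by
    intro t ht
    have := hφa (mem_Ici.2 le_rfl) (mem_Ici.2 ht) ht
    simpa using this
  -- the quotient
  have hq : ∀ t, 0 < t → HasDerivAt (fun r => (u r - u 0 * cosh r) / sinh r)
      ((u₁ t * sinh t - u t * cosh t + u 0) / sinh t ^ 2) t := by
    intro t ht
    have hs : sinh t ≠ 0 := (Real.sinh_pos_iff.2 ht).ne'
    have := ((h1 t).sub ((Real.hasDerivAt_cosh t).const_mul (u 0))).div (Real.hasDerivAt_sinh t) hs
    refine this.congr_deriv ?_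
    congr 1
    have hc := Real.cosh_sq t
    simp only [Pi.sub_apply]
    linear_combination (u 0) * hc
  have hqa : AntitoneOn (fun r => (u r - u 0 * cosh r) / sinh r) (Icc a L) := by
    refine antitoneOn_of_deriv_nonpos (convex_Icc a L)
      (fun t ht => (hq t (h0.trans_le ht.1)).continuousAt.continuousWithinAt)
      (fun t ht => ?_) ?_
    · rw [interior_Icc] at ht
      exact (hq t (h0.trans ht.1)).differentiableAt.differentiableWithinAt
    · intro t ht
      rw [interior_Icc] at ht
      have ht0 : 0 < t := h0.trans ht.1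
      rw [(hq t ht0).deriv]
      exact div_nonpos_of_nonpos_of_nonneg (by linarith [hφ0 t ht0.le]) (by positivity)
  have hfin := hqa (left_mem_Icc.2 haL) (right_mem_Icc.2 haL) haL
  simp only at hfin
  rw [div_le_div_iff₀ (Real.sinh_pos_iff.2 hL) (Real.sinh_pos_iff.2 h0)] at hfin
  rw [Real.sinh_sub]
  nlinarith [hfin]

end Pool.Agent.Work.MP_a6f1bd_R
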