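import Pool.Agent.Work.MP_a6f1bd_R.Interface2

set_option autoImplicit false

/-!
# PROJECT RIEMANN (MP_a6f1bd_gt): block STH, the hyperbolic Stewart inequality
-/

namespace Pool.Agent.Work.MP_a6f1bd_R

open Real Filter Topology Set
open scoped ContDiff
open Pool.Agent.Work.MP_a6f1bd_gt

theorem r_STH (hSND : Stmt_SND) (hCSH : Stmt_CSH) (hSNH : Stmt_SNH) (hMIN : Stmt_MIN)
    (hDIS : Stmt_DIS) : Stmt_STH := by
  intro m G hc hN hC q c hu a L ha hL
  obtain ⟨-, -, -, hcomm, -, heq, hnn, -⟩ := hDIS m G hc hN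
  by_cases hpos : ∀ t, 0 < G.rdist q (c t)
  · obtain ⟨f₁, f₂, h1, h2, -, -, h5⟩ := hSND m G hc hN q c hu
    obtain ⟨u₁, u₂, k1, k2, k3⟩ := hCSH (fun t => G.rdist q (c t)) f₁ f₂ hpos h1 h2
      (fun t => h5 hC t (hpos t))
    exact hSNH (fun t => cosh (G.rdist q (c t))) u₁ u₂ k1 k2 k3 a L ha hL
  · push Not at hpos
    obtain ⟨t₀, ht₀⟩ := hpos
    have hq : q = c t₀ := heq _ _ (le_antisymm ht₀ (hnn _ _))
    have hd : ∀ t, cosh (G.rdist q (c t)) = cosh (t - t₀) := by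
      intro t
      have h := (hMIN m G hc hN c hu.1 t₀ t).2
      rw [hu.2, mul_one] at h
      rw [hq, h, cosh_abs, ← cosh_neg, neg_sub]
    rw [hd, hd, hd]
    refine hSNH (fun t => cosh (t - t₀)) (fun t => sinh (t - t₀)) (fun t => cosh (t - t₀))
      (fun t => ?_) (fun t => ?_) (fun t => le_rfl) a L ha hL
    · simpa using ((hasDerivAt_id t).sub_const t₀).cosh
    · simpa using ((hasDerivAt_id t).sub_const t₀).sinh

end Pool.Agent.Work.MP_a6f1bd_R
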