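import Pool.Agent.Work.MP_a6f1bd_R.Interface2

set_option autoImplicit false

/-! # Block STW: the comparison theorem for curvature at most 0 -/

namespace Pool.Agent.Work.MP_a6f1bd_R

open Real Filter Topology Set
open scoped ContDiff
open Pool.Agent.Work.MP_a6f1bd_gt

theorem r_STW (hSND : Stmt_SND) (hCVX : Stmt_CVX) : Stmt_STW := by
  intro m G hc hN q c hU a L ha haL
  obtain ⟨f₁, f₂, h1, h2, h3, -, -⟩ := hSND m G hc hN q c hU
  have h := hCVX (fun τ => G.rdist q (c τ) ^ 2 / 2) f₁ f₂ h1 h2 h3 a L ha haL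
  beta_reduce at h
  linarith

end Pool.Agent.Work.MP_a6f1bd_R
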