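import Pool.Agent.Work.MP_a6f1bd_R.Interface1

set_option autoImplicit false

/-! # Block SYR: the symmetries of the curvature tensor -/

namespace Pool.Agent.Work.MP_a6f1bd_R

open Real Filter Topology Set
open scoped ContDiff

namespace X_SYR

section

variable {V : Type} [NormedAddCommGroup V] [NormedSpace ℝ V]

theorem ev2 {W : Type} [NormedAddCommGroup W] [NormedSpace ℝ W] {B : V → V →L[ℝ] V →L[ℝ] W}
    {B' : V →L[ℝ] V →L[ℝ] V →L[ℝ] W} {x : V} (h : HasFDerivAt B B' x) (v w : V) :
    HasFDerivAt (fun y => B y v w) ((B'.flip v).flip w) x := by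
  have h1 : HasFDerivAt (fun y => B y v) (B'.flip v) x := by
    have := h.clm_apply (hasFDerivAt_const v x)
    refine this.congr_fderiv ?_
    ext z
    simp
  have := h1.clm_apply (hasFDerivAt_const w x)
  refine this.congr_fderiv ?_
  ext z
  simp

theorem dB_symm {B : V → V →L[ℝ] V →L[ℝ] V} (hd : ∀ y, DifferentiableAt ℝ B y)
    (hs : ∀ x u v, B x u v = B x v u) (x u v w : V) :
    fderiv ℝ B x u v w = fderiv ℝ B x u w v := by
  have h1 := ev2 (hd x).hasFDerivAt v w
  have h2 := ev2 (hd x).hasFDerivAt w v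
  have h3 : (fun y => B y v w) = fun y => B y w v := funext fun y => hs y v w
  rw [h3] at h1
  have := congrArg (fun L => L u) (h1.unique h2)
  simpa using this

/-- `R(u, v) w` is orthogonal to `w`. -/
theorem self_zero {g : V → V →L[ℝ] V →L[ℝ] ℝ} {B : V → V →L[ℝ] V →L[ℝ] V}
    (hg : ContDiff ℝ ∞ g) (hdB : ∀ y, DifferentiableAt ℝ B y)
    (hsym : ∀ x v w, g x v w = g x w v)
    (hC : ∀ x u v w, fderiv ℝ g x u v w = g x (B x u v) w + g x v (B x u w))
    (x u v w : V) : g x (fderiv ℝ B x u v w - fderiv ℝ B x v u w + B x u (B x v w)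
      - B x v (B x u w)) w = 0 := by
  have hdg : ∀ y, DifferentiableAt ℝ g y := fun y => hg.differentiable (by simp) y
  set φ : V → ℝ := fun y => g y w w with hφdef
  have hφ : ContDiff ℝ ∞ φ := (hg.clm_apply contDiff_const).clm_apply contDiff_const
  have hdφ : ∀ y a, fderiv ℝ φ y a = fderiv ℝ g y a w w := by
    intro y a
    have h := (ev2 (hdg y).hasFDerivAt w w).fderiv
    have h2 := congrArg (fun L => L a) h
    simpa using h2
  have hddφ : DifferentiableAt ℝ (fderiv ℝ φ) x :=
    (hφ.fderiv_right (m := ∞) (by simp)).differentiable (by simp) x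
  have key : ∀ a b : V, (fderiv ℝ (fderiv ℝ φ) x) b a =
      2 * (g x (B x b (B x a w)) w + g x (B x a w) (B x b w) + g x (fderiv ℝ B x b a w) w) := by
    intro a b
    have e1 : HasFDerivAt (fun y => fderiv ℝ φ y a) ((fderiv ℝ (fderiv ℝ φ) x).flip a) x := by
      have := hddφ.hasFDerivAt.clm_apply (hasFDerivAt_const a x)
      refine this.congr_fderiv ?_
      ext z
      simp
    have e2 := ev2 (hdB x).hasFDerivAt a w
    have e3 := ((hdg x).hasFDerivAt.clm_apply e2).clm_apply (hasFDerivAt_const w x)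
    have e4 : (fun y => fderiv ℝ φ y a) = fun y => (2:ℝ) * g y (B y a w) w := by
      funext y
      rw [hdφ, hC, hsym y w (B y a w)]
      ring
    rw [e4] at e1
    have e5 := e1.unique (e3.const_mul 2)
    have e6 := congrArg (fun L => L b) e5
    simp at e6
    rw [e6, hC]
    ring
  have hsy : (fderiv ℝ (fderiv ℝ φ) x) u v = (fderiv ℝ (fderiv ℝ φ) x) v u := by
    have h := (hφ.contDiffAt (x := x)).isSymmSndFDerivAt (by
      rw [minSmoothness_of_isRCLikeNormedField]
      exact WithTop.coe_le_coe.2 (le_top : (2 : ℕ∞) ≤ ⊤))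
    exact h u v
  have h1 := key v u
  have h2 := key u v
  rw [hsy, h2] at h1
  have h3 : g x (B x v w) (B x u w) = g x (B x u w) (B x v w) := hsym _ _ _
  simp only [map_sub, map_add, ContinuousLinearMap.sub_apply, ContinuousLinearMap.add_apply]
  linarith

end

end X_SYR

open X_SYR

theorem r_SYR (hGAM : Stmt_GAM) (hRLN : Stmt_RLN) (hCMT : Stmt_CMT) : Stmt_SYR := by
  intro m G
  obtain ⟨B, hB, hG, hk, hs⟩ := hGAM m G
  obtain ⟨hR, Q, hQ⟩ := hRLN m G B hB hG
  have hC := (hCMT m G).1
  have hdiff : ∀ y, DifferentiableAt ℝ B y := fun y => hB.differentiable (by simp) y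
  have hself : ∀ x u v w, G.g x (G.Rm x u v w) w = 0 := by
    intro x u v w
    rw [hR]
    exact self_zero G.smooth hdiff G.symm (fun x u v w => by rw [hC, hG, hG]) x u v w
  have hdB := dB_symm hdiff hs
  have hskew1 : ∀ x u v w z, G.g x (G.Rm x u v w) z = -G.g x (G.Rm x v u w) z := by
    intro x u v w z
    have : G.Rm x u v w = -G.Rm x v u w := by
      rw [hR, hR]; abel
    rw [this, map_neg]
    rfl
  have hskew2 : ∀ x u v w z, G.g x (G.Rm x u v w) z = -G.g x (G.Rm x u v z) w := by
    intro x u v w z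
    have h1 := hself x u v (w + z)
    have h0 : G.Rm x u v (w + z) = G.Rm x u v w + G.Rm x u v z := by
      rw [hQ, hQ, hQ, map_add]
    rw [h0] at h1
    simp only [map_add, ContinuousLinearMap.add_apply] at h1
    have h2 := hself x u v w
    have h3 := hself x u v z
    linarith
  have hbi : ∀ x u v w z, G.g x (G.Rm x u v w) z + G.g x (G.Rm x v w u) z +
      G.g x (G.Rm x w u v) z = 0 := by
    intro x u v w z
    have : G.Rm x u v w + G.Rm x v w u + G.Rm x w u v = 0 := by
      rw [hR, hR, hR, hdB x u v w, hdB x v w u, hdB x w u v, hs x v w, hs x w u, hs x u v]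
      abel
    have h2 := congrArg (fun t => G.g x t z) this
    simpa using h2
  intro x u v w z
  refine ⟨hskew1 x u v w z, hskew2 x u v w z, ?_⟩
  have b1 := hbi x u v w z
  have b2 := hbi x v w z u
  have b3 := hbi x w z u v
  have b4 := hbi x z u v w
  have s1 := hskew1 x v w u z
  have s2 := hskew2 x v w u z
  have s3 := hskew1 x w u v z
  have s4 := hskew2 x w u v z
  have s5 := hskew1 x w z v u
  have s6 := hskew2 x w z v u
  have s7 := hskew1 x z v w u
  have s8 := hskew2 x z v w u
  have s9 := hskew1 x z u w v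
  have s10 := hskew2 x z u w v
  have s11 := hskew1 x u w z v
  have s12 := hskew2 x u w z v
  have s13 := hskew1 x u v z w
  have s14 := hskew2 x u v z w
  have s15 := hskew1 x v z u w
  have s16 := hskew2 x v z u w
  have s17 := hskew2 x v w z u
  have s18 := hskew1 x u z v w
  linarith

end Pool.Agent.Work.MP_a6f1bd_R
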