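import Pool.Agent.Work.MP_a6f1bd_R.Interface1

set_option autoImplicit false

/-!
# Riemannian metrics on `ℝ^m`, block TOP: the distance induces the usual topology
-/

namespace Pool.Agent.Work.MP_a6f1bd_R

open Real Filter Topology Set
open scoped ContDiff

theorem r_TOP (hCSC : Stmt_CSC) (hEXD : Stmt_EXD) (hINJ : Stmt_INJ) (hDIS : Stmt_DIS) :
    Stmt_TOP := by
  intro m G hc hN x ι l y
  obtain ⟨-, -, -, h4, h5, h6, -, -⟩ := hCSC m G
  obtain ⟨i1, -, i3, i4, i5, -⟩ := hINJ m G hc hN x
  obtain ⟨-, d2, -⟩ := hDIS m G hc hN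
  have hcont : Continuous fun z => G.rdist x z := by
    have e : (fun z => G.rdist x z) = fun z => G.nrm x (G.lo hc x z) := funext fun z => d2 x z
    rw [e]
    exact h5.comp (continuous_const.prodMk i3)
  have hx : G.rdist x x = 0 := by
    rw [d2, i5]
    exact (h6 x 0).2 rfl
  refine ⟨⟨?_, ?_⟩, hcont⟩
  · intro h
    obtain ⟨κ, -, hb⟩ := h4 x
    have h1 : Tendsto (fun i => G.lo hc x (y i)) l (𝓝 0) := by
      refine squeeze_zero_norm (a := fun i => κ * G.rdist x (y i)) (fun i => ?_) ?_
      · rw [d2]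
        exact hb _
      · simpa using h.const_mul κ
    obtain ⟨D, -, hD, -⟩ := hEXD m G hc hN x 0
    have h3 := (hD.continuousAt.tendsto).comp h1
    rw [i4] at h3
    exact h3.congr fun i => i1 (y i)
  · intro h
    have h7 := (hcont.tendsto x).comp h
    rw [hx] at h7
    exact h7

end Pool.Agent.Work.MP_a6f1bd_R
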