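import Pool.Agent.Work.MP_a6f1bd_R.Interface2

set_option autoImplicit false
set_option maxSynthPendingDepth 3

/-!
# Block UPP: the index lemma
-/

namespace Pool.Agent.Work.MP_a6f1bd_R

open Real Filter Topology Set
open scoped ContDiff
open Pool.Agent.Work.MP_a6f1bd_gt

namespace X_UPP

variable {m : ℕ} (G : RMetric m)

theorem g_nonneg (x v : E m) : 0 ≤ G.g x v v := by
  by_cases h : v = 0
  · rw [h]; simp
  · exact (G.pos x v h).le

/-- the inequality at a point -/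
theorem point (hN : G.Npc) (hC : G.Cge) (hS : Stmt_SYR)
    (Q : E m → E m →L[ℝ] E m →L[ℝ] E m →L[ℝ] E m) (hQ : ∀ x u v w, G.Rm x u v w = Q x u v w)
    (x T J D P : E m) (s q r f f' A : ℝ) (hT : G.g x T T = r ^ 2) (hPT : G.g x P T = 0)
    (hPP : G.g x P P = A) :
    2 * (q * G.g x D T - s * q * G.g x (G.Rm x J T T) T) +
      2 * (f' * G.g x D P - f * G.g x (G.Rm x J T T) P) + G.g x (G.Rm x J T T) J - G.g x D D
      ≤ q ^ 2 * r ^ 2 + f' ^ 2 * A + f ^ 2 * A * r ^ 2 := by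
  have hTP : G.g x T P = 0 := by rw [G.symm]; exact hPT
  obtain ⟨W, hW⟩ : ∃ W, W = (s * q) • T + f • P := ⟨_, rfl⟩
  obtain ⟨D', hD'⟩ : ∃ D', D' = q • T + f' • P := ⟨_, rfl⟩
  have h1 := g_nonneg G x (D' - D)
  have h2 := hN x (W - J) T
  have h3 := hC x W T
  have sy : G.g x (G.Rm x W T T) J = G.g x (G.Rm x J T T) W := by
    have a1 := (hS m G x J T T W).2.2
    have a2 := (hS m G x T W J T).1
    have a3 := (hS m G x W T J T).2.1
    linarith
  have eR : G.Rm x (W - J) T T = G.Rm x W T T - G.Rm x J T T := by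
    rw [hQ, hQ, hQ]; simp
  rw [eR] at h2
  have e2 : G.g x (G.Rm x W T T - G.Rm x J T T) (W - J)
      = G.g x (G.Rm x W T T) W - G.g x (G.Rm x W T T) J - G.g x (G.Rm x J T T) W
        + G.g x (G.Rm x J T T) J := by
    simp only [map_sub, ContinuousLinearMap.sub_apply]
    ring
  rw [e2, sy] at h2
  have e3 : G.g x (G.Rm x J T T) W
      = s * q * G.g x (G.Rm x J T T) T + f * G.g x (G.Rm x J T T) P := by
    rw [hW]; simp only [map_add, map_smul, smul_eq_mul]
  rw [e3] at h2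
  have e1 : G.g x (D' - D) (D' - D) = G.g x D' D' - 2 * G.g x D D' + G.g x D D := by
    have : G.g x D' D = G.g x D D' := G.symm x D' D
    simp only [map_sub, ContinuousLinearMap.sub_apply]
    rw [this]; ring
  have e4 : G.g x D D' = q * G.g x D T + f' * G.g x D P := by
    rw [hD']; simp only [map_add, map_smul, smul_eq_mul]
  have e5 : G.g x D' D' = q ^ 2 * r ^ 2 + f' ^ 2 * A := by
    rw [hD']
    simp only [map_add, map_smul, smul_eq_mul, ContinuousLinearMap.add_apply,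
      ContinuousLinearMap.smul_apply]
    rw [hT, hPT, hTP, hPP]; ring
  rw [e1, e4, e5] at h1
  have e6 : G.g x W W = (s * q) ^ 2 * r ^ 2 + f ^ 2 * A := by
    rw [hW]
    simp only [map_add, map_smul, smul_eq_mul, ContinuousLinearMap.add_apply,
      ContinuousLinearMap.smul_apply]
    rw [hT, hPT, hTP, hPP]; ring
  have e7 : G.g x W T = s * q * r ^ 2 := by
    rw [hW]
    simp only [map_add, map_smul, smul_eq_mul, ContinuousLinearMap.add_apply,
      ContinuousLinearMap.smul_apply]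
    rw [hT, hPT]; ring
  rw [e6, e7, hT] at h3
  have e8 : ((s * q) ^ 2 * r ^ 2 + f ^ 2 * A) * r ^ 2 - (s * q * r ^ 2) ^ 2
      = f ^ 2 * A * r ^ 2 := by ring
  rw [e8] at h3
  linarith

/-- constancy -/
theorem const_on {f : ℝ → ℝ} (h : ∀ s ∈ Ioo (-1 : ℝ) 2, HasDerivAt f 0 s) :
    ∀ s ∈ Ioo (-1 : ℝ) 2, f s = f 1 := by
  intro s hs
  refine isOpen_Ioo.is_const_of_deriv_eq_zero isPreconnected_Ioo
    (fun t ht => (h t ht).differentiableAt.differentiableWithinAt)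
    (fun t ht => (h t ht).deriv) hs (by constructor <;> norm_num)

end X_UPP

open X_UPP in
theorem r_UPP (hGAM : Stmt_GAM) (hRLN : Stmt_RLN) (hCMT : Stmt_CMT) (hSYR : Stmt_SYR)
    (hJAC : Stmt_JAC) (_hGEO : Stmt_GEO) (hPAR : Stmt_PAR) : Stmt_UPP := by
  intro m G hN hC c hc J V hJV hJ0 r hr hT1
  obtain ⟨B, hB, hG, -, -⟩ := hGAM m G
  obtain ⟨Q, hQ⟩ := (hRLN m G B hB hG).2
  have hcmt := (hCMT m G).2
  have h1I : (1 : ℝ) ∈ Ioo (-1 : ℝ) 2 := by constructor <;> norm_num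
  -- q, a, P
  obtain ⟨q, hq⟩ : ∃ q, q = G.g (c 1) (J 1) (deriv c 1) / r ^ 2 := ⟨_, rfl⟩
  have hqr : G.g (c 1) (J 1) (deriv c 1) = q * r ^ 2 := by
    rw [hq, div_mul_cancel₀ _ (by positivity)]
  obtain ⟨a, ha⟩ : ∃ a, a = J 1 - q • deriv c 1 := ⟨_, rfl⟩
  obtain ⟨P, hP1, hP⟩ := hPAR m G c hc a
  obtain ⟨A, hA⟩ : ∃ A, A = G.g (c 1) a a := ⟨_, rfl⟩
  have haT : G.g (c 1) a (deriv c 1) = 0 := by
    rw [ha]
    simp only [map_sub, map_smul, smul_eq_mul, ContinuousLinearMap.sub_apply,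
      ContinuousLinearMap.smul_apply]
    rw [hqr, hT1]; ring
  have hAe : A = G.g (c 1) (J 1) (J 1) - q ^ 2 * r ^ 2 := by
    have h1 : G.g (c 1) (deriv c 1) (J 1) = q * r ^ 2 := by rw [G.symm]; exact hqr
    rw [hA, ha]
    simp only [map_sub, map_smul, smul_eq_mul, ContinuousLinearMap.sub_apply,
      ContinuousLinearMap.smul_apply]
    rw [hqr, h1, hT1]; ring
  -- covariant derivatives
  have cT : ∀ s, G.cov (c s) (deriv c s) (deriv c s) (-G.Gam (c s) (deriv c s) (deriv c s)) = 0 := by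
    intro s; unfold RMetric.cov; exact neg_add_cancel _
  have cP : ∀ s, G.cov (c s) (deriv c s) (P s) (-G.Gam (c s) (deriv c s) (P s)) = 0 := by
    intro s; unfold RMetric.cov; exact neg_add_cancel _
  obtain ⟨DJ, hDJ⟩ : ∃ DJ : ℝ → E m, DJ = fun s => G.cov (c s) (deriv c s) (J s) (V s) := ⟨_, rfl⟩
  have hDJs : ∀ s, DJ s = G.cov (c s) (deriv c s) (J s) (V s) := fun s => by rw [hDJ]
  have hDJd : ∀ s ∈ Ioo (-1 : ℝ) 2, HasDerivAt DJ (-G.Rm (c s) (J s) (deriv c s) (deriv c s)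
      - G.Gam (c s) (deriv c s) (DJ s)) s := by
    intro s hs
    have := hJAC m G c J V hc hJV s hs
    rw [hDJ]; exact this
  have cDJ : ∀ s, G.cov (c s) (deriv c s) (DJ s) (-G.Rm (c s) (J s) (deriv c s) (deriv c s)
      - G.Gam (c s) (deriv c s) (DJ s)) = -G.Rm (c s) (J s) (deriv c s) (deriv c s) := by
    intro s; unfold RMetric.cov; exact sub_add_cancel _ _
  -- constants
  have kTT : ∀ s ∈ Ioo (-1 : ℝ) 2, G.g (c s) (deriv c s) (deriv c s) = r ^ 2 := by
    intro s hs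
    rw [← hT1]
    refine const_on (f := fun s => G.g (c s) (deriv c s) (deriv c s)) (fun t ht => ?_) s hs
    have h := hcmt c (deriv c) (deriv c) _ _ _ t (hc t).1 (hc t).2 (hc t).2
    rw [cT] at h
    simpa using h
  have kPT : ∀ s ∈ Ioo (-1 : ℝ) 2, G.g (c s) (P s) (deriv c s) = 0 := by
    intro s hs
    have h0 := const_on (f := fun s => G.g (c s) (P s) (deriv c s)) (fun t ht => ?_) s hs
    · rw [hP1] at h0
      exact h0.trans haT
    have h := hcmt c P (deriv c) _ _ _ t (hc t).1 (hP t ht) (hc t).2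
    rw [cT, cP] at h
    simpa using h
  have kPP : ∀ s ∈ Ioo (-1 : ℝ) 2, G.g (c s) (P s) (P s) = A := by
    intro s hs
    have h0 := const_on (f := fun s => G.g (c s) (P s) (P s)) (fun t ht => ?_) s hs
    · rw [hP1] at h0
      exact h0.trans hA.symm
    have h := hcmt c P P _ _ _ t (hc t).1 (hP t ht) (hP t ht)
    rw [cP] at h
    simpa using h
  -- the functions
  have hsr : 0 < sinh r := Real.sinh_pos_iff.mpr hr
  have dDT : ∀ s ∈ Ioo (-1 : ℝ) 2, HasDerivAt (fun s => G.g (c s) (DJ s) (deriv c s))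
      (-G.g (c s) (G.Rm (c s) (J s) (deriv c s) (deriv c s)) (deriv c s)) s := by
    intro s hs
    have h := hcmt c DJ (deriv c) _ _ _ s (hc s).1 (hDJd s hs) (hc s).2
    rw [cT, cDJ] at h
    simpa using h
  have dDP : ∀ s ∈ Ioo (-1 : ℝ) 2, HasDerivAt (fun s => G.g (c s) (DJ s) (P s))
      (-G.g (c s) (G.Rm (c s) (J s) (deriv c s) (deriv c s)) (P s)) s := by
    intro s hs
    have h := hcmt c DJ P _ _ _ s (hc s).1 (hDJd s hs) (hP s hs)
    rw [cP, cDJ] at h
    simpa using h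
  have dDJ : ∀ s ∈ Ioo (-1 : ℝ) 2, HasDerivAt (fun s => G.g (c s) (DJ s) (J s))
      (-G.g (c s) (G.Rm (c s) (J s) (deriv c s) (deriv c s)) (J s)
        + G.g (c s) (DJ s) (DJ s)) s := by
    intro s hs
    have h := hcmt c DJ J _ _ _ s (hc s).1 (hDJd s hs) (hJV s hs).1
    rw [cDJ, ← hDJs] at h
    simpa using h
  obtain ⟨f, hf⟩ : ∃ f : ℝ → ℝ, f = fun s => sinh (r * s) / sinh r := ⟨_, rfl⟩
  obtain ⟨f', hf'⟩ : ∃ f' : ℝ → ℝ, f' = fun s => r * cosh (r * s) / sinh r := ⟨_, rfl⟩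
  have dlin : ∀ s, HasDerivAt (fun s : ℝ => r * s) r s := by
    intro s; simpa using (hasDerivAt_id s).const_mul r
  have df : ∀ s, HasDerivAt f (f' s) s := by
    intro s
    rw [hf, hf']
    have h := ((dlin s).sinh).div_const (sinh r)
    refine h.congr_deriv ?_
    ring
  obtain ⟨b, hb⟩ : ∃ b : ℝ → ℝ,
    b = fun s => q ^ 2 * r ^ 2 * s + A * r * (sinh (r * s) * cosh (r * s)) / sinh r ^ 2 := ⟨_, rfl⟩
  have db : ∀ s, HasDerivAt b (q ^ 2 * r ^ 2 + f' s ^ 2 * A + f s ^ 2 * A * r ^ 2) s := by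
    intro s
    rw [hb, hf, hf']
    have h1 := (((dlin s).sinh).mul ((dlin s).cosh)).const_mul (A * r)
    have h2 := (h1.div_const (sinh r ^ 2))
    have h3 := ((hasDerivAt_id s).const_mul (q ^ 2 * r ^ 2)).add h2
    refine h3.congr_deriv ?_
    have := hsr.ne'
    field_simp
    ring
  obtain ⟨M, hM⟩ : ∃ M : ℝ → ℝ, M = fun s => 2 * (s * q * G.g (c s) (DJ s) (deriv c s)
    + f s * G.g (c s) (DJ s) (P s)) - G.g (c s) (DJ s) (J s) - b s := ⟨_, rfl⟩
  have dM : ∀ s ∈ Ioo (-1 : ℝ) 2, ∃ M' : ℝ, HasDerivAt M M' s ∧ M' ≤ 0 := by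
    intro s hs
    have h1 := ((hasDerivAt_id s).mul_const q).mul (dDT s hs)
    have h2 := (df s).mul (dDP s hs)
    have h3 := (((h1.add h2).const_mul 2).sub (dDJ s hs)).sub (db s)
    rw [hM]
    refine ⟨_, h3, ?_⟩
    have h4 := point G hN hC hSYR Q hQ (c s) (deriv c s) (J s) (DJ s) (P s) s q r (f s) (f' s) A
      (kTT s hs) (kPT s hs) (kPP s hs)
    simp only [id_eq]
    linarith
  have hanti : AntitoneOn M (Icc 0 1) := by
    have hsub : Icc (0 : ℝ) 1 ⊆ Ioo (-1 : ℝ) 2 := fun t ht => ⟨by linarith [ht.1], by linarith [ht.2]⟩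
    refine antitoneOn_of_deriv_nonpos (convex_Icc 0 1) (fun t ht => ?_) (fun t ht => ?_)
      (fun t ht => ?_)
    · obtain ⟨M', h, -⟩ := dM t (hsub ht)
      exact h.continuousAt.continuousWithinAt
    · obtain ⟨M', h, -⟩ := dM t (hsub (interior_subset ht))
      exact h.differentiableAt.differentiableWithinAt
    · obtain ⟨M', h, h'⟩ := dM t (hsub (interior_subset ht))
      rw [h.deriv]; exact h'
  have hfin := hanti (left_mem_Icc.mpr zero_le_one) (right_mem_Icc.mpr zero_le_one) zero_le_one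
  have hM0 : M 0 = 0 := by
    rw [hM, hf, hb]
    simp [hJ0]
  have hM1 : M 1 = G.g (c 1) (J 1) (DJ 1) - (q ^ 2 * r ^ 2 + A * (r * cosh r / sinh r)) := by
    have h1 : J 1 = q • deriv c 1 + a := by rw [ha]; abel
    have h2 : G.g (c 1) (DJ 1) (J 1)
        = q * G.g (c 1) (DJ 1) (deriv c 1) + G.g (c 1) (DJ 1) a := by
      conv_lhs => rw [h1]
      simp only [map_add, map_smul, smul_eq_mul]
    have h3 : f 1 = 1 := by
      rw [hf]; simp only [mul_one]; exact div_self hsr.ne'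
    have h4 : b 1 = q ^ 2 * r ^ 2 + A * (r * cosh r / sinh r) := by
      rw [hb]; simp only [mul_one]
      have := hsr.ne'
      field_simp
    rw [hM]
    simp only [h3, h4, hP1]
    rw [G.symm (c 1) (J 1) (DJ 1)]
    rw [h2]; ring
  rw [hM0, hM1] at hfin
  have e1 : (G.g (c 1) (J 1) (deriv c 1) / r) ^ 2 = q ^ 2 * r ^ 2 := by
    rw [hqr]
    have := hr.ne'
    field_simp
  rw [e1, ← hAe, ← hDJs]
  linarith

end Pool.Agent.Work.MP_a6f1bd_R
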