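import Pool.Agent.Work.MP_a6f1bd_R.Interface1

set_option autoImplicit false

namespace Pool.Agent.Work.MP_a6f1bd_R

open Real Filter Topology Set
open scoped ContDiff

theorem r_USD : Stmt_USD := by
  intro V _ _ _ F c ε hF hc hε
  have hprop : ProperSpace V := FiniteDimensional.proper ℝ V
  obtain ⟨R, hR⟩ := isCompact_Icc.exists_bound_of_continuousOn
    (s := Icc (0 : ℝ) 1) (f := c) hc.continuousOn
  have hcont : Continuous (fderiv ℝ F) := hF.continuous_fderiv (by norm_num)
  have huc := (isCompact_closedBall (0 : V) (R + 1)).uniformContinuousOn_of_continuous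
    hcont.continuousOn
  rw [Metric.uniformContinuousOn_iff_le] at huc
  obtain ⟨δ, hδ, h⟩ := huc ε hε
  refine ⟨min δ 1, lt_min hδ one_pos, fun t ht u v hu hv => ?_⟩
  have hsub : Metric.closedBall (c t) (min δ 1) ⊆ Metric.closedBall (0 : V) (R + 1) := by
    intro x hx
    have h1 : dist x (c t) ≤ 1 := hx.trans (min_le_right _ _)
    have h2 : ‖x‖ ≤ ‖c t‖ + ‖x - c t‖ := by
      have := norm_add_le (c t) (x - c t)
      rwa [add_sub_cancel] at this
    rw [dist_eq_norm] at h1
    rw [mem_closedBall_zero_iff]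
    linarith [hR t ht]
  have hct : c t ∈ Metric.closedBall (c t) (min δ 1) :=
    Metric.mem_closedBall_self (lt_min hδ one_pos).le
  refine Convex.norm_image_sub_le_of_norm_hasFDerivWithin_le' (𝕜 := ℝ)
    (s := Metric.closedBall (c t) (min δ 1)) (f' := fderiv ℝ F)
    (fun x _ => ((hF.differentiable (by norm_num)) x).hasFDerivAt.hasFDerivWithinAt) ?_
    (convex_closedBall _ _) ?_ ?_
  · intro x hx
    have h3 := h x (hsub hx) (c t) (hsub hct) (hx.trans (min_le_left _ _))
    rwa [dist_eq_norm] at h3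
  · rwa [Metric.mem_closedBall, dist_eq_norm]
  · rwa [Metric.mem_closedBall, dist_eq_norm]

end Pool.Agent.Work.MP_a6f1bd_R
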