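import Pool.Agent.Work.MP_a6f1bd_R.Interface2

set_option autoImplicit false

/-!
# PROJECT RIEMANN, block VAR
-/

namespace Pool.Agent.Work.MP_a6f1bd_R

open Real Filter Topology Set
open scoped ContDiff
open Pool.Agent.Work.MP_a6f1bd_gt

/-- VAR -/
theorem r_VAR (h1 : Stmt_CRV) : Stmt_VAR := by
  intro m G hc hn q c c' t hd
  obtain ⟨w, J, V, hw, -, -, -, -, h5, -⟩ := h1 m G hc hn q c c' t hd
  have h2 : HasDerivAt (fun τ => G.g q (G.lo hc q (c τ))) (G.g q w) t :=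
    (G.g q).hasFDerivAt.comp_hasDerivAt t hw
  have h3 := (h2.clm_apply hw).div_const 2
  have h4 : (G.g q w (G.lo hc q (c t)) + G.g q (G.lo hc q (c t)) w) / 2 =
      G.g (c t) (deriv (G.gd hc q (G.lo hc q (c t))) 1) c' := by
    rw [G.symm q (G.lo hc q (c t)) w, ← h5, G.symm (c t) c']
    ring
  rw [← h4]
  exact h3

end Pool.Agent.Work.MP_a6f1bd_R
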