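import Pool.Agent.Work.MP_a6f1bd_R.Interface2

set_option autoImplicit false

/-! # VR2: second variation -/

namespace Pool.Agent.Work.MP_a6f1bd_R

open Real Filter Topology Set
open scoped ContDiff

theorem r_VR2 (hCRV : Stmt_CRV) (hCMT : Stmt_CMT) (hGAM : Stmt_GAM) : Stmt_VR2 := by
  intro m G hc hN q c hgeo t
  obtain ⟨B, hB, hG, hk, hs⟩ := hGAM m G
  obtain ⟨w, J, V, hw, hvar, hJ0, hJ1, hV, h1, h2⟩ := hCRV m G hc hN q c (deriv c t) t (hgeo t).1
  refine ⟨J, V, hvar, hJ0, hJ1, ?_, ?_⟩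
  · have h := (hCMT m G).2 c (fun τ => deriv (G.gd hc q (G.lo hc q (c τ))) 1) (deriv c)
      (deriv c t) (V 1) (-G.Gam (c t) (deriv c t) (deriv c t)) t (hgeo t).1 hV (hgeo t).2
    have e1 : G.cov (c t) (deriv c t) (deriv c t) (-G.Gam (c t) (deriv c t) (deriv c t)) = 0 := by
      simp [RMetric.cov]
    have e2 : G.cov (c t) (deriv c t) (deriv (G.gd hc q (G.lo hc q (c t))) 1) (V 1) =
        G.cov (c t) (deriv (G.gd hc q (G.lo hc q (c t))) 1) (J 1) (V 1) := by
      simp only [RMetric.cov, hJ1]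
      rw [hG, hG, hs]
    simp only [e1, e2, map_zero, add_zero] at h
    rw [G.symm] at h
    rw [hJ1] at h ⊢
    exact h
  · rw [hJ1]
    exact h2

end Pool.Agent.Work.MP_a6f1bd_R
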