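import Pool.Agent.Work.MP_a6f1bd_R.Interface2

set_option autoImplicit false

/-! # The third side of an ideal triangle: existence and uniqueness of the asymptotic geodesic -/

namespace Pool.Agent.Work.MP_a6f1bd_R

open Real Filter Topology Set

/-- The geodesic `δ` stays at bounded distance from `γ` for positive times. -/
def RMetric.Asym {m : ℕ} (G : RMetric m) (δ γ : ℝ → E m) : Prop :=
  ∃ K, ∀ t, 0 ≤ t → G.rdist (δ t) (γ t) ≤ K

namespace X_TSD

theorem dist_eq (hMIN : Stmt_MIN) {m : ℕ} {G : RMetric m} (hc : G.Complete) (hN : G.Npc)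
    {c : ℝ → E m} (h : G.Unit1 c) (a b : ℝ) : G.rdist (c a) (c b) = |a - b| := by
  rw [(hMIN m G hc hN c h.1 a b).2, h.2, mul_one]

/-- Two segments with a common end point: comparison at the same ratio. -/
theorem fan (hNPB : Stmt_NPB) {m : ℕ} {G : RMetric m} (hc : G.Complete) (hN : G.Npc)
    (hcomm : ∀ x y, G.rdist x y = G.rdist y x) (hnn : ∀ x y, 0 ≤ G.rdist x y)
    {z y y' p p' : E m} {A A' s : ℝ} (hs0 : 0 ≤ s) (hs1 : s ≤ 1)
    (hA : 0 < A) (hA' : 0 < A')
    (h1 : G.rdist y p = s * A) (h2 : G.rdist p z = (1 - s) * A) (h3 : G.rdist y z = A)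
    (h1' : G.rdist y' p' = s * A') (h2' : G.rdist p' z = (1 - s) * A')
    (h3' : G.rdist y' z = A') :
    G.rdist p p' ≤ (1 - s) * G.rdist y y' := by
  have e1 := hNPB m G hc hN y p z p' (by rw [h1, h2, h3]; ring)
  have e2 := hNPB m G hc hN y' p' z y (by rw [h1', h2', h3']; ring)
  rw [h1, h2, h3, h2'] at e1
  rw [h1', h2', h3', h3, hcomm y p', hcomm y y'] at e2
  rw [hcomm p p', hcomm y y']
  have hd := hnn p' p
  have hD := hnn y' y
  have e1' : G.rdist p' p ^ 2 ≤ (1 - s) * G.rdist p' y ^ 2 + s * ((1 - s) * A') ^ 2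
      - s * (1 - s) * A ^ 2 := by
    have : A * G.rdist p' p ^ 2 ≤ A * ((1 - s) * G.rdist p' y ^ 2 + s * ((1 - s) * A') ^ 2
      - s * (1 - s) * A ^ 2) := by nlinarith
    exact le_of_mul_le_mul_left this hA
  have e2' : G.rdist p' y ^ 2 ≤ (1 - s) * G.rdist y' y ^ 2 + s * A ^ 2
      - s * (1 - s) * A' ^ 2 := by
    have : A' * G.rdist p' y ^ 2 ≤ A' * ((1 - s) * G.rdist y' y ^ 2 + s * A ^ 2
      - s * (1 - s) * A' ^ 2) := by nlinarith
    exact le_of_mul_le_mul_left this hA'
  have e3 := mul_le_mul_of_nonneg_left e2' (by linarith : (0:ℝ) ≤ 1 - s)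
  have e4 : G.rdist p' p ^ 2 ≤ ((1 - s) * G.rdist y' y) ^ 2 := by nlinarith
  exact abs_le_of_sq_le_sq' e4 (mul_nonneg (by linarith) hD) |>.2

end X_TSD

open X_TSD

/-- For every geodesic `γ` and every point `y` there is exactly one geodesic from `y` which is
asymptotic to `γ`. -/
theorem third_side (hCSC : Stmt_CSC) (hGEO : Stmt_GEO) (hEXD : Stmt_EXD) (hINJ : Stmt_INJ)
    (hDIS : Stmt_DIS) (hMIN : Stmt_MIN) (hTOP : Stmt_TOP) (hNPB : Stmt_NPB)
    {m : ℕ} (G : RMetric m) (hc : G.Complete) (hN : G.Npc) (γ : ℝ → E m) (hγ : G.Unit1 γ)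
    (y : E m) : ∃! δ : ℝ → E m, G.Unit1 δ ∧ δ 0 = y ∧ G.Asym δ γ := by
  obtain ⟨-, -, -, -, hncont, -, -, -⟩ := hCSC m G
  obtain ⟨-, -, hsm, hκ, -, -, -, -⟩ := hCSC m G
  obtain ⟨huniq, -, -, hsc, -⟩ := hGEO m G
  obtain ⟨-, hrd, htri, hcomm, hself, heq, hnn, -⟩ := hDIS m G hc hN
  obtain ⟨hex, -, -, hex0, -, -⟩ := hINJ m G hc hN y
  have hsc := hsc hc
  have hexc : Continuous (G.ex hc y) := by
    rw [continuous_iff_continuousAt]
    intro v
    obtain ⟨D, P, hD, -⟩ := hEXD m G hc hN y v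
    exact hD.hasFDerivAt.continuousAt
  have hgd : ∀ v r, G.gd hc y v r = G.ex hc y (r • v) := by
    intro v r
    have := hsc y v r 1
    rw [mul_one] at this
    exact this.symm
  set D : ℝ := G.rdist y (γ 0) with hDdef
  have hD0 : 0 ≤ D := hnn _ _
  have hγd : ∀ a b, G.rdist (γ a) (γ b) = |a - b| := dist_eq hMIN hc hN hγ
  have hL1 : ∀ t, 0 ≤ t → t - D ≤ G.rdist y (γ t) := by
    intro t ht
    have h1 := htri (γ 0) y (γ t)
    rw [hγd, hcomm (γ 0) y, zero_sub, abs_neg, abs_of_nonneg ht] at h1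
    linarith
  have hL2 : ∀ t, 0 ≤ t → G.rdist y (γ t) ≤ t + D := by
    intro t ht
    have h1 := htri y (γ 0) (γ t)
    rw [hγd, zero_sub, abs_neg, abs_of_nonneg ht] at h1
    linarith
  refine existsUnique_of_exists_of_unique ?_ ?_
  · -- existence
    obtain ⟨κ, hκ0, hκ⟩ := hκ y
    let L : ℕ → ℝ := fun n => G.rdist y (γ n)
    let u : ℕ → E m := fun n => (L n)⁻¹ • G.lo hc y (γ n)
    obtain ⟨N, hNn⟩ := exists_nat_gt (D + 1)
    have hLpos : ∀ n : ℕ, N ≤ n → 0 < L n := by
      intro n hn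
      have h1 := hL1 n (Nat.cast_nonneg n)
      have h2 : (N : ℝ) ≤ n := by exact_mod_cast hn
      show 0 < G.rdist y (γ n)
      linarith
    have hu1 : ∀ n : ℕ, N ≤ n → G.nrm y (u n) = 1 := by
      intro n hn
      have h0 := hLpos n hn
      show G.nrm y ((L n)⁻¹ • G.lo hc y (γ n)) = 1
      rw [hsm, ← hrd, abs_of_pos (inv_pos.mpr h0)]
      exact inv_mul_cancel₀ h0.ne'
    have hub : ∀ n : ℕ, u (n + N) ∈ Metric.closedBall (0 : E m) κ := by
      intro n
      rw [mem_closedBall_zero_iff]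
      have := hκ (u (n + N))
      rwa [hu1 _ (Nat.le_add_left N n), mul_one] at this
    obtain ⟨v, -, φ, hφ, hlim⟩ := (isCompact_closedBall (0 : E m) κ).tendsto_subseq hub
    have hφN : ∀ n, n ≤ φ n + N := fun n => (hφ.id_le n).trans (Nat.le_add_right _ _)
    have hv1 : G.nrm y v = 1 := by
      have h1 : Continuous fun w => G.nrm y w := hncont.comp (by fun_prop : Continuous fun w : E m => (y, w))
      have h2 := (h1.tendsto v).comp hlim
      refine tendsto_nhds_unique h2 (tendsto_const_nhds.congr fun n => ?_)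
      exact (hu1 _ (Nat.le_add_left N _)).symm
    refine ⟨G.gd hc y v, ⟨G.gd_geo hc y v, ?_⟩, G.gd_zero hc y v, 2 * D, ?_⟩
    · rw [G.gd_zero, G.gd_deriv_zero, hv1]
    · intro t ht
      -- the approximating points
      have hkey : ∀ n : ℕ, N ≤ n → t ≤ n → 0 < (n : ℝ) →
          G.rdist (γ t) (G.ex hc y (t • u n)) ≤ 2 * D := by
        intro n hn htn hn0
        have hLn := hLpos n hn
        set c : ℝ → E m := G.gd hc y (u n) with hcdef
        have hcU : G.Unit1 c := ⟨G.gd_geo hc y _, by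
          rw [hcdef, G.gd_zero, G.gd_deriv_zero, hu1 n hn]⟩
        have hcd := dist_eq hMIN hc hN hcU
        have hc0 : c 0 = y := G.gd_zero hc y _
        have hcL : c (L n) = γ n := by
          rw [hcdef, hgd]
          show G.ex hc y (L n • ((L n)⁻¹ • G.lo hc y (γ n))) = γ n
          rw [smul_smul, mul_inv_cancel₀ hLn.ne', one_smul, hex]
        set s : ℝ := t / n with hs
        have hs0 : 0 ≤ s := div_nonneg ht hn0.le
        have hs1 : s ≤ 1 := (div_le_one hn0).mpr htn
        have hsn : s * n = t := div_mul_cancel₀ _ hn0.ne'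
        have hfan := fan hNPB hc hN hcomm hnn (z := γ n) (y := y) (y' := γ 0)
          (p := c (s * L n)) (p' := γ t) (A := L n) (A' := n) hs0 hs1 hLn hn0
          (by rw [← hc0, hcd, zero_sub, abs_neg, abs_of_nonneg (mul_nonneg hs0 hLn.le)])
          (by
            rw [← hcL, hcd, abs_sub_comm, abs_of_nonneg (by nlinarith)]; ring)
          rfl
          (by rw [hγd, zero_sub, abs_neg, abs_of_nonneg ht, hsn])
          (by
            rw [hγd, abs_sub_comm, abs_of_nonneg (by linarith)]; nlinarith)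
          (by rw [hγd, zero_sub, abs_neg, abs_of_nonneg hn0.le])
        have hfan' : G.rdist (c (s * L n)) (γ t) ≤ D := by
          refine hfan.trans ?_
          have : (1 - s) * D ≤ 1 * D := mul_le_mul_of_nonneg_right (by linarith) hD0
          linarith
        have hsec : G.rdist (c t) (c (s * L n)) ≤ D := by
          rw [hcd]
          have h1 := hL1 n hn0.le
          have h2 := hL2 n hn0.le
          have h3 : t - s * L n = s * (n - L n) := by rw [mul_sub, hsn]
          rw [h3, abs_mul, abs_of_nonneg hs0]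
          have h4 : |(n : ℝ) - L n| ≤ D := abs_le.mpr ⟨by linarith, by linarith⟩
          calc s * |(n : ℝ) - L n| ≤ 1 * D := mul_le_mul hs1 h4 (abs_nonneg _) zero_le_one
            _ = D := one_mul D
        have h5 := htri (c t) (c (s * L n)) (γ t)
        rw [← hgd, hcomm]
        show G.rdist (c t) (γ t) ≤ 2 * D
        linarith
      have hcont : Continuous fun w => G.rdist (γ t) (G.ex hc y (t • w)) := by
        have h1 : Continuous fun z => G.rdist (γ t) z :=
          (hTOP m G hc hN (γ t) Unit ⊥ (fun _ => y)).2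
        exact h1.comp (hexc.comp (continuous_const_smul t))
      have hl := (hcont.tendsto v).comp hlim
      rw [hcomm, hgd]
      refine le_of_tendsto hl ?_
      obtain ⟨N₂, hN₂⟩ := exists_nat_gt (max t 1)
      filter_upwards [eventually_ge_atTop N₂] with k hk
      have h6 : ((N₂ : ℕ) : ℝ) ≤ ((φ k + N : ℕ) : ℝ) := by exact_mod_cast hk.trans (hφN k)
      have h7 := le_max_left t 1
      have h8 := le_max_right t 1
      exact hkey (φ k + N) (Nat.le_add_left _ _) (by linarith) (by linarith)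
  · -- uniqueness
    rintro δ δ' ⟨hδ, hδ0, K, hK⟩ ⟨hδ', hδ0', K', hK'⟩
    have hd1 := dist_eq hMIN hc hN hδ
    have hd2 := dist_eq hMIN hc hN hδ'
    have hXb : ∀ T, 0 ≤ T → G.rdist (δ T) (δ' T) ≤ K + K' := by
      intro T hT
      have h1 := htri (δ T) (γ T) (δ' T)
      have h2 := hK T hT
      have h3 := hK' T hT
      rw [hcomm (γ T)] at h1
      linarith
    have hKK : 0 ≤ K + K' := (hnn _ _).trans (hXb 0 le_rfl)
    have hpt : ∀ t, 0 < t → δ t = δ' t := by
      intro t ht
      apply heq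
      by_contra hne
      have hpos : 0 < G.rdist (δ t) (δ' t) := lt_of_le_of_ne (hnn _ _) (Ne.symm hne)
      set d := G.rdist (δ t) (δ' t) with hd
      set T : ℝ := t * (K + K') / d + t + 1 with hT
      have hq : 0 ≤ t * (K + K') / d := div_nonneg (mul_nonneg ht.le hKK) hpos.le
      have hTt : t ≤ T := by linarith
      have hT0 : 0 < T := by linarith
      set s : ℝ := 1 - t / T with hs
      have hs1 : s ≤ 1 := by
        have : 0 ≤ t / T := div_nonneg ht.le hT0.le
        linarith
      have hs0 : 0 ≤ s := by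
        have : t / T ≤ 1 := (div_le_one hT0).mpr hTt
        linarith
      have h1s : (1 - s) * T = t := by
        rw [hs, sub_sub_cancel, div_mul_cancel₀ _ hT0.ne']
      have hsT : s * T = T - t := by linarith
      have hfan := fan hNPB hc hN hcomm hnn (z := y) (y := δ T) (y' := δ' T)
          (p := δ t) (p' := δ' t) (A := T) (A' := T) hs0 hs1 hT0 hT0
          (by rw [hd1, abs_of_nonneg (by linarith), hsT])
          (by rw [← hδ0, hd1, sub_zero, abs_of_pos ht, h1s])
          (by rw [← hδ0, hd1, sub_zero, abs_of_pos hT0])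
          (by rw [hd2, abs_of_nonneg (by linarith), hsT])
          (by rw [← hδ0', hd2, sub_zero, abs_of_pos ht, h1s])
          (by rw [← hδ0', hd2, sub_zero, abs_of_pos hT0])
      have h9 := hXb T hT0.le
      have h10 : T * d ≤ t * (K + K') := by
        calc T * d ≤ T * ((1 - s) * G.rdist (δ T) (δ' T)) :=
              mul_le_mul_of_nonneg_left hfan hT0.le
          _ = t * G.rdist (δ T) (δ' T) := by rw [← h1s]; ring
          _ ≤ t * (K + K') := mul_le_mul_of_nonneg_left h9 ht.le
      have h11 : T * d = t * (K + K') + (t + 1) * d := by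
        rw [hT]; field_simp; ring
      nlinarith
    apply huniq δ δ' 1 hδ.1 hδ'.1 (hpt 1 one_pos)
    have hev : δ =ᶠ[𝓝 1] δ' := by
      filter_upwards [lt_mem_nhds (one_pos : (0:ℝ) < 1)] with t ht
      exact hpt t ht
    exact hev.deriv_eq

end Pool.Agent.Work.MP_a6f1bd_R
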