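import Pool.Agent.Work.MP_a6f1bd_R.B_ANG
import Pool.Agent.Work.MP_a6f1bd_R.B_BTG
import Pool.Agent.Work.MP_a6f1bd_R.B_BTW
import Pool.Agent.Work.MP_a6f1bd_R.B_CGB
import Pool.Agent.Work.MP_a6f1bd_R.B_CLO
import Pool.Agent.Work.MP_a6f1bd_R.B_CMT
import Pool.Agent.Work.MP_a6f1bd_R.B_COS
import Pool.Agent.Work.MP_a6f1bd_R.B_CPL
import Pool.Agent.Work.MP_a6f1bd_R.B_CRV
import Pool.Agent.Work.MP_a6f1bd_R.B_CSC
import Pool.Agent.Work.MP_a6f1bd_R.B_CSH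
import Pool.Agent.Work.MP_a6f1bd_R.B_CVX
import Pool.Agent.Work.MP_a6f1bd_R.B_DIS
import Pool.Agent.Work.MP_a6f1bd_R.B_EXD
import Pool.Agent.Work.MP_a6f1bd_R.B_FIN
import Pool.Agent.Work.MP_a6f1bd_R.B_FLE
import Pool.Agent.Work.MP_a6f1bd_R.B_FLW
import Pool.Agent.Work.MP_a6f1bd_R.B_FRG
import Pool.Agent.Work.MP_a6f1bd_R.B_FVA
import Pool.Agent.Work.MP_a6f1bd_R.B_GAM
import Pool.Agent.Work.MP_a6f1bd_R.B_GEO
import Pool.Agent.Work.MP_a6f1bd_R.B_GRM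
import Pool.Agent.Work.MP_a6f1bd_R.B_HLO
import Pool.Agent.Work.MP_a6f1bd_R.B_HSP
import Pool.Agent.Work.MP_a6f1bd_R.B_INJ
import Pool.Agent.Work.MP_a6f1bd_R.B_IOT
import Pool.Agent.Work.MP_a6f1bd_R.B_JAC
import Pool.Agent.Work.MP_a6f1bd_R.B_JES
import Pool.Agent.Work.MP_a6f1bd_R.B_LEN
import Pool.Agent.Work.MP_a6f1bd_R.B_LFA
import Pool.Agent.Work.MP_a6f1bd_R.B_LFT
import Pool.Agent.Work.MP_a6f1bd_R.B_LFU
import Pool.Agent.Work.MP_a6f1bd_R.B_LIN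
import Pool.Agent.Work.MP_a6f1bd_R.B_LPF
import Pool.Agent.Work.MP_a6f1bd_R.B_MIN
import Pool.Agent.Work.MP_a6f1bd_R.B_MSP
import Pool.Agent.Work.MP_a6f1bd_R.B_NPB
import Pool.Agent.Work.MP_a6f1bd_R.B_PAR
import Pool.Agent.Work.MP_a6f1bd_R.B_RAY
import Pool.Agent.Work.MP_a6f1bd_R.B_RLN
import Pool.Agent.Work.MP_a6f1bd_R.B_SEC
import Pool.Agent.Work.MP_a6f1bd_R.B_SGB
import Pool.Agent.Work.MP_a6f1bd_R.B_SGM
import Pool.Agent.Work.MP_a6f1bd_R.B_SND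
import Pool.Agent.Work.MP_a6f1bd_R.B_SNH
import Pool.Agent.Work.MP_a6f1bd_R.B_STH
import Pool.Agent.Work.MP_a6f1bd_R.B_STW
import Pool.Agent.Work.MP_a6f1bd_R.B_SYR
import Pool.Agent.Work.MP_a6f1bd_R.B_TOP
import Pool.Agent.Work.MP_a6f1bd_R.B_UPP
import Pool.Agent.Work.MP_a6f1bd_R.B_USD
import Pool.Agent.Work.MP_a6f1bd_R.B_VAR
import Pool.Agent.Work.MP_a6f1bd_R.B_VR2
import Pool.Agent.Work.MP_a6f1bd_R.Third

set_option autoImplicit false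

/-! # Assembly of the blocks -/

namespace Pool.Agent.Work.MP_a6f1bd_R

namespace All

theorem a_LIN : Stmt_LIN := r_LIN
theorem a_LPF : Stmt_LPF := r_LPF
theorem a_USD : Stmt_USD := r_USD
theorem a_FLW : Stmt_FLW := r_FLW a_LIN a_LPF a_USD
theorem a_GAM : Stmt_GAM := r_GAM
theorem a_FLE : Stmt_FLE := r_FLE a_FLW a_GAM
theorem a_RLN : Stmt_RLN := r_RLN
theorem a_CMT : Stmt_CMT := r_CMT a_GAM
theorem a_SYR : Stmt_SYR := r_SYR a_GAM a_RLN a_CMT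
theorem a_JAC : Stmt_JAC := r_JAC a_GAM a_RLN
theorem a_RAY : Stmt_RAY := r_RAY
theorem a_JES : Stmt_JES := r_JES a_GAM a_RLN a_CMT a_SYR a_JAC a_RAY
theorem a_EXD : Stmt_EXD := r_EXD a_FLE a_JES
theorem a_GEO : Stmt_GEO := r_GEO a_GAM a_CMT
theorem a_LFU : Stmt_LFU := r_LFU
theorem a_CSC : Stmt_CSC := r_CSC
theorem a_LFA : Stmt_LFA := r_LFA a_LFU
theorem a_LFT : Stmt_LFT := r_LFT a_EXD a_CSC a_LFU a_LFA
theorem a_INJ : Stmt_INJ := r_INJ a_GEO a_EXD a_LFU a_LFT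
theorem a_CRV : Stmt_CRV := r_CRV a_EXD a_INJ
theorem a_VAR : Stmt_VAR := r_VAR a_CRV
theorem a_VR2 : Stmt_VR2 := r_VR2 a_CRV a_CMT a_GAM
theorem a_PAR : Stmt_PAR := r_PAR a_LIN a_GAM
theorem a_UPP : Stmt_UPP := r_UPP a_GAM a_RLN a_CMT a_SYR a_JAC a_GEO a_PAR
theorem a_LEN : Stmt_LEN := r_LEN a_CSC
theorem a_DIS : Stmt_DIS := r_DIS a_CSC a_GEO a_LFT a_LEN a_INJ
theorem a_SND : Stmt_SND := r_SND a_VAR a_VR2 a_UPP a_GEO a_DIS a_INJ a_CSC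
theorem a_MIN : Stmt_MIN := r_MIN a_CSC a_GEO a_INJ a_DIS
theorem a_FVA : Stmt_FVA := r_FVA a_SND a_MIN a_GEO a_DIS
theorem a_CVX : Stmt_CVX := r_CVX
theorem a_STW : Stmt_STW := r_STW a_SND a_CVX
theorem a_ANG : Stmt_ANG := r_ANG a_FVA a_STW a_MIN a_DIS a_GEO
theorem a_SGM : Stmt_SGM := r_SGM a_CSC a_GEO a_INJ a_DIS a_MIN
theorem a_BTW : Stmt_BTW := r_BTW a_CSC a_INJ a_DIS
theorem a_BTG : Stmt_BTG := r_BTG a_SGM a_MIN a_GEO a_INJ a_DIS a_BTW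
theorem a_CSH : Stmt_CSH := r_CSH
theorem a_SNH : Stmt_SNH := r_SNH
theorem a_STH : Stmt_STH := r_STH a_SND a_CSH a_SNH a_MIN a_DIS
theorem a_CGB : Stmt_CGB := r_CGB a_BTG a_STH a_DIS
theorem a_TOP : Stmt_TOP := r_TOP a_CSC a_EXD a_INJ a_DIS
theorem a_CLO : Stmt_CLO := r_CLO a_TOP a_DIS
theorem a_COS : Stmt_COS := r_COS a_FVA a_STW a_MIN a_DIS a_GEO
theorem a_CPL : Stmt_CPL := r_CPL a_CSC a_EXD a_INJ a_DIS a_TOP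
theorem a_NPB : Stmt_NPB := r_NPB a_BTG a_STW a_DIS
theorem a_MSP : Stmt_MSP := r_MSP a_DIS a_CPL a_SGM a_MIN a_NPB a_CGB
theorem a_SGB : Stmt_SGB := r_SGB a_MIN a_BTG a_DIS a_GEO
theorem a_FRG : Stmt_FRG := r_FRG a_MSP a_CLO a_SGB a_MIN a_ANG
theorem a_HLO : Stmt_HLO := r_HLO
theorem a_GRM : Stmt_GRM := r_GRM a_COS a_HLO a_SGM a_MIN a_SGB a_DIS a_INJ
theorem a_HSP : Stmt_HSP := r_HSP
theorem a_IOT : Stmt_IOT := r_IOT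
theorem a_FIN : Stmt_FIN := r_FIN a_FRG a_GRM a_HSP a_IOT a_INJ a_SGB
theorem a_SEC : Stmt_SEC := r_SEC a_GAM a_RLN a_SYR

end All

end Pool.Agent.Work.MP_a6f1bd_R
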