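import Pool.Agent.Work.MP_a6f1bd_R.Interface2

set_option autoImplicit false

/-! # Block ANG: the angle -/

namespace Pool.Agent.Work.MP_a6f1bd_R

open Real Filter Topology Set
open scoped ContDiff
open Pool.Agent.Work.MP_a6f1bd_gt

namespace X_ANG

/-- the algebra behind the monotonicity of the comparison angle -/
theorem alg {s s' t d d' : ℝ} (hs : 0 < s) (hs' : 0 < s') (ht : 0 < t)
    (h : s' * d ^ 2 ≤ (s' - s) * t ^ 2 + s * d' ^ 2 - s * (s' - s) * s') :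
    (s' ^ 2 + t ^ 2 - d' ^ 2) / (2 * s' * t) ≤ (s ^ 2 + t ^ 2 - d ^ 2) / (2 * s * t) := by
  rw [div_le_div_iff₀ (by positivity) (by positivity)]
  nlinarith [mul_le_mul_of_nonneg_left h (show (0 : ℝ) ≤ 2 * t by positivity)]

/-- the comparison angle is monotone, first variable -/
theorem mono1 (hSTW : Stmt_STW) (hMIN : Stmt_MIN) (hDIS : Stmt_DIS) {m : ℕ} (G : RMetric m)
    (hc : G.Complete) (hN : G.Npc) (c₁ c₂ : ℝ → E m) (h1 : G.Unit1 c₁) (h2 : G.Unit1 c₂)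
    (h0 : c₁ 0 = c₂ 0) (s s' t : ℝ) (hs : 0 < s) (hss : s ≤ s') (ht : 0 < t) :
    (s' ^ 2 + t ^ 2 - G.rdist (c₁ s') (c₂ t) ^ 2) / (2 * s' * t) ≤
      (s ^ 2 + t ^ 2 - G.rdist (c₁ s) (c₂ t) ^ 2) / (2 * s * t) := by
  obtain ⟨-, -, -, hcomm, -, -, -, -⟩ := hDIS m G hc hN
  have h3 := hSTW m G hc hN (c₂ t) c₁ h1 s s' hs.le hss
  have h4 : G.rdist (c₂ t) (c₁ 0) = t := by
    rw [h0, (hMIN m G hc hN c₂ h2.1 t 0).2, h2.2, mul_one, sub_zero, abs_of_pos ht]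
  rw [h4, hcomm (c₂ t) (c₁ s), hcomm (c₂ t) (c₁ s')] at h3
  exact alg hs (hs.trans_le hss) ht h3

/-- the comparison angle is monotone, second variable -/
theorem mono2 (hSTW : Stmt_STW) (hMIN : Stmt_MIN) (hDIS : Stmt_DIS) {m : ℕ} (G : RMetric m)
    (hc : G.Complete) (hN : G.Npc) (c₁ c₂ : ℝ → E m) (h1 : G.Unit1 c₁) (h2 : G.Unit1 c₂)
    (h0 : c₁ 0 = c₂ 0) (s t t' : ℝ) (hs : 0 < s) (ht : 0 < t) (htt : t ≤ t') :
    (s ^ 2 + t' ^ 2 - G.rdist (c₁ s) (c₂ t') ^ 2) / (2 * s * t') ≤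
      (s ^ 2 + t ^ 2 - G.rdist (c₁ s) (c₂ t) ^ 2) / (2 * s * t) := by
  obtain ⟨-, -, -, hcomm, -, -, -, -⟩ := hDIS m G hc hN
  have h3 := mono1 hSTW hMIN hDIS G hc hN c₂ c₁ h2 h1 h0.symm t t' s ht htt hs
  rw [hcomm (c₂ t') (c₁ s), hcomm (c₂ t) (c₁ s)] at h3
  have e1 : ∀ a d : ℝ, (a ^ 2 + s ^ 2 - d) / (2 * a * s) = (s ^ 2 + a ^ 2 - d) / (2 * s * a) := by
    intro a d
    rw [add_comm (a ^ 2), mul_right_comm]
  rw [e1, e1] at h3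
  exact h3

end X_ANG

theorem r_ANG (hFVA : Stmt_FVA) (hSTW : Stmt_STW) (hMIN : Stmt_MIN) (hDIS : Stmt_DIS)
    (_hGEO : Stmt_GEO) : Stmt_ANG := by
  intro m G hc hN c₁ c₂ h1 h2 h0
  set κ := G.g (c₁ 0) (deriv c₁ 0) (deriv c₂ 0) with hκ
  have hF := hFVA m G hc hN c₁ c₂ h1 h2 h0
  have m1 := X_ANG.mono1 hSTW hMIN hDIS G hc hN c₁ c₂ h1 h2 h0
  have m2 := X_ANG.mono2 hSTW hMIN hDIS G hc hN c₁ c₂ h1 h2 h0
  have hpos : ∀ᶠ s : ℝ in 𝓝[>] 0, 0 < s := eventually_mem_nhdsWithin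
  -- the comparison cosine is at most `κ`
  have hle : ∀ s t : ℝ, 0 < s → 0 < t →
      (s ^ 2 + t ^ 2 - G.rdist (c₁ s) (c₂ t) ^ 2) / (2 * s * t) ≤ κ := by
    intro s t hs ht
    refine ge_of_tendsto (hF t ht) ?_
    have h3 : ∀ᶠ s' : ℝ in 𝓝[>] 0, s' ≤ s := nhdsWithin_le_nhds (Iic_mem_nhds hs)
    filter_upwards [hpos, h3] with s' h4 h5
    exact m1 s' s t h4 h5 ht
  have hlim : Tendsto (fun s : ℝ × ℝ =>
      (s.1 ^ 2 + s.2 ^ 2 - G.rdist (c₁ s.1) (c₂ s.2) ^ 2) / (2 * s.1 * s.2))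
      (𝓝[>] 0 ×ˢ 𝓝[>] 0) (𝓝 κ) := by
    rw [tendsto_order]
    constructor
    · intro a ha
      have h3 := (tendsto_order.1 (hF 1 one_pos)).1 a ha
      obtain ⟨s₀, h4, h5⟩ := (h3.and hpos).exists
      have h6 : ∀ᶠ s : ℝ in 𝓝[>] 0, s ≤ s₀ := nhdsWithin_le_nhds (Iic_mem_nhds h5)
      have h7 : ∀ᶠ t : ℝ in 𝓝[>] 0, t ≤ 1 := nhdsWithin_le_nhds (Iic_mem_nhds one_pos)
      filter_upwards [(hpos.and h6).prod_mk (hpos.and h7)] with s hs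
      obtain ⟨⟨h8, h9⟩, h10, h11⟩ := hs
      exact h4.trans_le ((m2 s₀ s.2 1 h5 h10 h11).trans (m1 s.1 s₀ s.2 h8 h9 h10))
    · intro b hb
      filter_upwards [hpos.prod_mk hpos] with s hs
      exact (hle s.1 s.2 hs.1 hs.2).trans_lt hb
  have hang : G.angle (c₁ 0) (deriv c₁ 0) (deriv c₂ 0) = arccos κ := by
    unfold RMetric.angle
    have h3 : G.nrm (c₁ 0) (deriv c₂ 0) = 1 := by
      rw [h0]
      exact h2.2
    rw [h1.2, h3, mul_one, div_one]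
  rw [hang]
  exact (continuous_arccos.tendsto κ).comp hlim

end Pool.Agent.Work.MP_a6f1bd_R
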