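import Pool.Agent.Work.MP_a6f1bd_R.Interface2

set_option autoImplicit false

/-! # Block CSH -/

namespace Pool.Agent.Work.MP_a6f1bd_R

open Real Filter Topology Set
open scoped ContDiff

namespace X_CSH

theorem rho_deriv (ρ f₁ : ℝ → ℝ) (h0 : ∀ t, 0 < ρ t)
    (h1 : ∀ t, HasDerivAt (fun τ => ρ τ ^ 2 / 2) (f₁ t) t) (t : ℝ) :
    HasDerivAt ρ (f₁ t / ρ t) t := by
  have h2 : HasDerivAt (fun τ => 2 * (ρ τ ^ 2 / 2)) (2 * f₁ t) t := (h1 t).const_mul 2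
  have h3 : (2 : ℝ) * (ρ t ^ 2 / 2) ≠ 0 := by
    have := h0 t
    positivity
  have h4 := h2.sqrt h3
  have h5 : (fun τ => √(2 * (ρ τ ^ 2 / 2))) = ρ := by
    funext τ
    rw [show (2 : ℝ) * (ρ τ ^ 2 / 2) = ρ τ ^ 2 by ring, Real.sqrt_sq (h0 τ).le]
  rw [h5] at h4
  have h6 : √(2 * (ρ t ^ 2 / 2)) = ρ t := congrFun h5 t
  rw [h6] at h4
  convert h4 using 1
  have := (h0 t).ne'
  field_simp

end X_CSH

theorem r_CSH : Stmt_CSH := by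
  intro ρ f₁ f₂ h0 h1 h2 h3
  have hρ := X_CSH.rho_deriv ρ f₁ h0 h1
  refine ⟨fun t => sinh (ρ t) * (f₁ t / ρ t),
    fun t => cosh (ρ t) * (f₁ t / ρ t) * (f₁ t / ρ t) +
      sinh (ρ t) * ((f₂ t * ρ t - f₁ t * (f₁ t / ρ t)) / ρ t ^ 2), ?_, ?_, ?_⟩
  · intro t
    exact (hρ t).cosh
  · intro t
    exact (hρ t).sinh.mul ((h2 t).div (hρ t) (h0 t).ne')
  · intro t
    have hp := h0 t
    have hs : 0 < sinh (ρ t) := Real.sinh_pos_iff.2 hp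
    have h4 := h3 t
    show cosh (ρ t) * (f₁ t / ρ t) * (f₁ t / ρ t) +
      sinh (ρ t) * ((f₂ t * ρ t - f₁ t * (f₁ t / ρ t)) / ρ t ^ 2) ≤ cosh (ρ t)
    set p := f₁ t / ρ t with hpdef
    have e1 : f₁ t = p * ρ t := by rw [hpdef]; field_simp
    have e2 : sinh (ρ t) * ((f₂ t * ρ t - f₁ t * p) / ρ t ^ 2) =
        sinh (ρ t) / ρ t * (f₂ t - p ^ 2) := by
      rw [e1]; field_simp
    rw [e2]
    have h5 : sinh (ρ t) / ρ t * (f₂ t - p ^ 2) ≤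
        sinh (ρ t) / ρ t * ((1 - p ^ 2) * (ρ t * cosh (ρ t) / sinh (ρ t))) :=
      mul_le_mul_of_nonneg_left (by linarith) (by positivity)
    have h6 : sinh (ρ t) / ρ t * ((1 - p ^ 2) * (ρ t * cosh (ρ t) / sinh (ρ t))) =
        (1 - p ^ 2) * cosh (ρ t) := by
      field_simp
    rw [h6] at h5
    nlinarith [h5]

end Pool.Agent.Work.MP_a6f1bd_R
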