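import Pool.Agent.Work.MP_a6f1bd_R.Interface2

set_option autoImplicit false
set_option maxSynthPendingDepth 3

/-! Block GRM: the logarithms have the same Gram matrix. -/

namespace Pool.Agent.Work.MP_a6f1bd_R

open Real Filter Topology Set
open scoped ContDiff
open Pool.Agent.Work.MP_a6f1bd_gt

namespace GRM_X

theorem hlog_zero {m : ℕ} (y p : Hyp m) (h : dist y p = 0) : hlog y p = 0 := by
  unfold hlog
  rw [h, zero_div, zero_smul]

/-- The point of `T₁` which corresponds to the point at the time `s` of the geodesic. -/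
theorem pt {m : ℕ} {G : RMetric m} (hc : G.Complete) (hN : G.Npc) (hMIN : Stmt_MIN)
    (hSGB : Stmt_SGB) {T : Set (E m)} {y : E m} {y₁ : Hyp m} {T₁ : Set (Hyp m)}
    {Φ : Hyp m → E m} (hΦ : BijOn Φ T₁ T) (hy₁ : y₁ ∈ T₁) (hΦy : Φ y₁ = y)
    (hseg : ∀ p ∈ T, G.seg y p ⊆ T)
    (hd : ∀ p ∈ T₁, ∀ q ∈ T₁, G.rdist (Φ p) (Φ q) = dist p q)
    {p : Hyp m} (hp : p ∈ T₁) {c : ℝ → E m} (hU : G.Unit1 c) (h0 : c 0 = y)
    (ha : c (dist y₁ p) = Φ p) {s : ℝ} (hs : 0 < s) (hsa : s < dist y₁ p) :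
    ∃ p' ∈ T₁, Φ p' = c s ∧ dist y₁ p' = s ∧ Btw y₁ p' p := by
  have hM : ∀ a b, G.rdist (c a) (c b) = |a - b| := by
    intro a b
    have := (hMIN m G hc hN c hU.1 a b).2
    rw [hU.2, mul_one] at this
    exact this
  have e1 : G.rdist y (c s) = s := by
    have := hM 0 s
    rw [h0, zero_sub, abs_neg, abs_of_pos hs] at this
    exact this
  have e2 : G.rdist (c s) (Φ p) = dist y₁ p - s := by
    have := hM s (dist y₁ p)
    rw [ha, abs_of_neg (by linarith), neg_sub] at this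
    exact this
  have e3 : G.rdist y (Φ p) = dist y₁ p := by
    rw [← hΦy]; exact hd y₁ hy₁ p hp
  have hmem : c s ∈ T := by
    apply hseg (Φ p) (hΦ.mapsTo hp)
    rw [hSGB m G hc hN y (Φ p)]
    change G.rdist y (c s) + G.rdist (c s) (Φ p) = G.rdist y (Φ p)
    rw [e1, e2, e3]; ring
  obtain ⟨p', hp', hp's⟩ := hΦ.surjOn hmem
  have f1 : dist y₁ p' = s := by
    rw [← hd y₁ hy₁ p' hp', hΦy, hp's, e1]
  have f2 : dist p' p = dist y₁ p - s := by
    rw [← hd p' hp' p hp, hp's, e2]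
  refine ⟨p', hp', hp's, f1, ?_⟩
  change dist y₁ p' + dist p' p = dist y₁ p
  rw [f1, f2]; ring

end GRM_X

open GRM_X in
theorem r_GRM (hCOS : Stmt_COS) (hHLO : Stmt_HLO) (hSGM : Stmt_SGM) (hMIN : Stmt_MIN)
    (hSGB : Stmt_SGB) (hDIS : Stmt_DIS) (hINJ : Stmt_INJ) : Stmt_GRM := by
  intro m G hc hN T y y₁ T₁ Φ hΦ hy₁ hΦy hseg hd p hp q hq
  have hlo0 : G.lo hc y y = 0 := (hINJ m G hc hN y).2.2.2.2.1
  have hdist : ∀ p ∈ T₁, G.rdist y (Φ p) = dist y₁ p := by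
    intro p hp
    rw [← hΦy]; exact hd y₁ hy₁ p hp
  have hself : ∀ p ∈ T₁, dist y₁ p = 0 → Φ p = y := by
    intro p _ h0
    rw [← eq_of_dist_eq_zero h0, hΦy]
  rcases (dist_nonneg (x := y₁) (y := p)).eq_or_lt with hp0 | hp0
  · rw [hself p hp hp0.symm, hlo0, hlog_zero y₁ p hp0.symm, map_zero]
    have : lor (0 : ℝ × EuclideanSpace ℝ (Fin m)) (hlog y₁ q) = 0 := by
      have := lor_smul_left (0 : ℝ) (0 : ℝ × EuclideanSpace ℝ (Fin m)) (hlog y₁ q)
      rw [zero_smul, zero_mul] at this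
      exact this
    rw [this]; simp
  rcases (dist_nonneg (x := y₁) (y := q)).eq_or_lt with hq0 | hq0
  · rw [hself q hq hq0.symm, hlo0, hlog_zero y₁ q hq0.symm, map_zero]
    have : lor (hlog y₁ p) (0 : ℝ × EuclideanSpace ℝ (Fin m)) = 0 := by
      have := lor_smul_right (0 : ℝ) (hlog y₁ p) (0 : ℝ × EuclideanSpace ℝ (Fin m))
      rw [zero_smul, zero_mul] at this
      exact this
    rw [this]; simp
  have hne : ∀ p ∈ T₁, 0 < dist y₁ p → y ≠ Φ p := by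
    intro p hp h0 he
    have := hdist p hp
    rw [← he, (hDIS m G hc hN).2.2.2.2.1 y] at this
    linarith
  obtain ⟨c₁, hU₁, h10, h1a, -⟩ := hSGM m G hc hN y (Φ p) (hne p hp hp0)
  obtain ⟨c₂, hU₂, h20, h2b, -⟩ := hSGM m G hc hN y (Φ q) (hne q hq hq0)
  rw [hdist p hp] at h1a
  rw [hdist q hq] at h2b
  have l1 : G.lo hc y (Φ p) = dist y₁ p • deriv c₁ 0 := by
    have := (hMIN m G hc hN c₁ hU₁.1 0 (dist y₁ p)).1
    rw [h10, h1a, sub_zero] at this
    exact this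
  have l2 : G.lo hc y (Φ q) = dist y₁ q • deriv c₂ 0 := by
    have := (hMIN m G hc hN c₂ hU₂.1 0 (dist y₁ q)).1
    rw [h20, h2b, sub_zero] at this
    exact this
  have hκ : G.g (c₁ 0) (deriv c₁ 0) (deriv c₂ 0) =
      CC (dist y₁ p) (dist y₁ q) (dist p q) := by
    refine hCOS m G hc hN c₁ c₂ hU₁ hU₂ (h10.trans h20.symm) (min (dist y₁ p) (dist y₁ q))
      _ (lt_min hp0 hq0) ?_
    intro s hs hsm
    obtain ⟨p', hp', hp's, f1, b1⟩ := pt hc hN hMIN hSGB hΦ hy₁ hΦy hseg hd hp hU₁ h10 h1a hs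
      (lt_of_lt_of_le hsm (min_le_left _ _))
    obtain ⟨q', hq', hq's, f2, b2⟩ := pt hc hN hMIN hSGB hΦ hy₁ hΦy hseg hd hq hU₂ h20 h2b hs
      (lt_of_lt_of_le hsm (min_le_right _ _))
    rw [← hp's, ← hq's, hd p' hp' q' hq']
    have k1 := Hyp.CC_eq b1 (q := q') (by rw [f1]; exact hs) (by rw [f2]; exact hs)
    have k2 := Hyp.CC_eq b2 (q := p) (by rw [f2]; exact hs) hp0
    rw [f1, f2] at k1
    rw [f2, CC_comm s (dist y₁ p), CC_comm (dist y₁ q) (dist y₁ p), dist_comm q' p,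
      dist_comm q p] at k2
    rw [← k2, ← k1]
    unfold CC
    have hsp : 0 < sinh s := sinh_pos_iff.mpr hs
    field_simp
    ring
  rw [h10] at hκ
  rw [l1, l2, map_smul, map_smul, smul_apply, hκ, (hHLO m y₁ p q).2]
  have s1 : 0 < sinh (dist y₁ p) := sinh_pos_iff.mpr hp0
  have s2 : 0 < sinh (dist y₁ q) := sinh_pos_iff.mpr hq0
  unfold CC
  simp only [smul_eq_mul]
  field_simp
  ring

end Pool.Agent.Work.MP_a6f1bd_R
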