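import Pool.Agent.Work.MP_a6f1bd_R.Interface1

set_option autoImplicit false

/-! # Block LIN: linear differential equations have solutions on the whole interval -/

namespace Pool.Agent.Work.MP_a6f1bd_R

open Real Filter Topology Set
open scoped ContDiff NNReal

namespace X_LIN

theorem cutoff (W : Type) [NormedAddCommGroup W] [NormedSpace ℝ W] [FiniteDimensional ℝ W]
    (R : ℝ) (hR : 0 < R) : ∃ χ : W → W, (∀ y, ‖y‖ ≤ R → χ y = y) ∧ (∀ y, ‖χ y‖ ≤ ‖y‖) ∧
      (∀ y, ‖χ y‖ ≤ 2 * R) ∧ ∃ L : ℝ≥0, LipschitzWith L χ := by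
  let ρ : ContDiffBump (0 : W) := ⟨R, 2 * R, hR, by linarith⟩
  have h1 : ∀ y, ‖ρ y • y‖ ≤ ‖y‖ := by
    intro y
    rw [norm_smul, Real.norm_of_nonneg ρ.nonneg]
    exact mul_le_of_le_one_left (norm_nonneg _) ρ.le_one
  refine ⟨fun y => ρ y • y, ?_, h1, ?_, ?_⟩
  · intro y hy
    have : ρ y = 1 := ρ.one_of_mem_closedBall (by simpa using hy)
    simp [this]
  · intro y
    by_cases hy : ‖y‖ ≤ 2 * R
    · exact (h1 y).trans hy
    · have : ρ y = 0 := ρ.zero_of_le_dist (by
        rw [dist_zero_right]; exact (not_le.1 hy).le)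
      simp only [this, zero_smul, norm_zero]
      linarith
  · have hc : ContDiff ℝ 1 (fun y : W => ρ y • y) := ρ.contDiff.smul contDiff_id
    have hs : HasCompactSupport (fun y : W => ρ y • y) := ρ.hasCompactSupport.smul_right
    exact hc.lipschitzWith_of_hasCompactSupport hs (by norm_num)

end X_LIN

theorem r_LIN : Stmt_LIN := by
  intro W _ _ _ A hA t0 ht0 w
  obtain ⟨ht1, ht2⟩ := ht0
  obtain ⟨M, hM1, hM⟩ : ∃ M : ℝ, 1 ≤ M ∧ ∀ t ∈ Icc (-2 : ℝ) 3, ‖A t‖ ≤ M := by
    obtain ⟨C, hC⟩ := (isCompact_Icc (a := (-2 : ℝ)) (b := 3)).exists_bound_of_continuousOn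
      hA.continuousOn
    exact ⟨max C 1, le_max_right _ _, fun t ht => (hC t ht).trans (le_max_left _ _)⟩
  have hM0 : 0 ≤ M := by linarith
  set R : ℝ := (‖w‖ + 1) * exp (5 * M) with hRdef
  have hR : 0 < R := by positivity
  obtain ⟨χ, hχ1, hχ2, hχ3, L0, hL0⟩ := X_LIN.cutoff W R hR
  set L : ℝ≥0 := ⟨M * (2 * R), by positivity⟩ with hL
  have hPL : IsPicardLindelof (fun t y => A t (χ y)) (tmin := -2) (tmax := 3)
      ⟨t0, by constructor <;> linarith⟩ w (5 * L) 0 L (⟨M, hM0⟩ * L0) := by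
    refine ⟨?_, ?_, ?_, ?_⟩
    · intro t ht
      have h1 : LipschitzWith ⟨M, hM0⟩ (A t) :=
        (A t).lipschitz.weaken (by rw [← NNReal.coe_le_coe]; exact hM t ht)
      exact (h1.comp hL0).lipschitzOnWith
    · intro x _
      exact (hA.clm_apply continuous_const).continuousOn
    · intro t ht x _
      exact ((A t).le_opNorm _).trans (mul_le_mul (hM t ht) (hχ3 x) (norm_nonneg _) hM0)
    · have h1 : max ((3 : ℝ) - t0) (t0 - (-2)) ≤ 5 := max_le (by linarith) (by linarith)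
      have h2 : (0 : ℝ) ≤ L := L.2
      have h3 : (L : ℝ) * max ((3 : ℝ) - t0) (t0 - (-2)) ≤ L * 5 :=
        mul_le_mul_of_nonneg_left h1 h2
      push_cast
      linarith
  obtain ⟨y, hy0, hy⟩ := hPL.exists_eq_forall_mem_Icc_hasDerivWithinAt₀
  have hy0' : y t0 = w := hy0
  have hcont : ContinuousOn y (Icc (-2) 3) := fun t ht => (hy t ht).continuousWithinAt
  have hder : ∀ t ∈ Ioo (-2 : ℝ) 3, HasDerivAt y (A t (χ (y t))) t := fun t ht =>
    (hy t ⟨ht.1.le, ht.2.le⟩).hasDerivAt (Icc_mem_nhds ht.1 ht.2)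
  have hbd : ∀ t ∈ Icc (-2 : ℝ) 3, ‖A t (χ (y t))‖ ≤ M * ‖y t‖ := fun t ht =>
    ((A t).le_opNorm _).trans (mul_le_mul (hM t ht) (hχ2 _) (norm_nonneg _) hM0)
  have hexp : ∀ s : ℝ, s ≤ 5 → ‖w‖ * exp (M * s) ≤ R := by
    intro s hs
    rw [hRdef]
    refine mul_le_mul (by linarith) ?_ (exp_pos _).le (by positivity)
    rw [exp_le_exp]
    nlinarith
  have key : ∀ t ∈ Ioo (-1 : ℝ) 2, ‖y t‖ ≤ R := by
    intro t ht
    rcases le_total t0 t with h | h
    · have h1 := norm_le_gronwallBound_of_norm_deriv_right_le (f := y)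
        (f' := fun t => A t (χ (y t))) (δ := ‖w‖) (K := M) (ε := 0) (a := t0) (b := t)
        (hcont.mono (Icc_subset_Icc (by linarith) (by linarith [ht.2])))
        (fun x hx => (hder x ⟨by linarith [hx.1], by linarith [hx.2, ht.2]⟩).hasDerivWithinAt)
        (by rw [hy0'])
        (fun x hx => by
          rw [add_zero]
          exact hbd x ⟨by linarith [hx.1], by linarith [hx.2, ht.2]⟩) t ⟨h, le_rfl⟩
      rw [gronwallBound_ε0] at h1
      exact h1.trans (hexp _ (by linarith [ht.2]))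
    · have h1 := norm_le_gronwallBound_of_norm_deriv_right_le (f := fun s => y (t0 - s))
        (f' := fun s => -(A (t0 - s) (χ (y (t0 - s))))) (δ := ‖w‖) (K := M) (ε := 0) (a := 0)
        (b := t0 - t)
        (hcont.comp (continuous_const.sub continuous_id).continuousOn (fun s hs =>
          ⟨by linarith [hs.2, ht.1], by linarith [hs.1]⟩))
        (fun s hs => ((hder (t0 - s) ⟨by linarith [hs.2, ht.1], by
          linarith [hs.1]⟩).comp_const_sub t0 s).hasDerivWithinAt)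
        (by rw [sub_zero, hy0'])
        (fun s hs => by
          rw [add_zero, norm_neg]
          exact hbd _ ⟨by linarith [hs.2, ht.1], by linarith [hs.1]⟩) (t0 - t)
          ⟨by linarith, le_rfl⟩
      rw [gronwallBound_ε0, sub_zero] at h1
      simp only [sub_sub_cancel] at h1
      exact h1.trans (hexp _ (by linarith [ht.1]))
  refine ⟨y, hy0', fun t ht => ?_⟩
  have h1 := hder t ⟨by linarith [ht.1], by linarith [ht.2]⟩
  rwa [hχ1 _ (key t ht)] at h1

end Pool.Agent.Work.MP_a6f1bd_R
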