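import Pool.Agent.Work.MP_a6f1bd_R.Interface2

set_option autoImplicit false

/-!
# Riemannian metrics on `ℝ^m`, block SND: the second derivative of the distance
-/

namespace Pool.Agent.Work.MP_a6f1bd_R

open Real Filter Topology Set
open scoped ContDiff
open Pool.Agent.Work.MP_a6f1bd_gt

theorem r_SND (hVAR : Stmt_VAR) (hVR2 : Stmt_VR2) (hUPP : Stmt_UPP) (hGEO : Stmt_GEO)
    (hDIS : Stmt_DIS) (hINJ : Stmt_INJ) (hCSC : Stmt_CSC) : Stmt_SND := by
  intro m G hc hN q c hc1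
  obtain ⟨hgeo, hunit⟩ := hc1
  obtain ⟨-, -, -, -, -, -, -, hsq⟩ := hCSC m G
  obtain ⟨-, -, -, -, hspeed⟩ := hGEO m G
  obtain ⟨-, hd, -⟩ := hDIS m G hc hN
  obtain ⟨hex, -⟩ := hINJ m G hc hN q
  have hV2 := hVR2 m G hc hN q c hgeo
  choose J V hvar hJ0 hJ1 hder hlow using hV2
  have hnn : ∀ t, G.g (c t) (deriv c t) (deriv c t) = 1 := by
    intro t
    rw [← (hsq (c t) (deriv c t)).2, hspeed c hgeo t 0, hunit, one_pow]
  have hr2 : ∀ x, G.rdist q x ^ 2 = G.g q (G.lo hc q x) (G.lo hc q x) := by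
    intro x
    rw [hd, (hsq q _).2]
  refine ⟨fun t => G.g (c t) (deriv (G.gd hc q (G.lo hc q (c t))) 1) (deriv c t),
    fun t => G.g (c t) (J t 1)
          (G.cov (c t) (deriv (G.gd hc q (G.lo hc q (c t))) 1) (J t 1) (V t 1)), ?_, ?_, ?_, ?_, ?_⟩
  · intro t
    have h := hVAR m G hc hN q c (deriv c t) t (hgeo t).1
    refine h.congr_of_eventuallyEq (Filter.Eventually.of_forall fun τ => ?_)
    show G.rdist q (c τ) ^ 2 / 2 = _
    rw [hr2]
  · intro t
    exact hder t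
  · intro t
    have := hlow t
    rw [hnn t] at this
    exact this
  · intro t; rfl
  · intro hC t hpos
    have hgd := G.gd_geo hc q (G.lo hc q (c t))
    have h1 : G.gd hc q (G.lo hc q (c t)) 1 = c t := hex (c t)
    have h0 : G.gd hc q (G.lo hc q (c t)) 0 = q := G.gd_zero hc _ _
    have h0' : deriv (G.gd hc q (G.lo hc q (c t))) 0 = G.lo hc q (c t) := G.gd_deriv_zero hc _ _
    have hsp := hspeed _ hgd 1 0
    rw [h1, h0, h0', ← hd] at hsp
    have hr : G.g (G.gd hc q (G.lo hc q (c t)) 1) (deriv (G.gd hc q (G.lo hc q (c t))) 1)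
        (deriv (G.gd hc q (G.lo hc q (c t))) 1) = G.rdist q (c t) ^ 2 := by
      rw [h1, ← (hsq (c t) _).2, hsp]
    have h := hUPP m G hN hC _ hgd (J t) (V t) (hvar t) (hJ0 t) (G.rdist q (c t)) hpos hr
    rw [h1, hJ1 t, hnn t,
      G.symm (c t) (deriv c t) (deriv (G.gd hc q (G.lo hc q (c t))) 1)] at h
    simp only
    rw [hJ1 t]
    exact h

end Pool.Agent.Work.MP_a6f1bd_R
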