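import Pool.Agent.Work.MP_a6f1bd_gt.Main

set_option autoImplicit false

/-!
# Riemannian metrics on `ℝ^m`: definitions

Metric tensor, Christoffel symbols, curvature tensor, sectional curvature, geodesics, completeness,
length, distance, angle.
-/

namespace Pool.Agent.Work.MP_a6f1bd_R

open Real Filter Topology Set
open scoped ContDiff

/-- The coordinate space `ℝ^m`. -/
abbrev E (m : ℕ) := EuclideanSpace ℝ (Fin m)

/-- A smooth Riemannian metric on `ℝ^m`: an inner product `g x` on the tangent space at each point
`x`, depending smoothly on `x`. -/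
structure RMetric (m : ℕ) where
  /-- the metric tensor -/
  g : E m → E m →L[ℝ] E m →L[ℝ] ℝ
  smooth : ContDiff ℝ ∞ g
  symm : ∀ x v w, g x v w = g x w v
  pos : ∀ x v, v ≠ 0 → 0 < g x v v

namespace RMetric

variable {m : ℕ} (G : RMetric m)

/-- The length of a tangent vector. -/
noncomputable def nrm (x v : E m) : ℝ := √(G.g x v v)

/-- The linear form `w ↦ (∂_u g(v, w) + ∂_v g(u, w) - ∂_w g(u, v)) / 2` at `x`. -/
noncomputable def kos (x u v : E m) : E m →L[ℝ] ℝ :=
  (1 / 2 : ℝ) • (fderiv ℝ G.g x u v + fderiv ℝ G.g x v u - ((fderiv ℝ G.g x).flip u).flip v)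

/-- The Christoffel symbols of the Levi-Civita connection: `Γ(u, v)` is the vector with
`g(Γ(u, v), w) = (∂_u g(v, w) + ∂_v g(u, w) - ∂_w g(u, v)) / 2` for all `w`. -/
noncomputable def Gam (x u v : E m) : E m := (G.g x).inverse (G.kos x u v)

/-- The Riemann curvature tensor `R(u, v) w = ∇_u ∇_v w - ∇_v ∇_u w` (`u, v, w` constant vector
fields). -/
noncomputable def Rm (x u v w : E m) : E m :=
  fderiv ℝ (fun y => G.Gam y v w) x u - fderiv ℝ (fun y => G.Gam y u w) x v
    + G.Gam x u (G.Gam x v w) - G.Gam x v (G.Gam x u w)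

/-- The sectional curvature of the plane spanned by `u` and `v` at `x`. -/
noncomputable def sec (x u v : E m) : ℝ :=
  G.g x (G.Rm x u v v) u / (G.g x u u * G.g x v v - G.g x u v ^ 2)

/-- `c` is a geodesic, defined for all times: `c'' = - Γ(c', c')`. -/
def IsGeodesic (c : ℝ → E m) : Prop :=
  ∀ t, HasDerivAt c (deriv c t) t ∧
    HasDerivAt (deriv c) (-G.Gam (c t) (deriv c t) (deriv c t)) t

/-- The metric is (geodesically) complete: all geodesics are defined for all times. -/
def Complete : Prop := ∀ x v : E m, ∃ c : ℝ → E m, G.IsGeodesic c ∧ c 0 = x ∧ deriv c 0 = v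

/-- The length of the curve `c` on `[0, 1]`. -/
noncomputable def length (c : ℝ → E m) : ℝ := ∫ t in (0 : ℝ)..1, G.nrm (c t) (deriv c t)

/-- The Riemannian distance: the infimum of the lengths of the curves from `p` to `q`. -/
noncomputable def rdist (p q : E m) : ℝ :=
  sInf {L : ℝ | ∃ c : ℝ → E m, ContDiff ℝ 1 c ∧ c 0 = p ∧ c 1 = q ∧ L = G.length c}

/-- The angle between two tangent vectors at `x`. -/
noncomputable def angle (x u v : E m) : ℝ := arccos (G.g x u v / (G.nrm x u * G.nrm x v))

/-- All sectional curvatures are at most `0`, in polynomial form. -/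
def Npc : Prop := ∀ x u v : E m, G.g x (G.Rm x u v v) u ≤ 0

/-- All sectional curvatures are at least `-1`, in polynomial form. -/
def Cge : Prop := ∀ x u v : E m,
  -(G.g x u u * G.g x v v - G.g x u v ^ 2) ≤ G.g x (G.Rm x u v v) u

/-- The geodesic with initial point `x` and initial velocity `v`. -/
noncomputable def gd (hc : G.Complete) (x v : E m) : ℝ → E m := Classical.choose (hc x v)

/-- The exponential map. -/
noncomputable def ex (hc : G.Complete) (x v : E m) : E m := G.gd hc x v 1

lemma gd_geo (hc : G.Complete) (x v : E m) : G.IsGeodesic (G.gd hc x v) :=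
  (Classical.choose_spec (hc x v)).1

lemma gd_zero (hc : G.Complete) (x v : E m) : G.gd hc x v 0 = x :=
  (Classical.choose_spec (hc x v)).2.1

lemma gd_deriv_zero (hc : G.Complete) (x v : E m) : deriv (G.gd hc x v) 0 = v :=
  (Classical.choose_spec (hc x v)).2.2

/-- A geodesic variation field in coordinates: `J' = V` and `V'` is the linearisation of
`- Γ(c', c')`, on an open interval which contains `[0, 1]`. -/
def IsVar (c J V : ℝ → E m) : Prop := ∀ s ∈ Ioo (-1 : ℝ) 2, HasDerivAt J (V s) s ∧
  HasDerivAt V (-(fderiv ℝ (fun y => G.Gam y (deriv c s) (deriv c s)) (c s) (J s))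
    - (2 : ℝ) • G.Gam (c s) (deriv c s) (V s)) s

/-- The covariant derivative of a field `X` with coordinate derivative `X'` along a curve through
`x` with velocity `T`. -/
noncomputable def cov (x T X X' : E m) : E m := X' + G.Gam x T X

end RMetric

end Pool.Agent.Work.MP_a6f1bd_R
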