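import Pool.Agent.Work.MP_a6f1bd_R.Defs

set_option autoImplicit false

/-!
# Complete Riemannian metrics on `ℝ^m`: interface, part 1 (the exponential map and the distance)

The file of block `X` is `Pool/Agent/Work/MP_a6f1bd_R/B_X.lean`: `import` this file, namespace
`Pool.Agent.Work.MP_a6f1bd_R`, `theorem r_X (hA : Stmt_A) (hB : Stmt_B) .. : Stmt_X` with the blocks of
the column uses as hypotheses in that order; private lemmas in `namespace X_X`.

CONVENTIONS.  `E m = EuclideanSpace ℝ (Fin m)`.  `G.Gam x u v` is `Γ(u, v)`, `T = deriv c s` the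
velocity of the curve `c`, `D X = G.cov (c s) T (X s) (X' s) = X' + Γ(T, X)` the covariant derivative
of a field along `c`.  Block GAM gives a smooth family `B` of continuous bilinear maps with
`G.Gam x u v = B x u v`: in all the later blocks obtain it first (`obtain ⟨B, hB, hG, hk, hs⟩ := hGAM m G`)
and rewrite `Gam` by `B`, so that `map_add`, `map_smul`, `HasDerivAt.clm_apply`, .. apply.
-/

namespace Pool.Agent.Work.MP_a6f1bd_R

open Real Filter Topology Set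
open scoped ContDiff

/-! ## A. Ordinary differential equations -/

/-- BLOCK LIN (uses nothing): linear differential equations have solutions on the whole interval.
PROOF.  Work on `Icc (-2) 3`; `M ≥ 1` a bound of `‖A t‖` there, `R = (‖w‖ + 1) e^(5 M)`.  Cut off: choose
`χ : W → W` with `χ y = y` for `‖y‖ ≤ R`, `‖χ y‖ ≤ ‖y‖`, `‖χ y‖ ≤ R'` and `χ` Lipschitz with a constant
`L0` (for instance `χ y = ρ y • y` with a `ContDiffBump` `ρ` at `0`, `rIn = R`, `rOut = 2 R`: it is `C^∞`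
with compact support, `ContDiff.lipschitzWith_of_hasCompactSupport`).  The field
`f t y = A t (χ y)` satisfies `IsPicardLindelof f ⟨t0, _⟩ w a 0 L K` on `Icc (-2) 3` with `L = M R'`,
`a = 5 L`, `K = M L0` (`IsPicardLindelof` in `Mathlib/Analysis/ODE/PicardLindelof.lean`), so
`IsPicardLindelof.exists_eq_forall_mem_Icc_hasDerivWithinAt₀` gives `y` with `y t0 = w`.
A priori bound: `‖y'‖ = ‖A (χ y)‖ ≤ M ‖y‖`, so `‖y t‖ ≤ ‖w‖ e^(M |t - t0|) < R` on `Icc (-2) 3`
(`norm_le_gronwallBound_of_norm_deriv_right_le` on `[t0, 3]`, and for `s ↦ y (t0 - s)` on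
`[0, t0 + 2]`); hence `χ (y t) = y t`. -/
def Stmt_LIN : Prop := ∀ (W : Type) [NormedAddCommGroup W] [NormedSpace ℝ W]
  [FiniteDimensional ℝ W] (A : ℝ → W →L[ℝ] W), Continuous A → ∀ t0 ∈ Ioo (-1 : ℝ) 2, ∀ w : W,
  ∃ y : ℝ → W, y t0 = w ∧ ∀ t ∈ Ioo (-1 : ℝ) 2, HasDerivAt y (A t (y t)) t

/-- `Φ` is the global flow of the vector field `F`. -/
def IsFlow {V : Type} [NormedAddCommGroup V] [NormedSpace ℝ V] (F : V → V) (Φ : ℝ → V → V) : Prop :=
  (∀ x, Φ 0 x = x) ∧ ∀ x t, HasDerivAt (fun s => Φ s x) (F (Φ t x)) t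

/-- BLOCK LPF (uses nothing): the flow is locally Lipschitz in the initial value.
PROOF.  `K0 = Φ([0,1], x0)` is compact; `B = closedBall 0 R` contains its `1`-neighbourhood; `F` is
Lipschitz on `B` with a constant `L` (`fderiv F` is continuous, so bounded on the compact convex set
`B`; `Convex.lipschitzOnWith_of_nnnorm_fderiv_le`).  `δ = e^(-L) / 2`.  Let `‖x - x0‖ < δ`.
CLAIM `‖Φ t x - Φ t x0‖ < 1` on `[0,1]`: otherwise let `τ` be the smallest time in `[0,1]` with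
`1 ≤ ‖Φ τ x - Φ τ x0‖` (closed nonempty set, `IsCompact.exists_isLeast`); `τ > 0`, and on `[0, τ)` both
trajectories are in `B`, so Gronwall (`dist_le_of_trajectories_ODE_of_mem` on `Icc 0 τ`) gives
`‖Φ τ x - Φ τ x0‖ ≤ ‖x - x0‖ e^(L τ) < 1`, a contradiction.  So for `x, y ∈ ball x0 δ` both trajectories
stay in `B` and Gronwall gives `‖Φ t x - Φ t y‖ ≤ e^L ‖x - y‖`. -/
def Stmt_LPF : Prop := ∀ (V : Type) [NormedAddCommGroup V] [NormedSpace ℝ V]
  [FiniteDimensional ℝ V] (F : V → V) (Φ : ℝ → V → V), ContDiff ℝ 1 F → IsFlow F Φ → ∀ x0 : V,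
  ∃ δ C : ℝ, 0 < δ ∧ 0 ≤ C ∧ ∀ x ∈ Metric.ball x0 δ, ∀ y ∈ Metric.ball x0 δ,
    ∀ t ∈ Icc (0 : ℝ) 1, ‖Φ t x - Φ t y‖ ≤ C * ‖x - y‖

/-- BLOCK USD (uses nothing): uniform strict differentiability along a compact curve.
PROOF.  `B` a closed ball containing the `1`-neighbourhood of `c([0,1])`; `fderiv ℝ F` is uniformly
continuous on `B` (`IsCompact.uniformContinuousOn_of_continuous`): `η ≤ 1` with
`‖fderiv F p - fderiv F q‖ ≤ ε` for `p, q ∈ B`, `‖p - q‖ ≤ η`.  On the convex set `closedBall (c t) η`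
apply the mean value inequality `Convex.norm_image_sub_le_of_norm_hasFDerivWithin_le'` (derivative
within `ε` of `fderiv F (c t)`). -/
def Stmt_USD : Prop := ∀ (V : Type) [NormedAddCommGroup V] [NormedSpace ℝ V]
  [FiniteDimensional ℝ V] (F : V → V) (c : ℝ → V) (ε : ℝ), ContDiff ℝ 1 F → Continuous c → 0 < ε →
  ∃ η : ℝ, 0 < η ∧ ∀ t ∈ Icc (0 : ℝ) 1, ∀ u v : V, ‖u - c t‖ ≤ η → ‖v - c t‖ ≤ η →
    ‖F u - F v - fderiv ℝ F (c t) (u - v)‖ ≤ ε * ‖u - v‖

/-- BLOCK FLW (uses LIN, LPF, USD): the flow is strictly differentiable in the initial value and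
its derivative solves the variational equation.
PROOF.  `c t = Φ t x0`, `A t = fderiv ℝ F (c t)` (continuous).  LIN for `W = V →L[ℝ] V` (finite
dimensional: `LinearMap.toContinuousLinearMap`) and `A t ∘L ·` (`ContinuousLinearMap.compL ℝ V V V`)
gives `D`.  Let `ε > 0`; `M ≥ 1` a bound of `‖A t‖` on `[0,1]`, `δ, C` from LPF, `η` from USD (for `ε`).  For
`x, y` in the ball of radius `min δ (η / (C + 1))` put `Z t = Φ t x - Φ t y - D t (x - y)`, `Z 0 = 0`,
`Z' = (F (Φ t x) - F (Φ t y) - A t (Φ t x - Φ t y)) + A t (Z t)`, so `‖Z'‖ ≤ M ‖Z‖ + ε C ‖x - y‖`, and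
`norm_le_gronwallBound_of_norm_deriv_right_le` gives `‖Z t‖ ≤ ε C e^M ‖x - y‖` on `[0,1]`
(`gronwallBound 0 M e t = e / M * (exp (M t) - 1)`).  This is strict differentiability. -/
def Stmt_FLW : Prop := ∀ (V : Type) [NormedAddCommGroup V] [NormedSpace ℝ V]
  [FiniteDimensional ℝ V] (F : V → V) (Φ : ℝ → V → V), ContDiff ℝ 1 F → IsFlow F Φ → ∀ x0 : V,
  ∃ D : ℝ → V →L[ℝ] V, D 0 = ContinuousLinearMap.id ℝ V ∧
    (∀ t ∈ Ioo (-1 : ℝ) 2, HasDerivAt D ((fderiv ℝ F (Φ t x0)).comp (D t)) t) ∧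
    ∀ t ∈ Icc (0 : ℝ) 1, HasStrictFDerivAt (Φ t) (D t) x0

/-! ## B. Tensor algebra -/

/-- BLOCK GAM (uses nothing): the Christoffel symbols are a smooth family of symmetric bilinear
maps.
PROOF.  `G.g x : E →L (E →L ℝ)` is injective (`pos`), so bijective (finite dimension:
`LinearMap.injective_iff_surjective_of_finrank_eq_finrank` or `LinearEquiv.ofInjectiveOfFinrankEq`), a
`ContinuousLinearEquiv` `e x` (`LinearEquiv.toContinuousLinearEquiv`) with coercion `G.g x`; so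
`(G.g x).inverse = (e x).symm` (`ContinuousLinearMap.inverse_equiv`) and
`G.g x ((G.g x).inverse φ) = φ`: the third claim.  `kos x u v` is additive and homogeneous in `u`
and in `v`, so `Gam x` is a bilinear map: `B x` (`LinearMap.mk₂`, `LinearMap.toContinuousLinearMap`, finite
dimension).  `kos x u v = kos x v u` since `fderiv ℝ G.g x w u v = fderiv ℝ G.g x w v u` (derivative of
`symm`).  Smoothness: `contDiff_clm_apply_iff` reduces to `x ↦ B x u v = (G.g x).inverse (kos x u v)` for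
fixed `u, v`; `x ↦ (G.g x).inverse` is smooth by `contDiffAt_map_inverse (e x)` composed with
`G.smooth`, and `x ↦ kos x u v` is smooth, again by `contDiff_clm_apply_iff`:
`kos x u v w = (fderiv ℝ G.g x u v w + fderiv ℝ G.g x v u w - fderiv ℝ G.g x w u v) / 2`
(`ContDiff.fderiv_right`). -/
def Stmt_GAM : Prop := ∀ (m : ℕ) (G : RMetric m), ∃ B : E m → E m →L[ℝ] E m →L[ℝ] E m,
  ContDiff ℝ ∞ B ∧ (∀ x u v, G.Gam x u v = B x u v) ∧
    (∀ x u v w, G.g x (B x u v) w =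
      (fderiv ℝ G.g x u v w + fderiv ℝ G.g x v u w - fderiv ℝ G.g x w u v) / 2) ∧
    ∀ x u v, B x u v = B x v u

/-- BLOCK RLN (uses nothing): the curvature tensor is trilinear, with formula.
PROOF.  `fderiv ℝ (fun y => G.Gam y v w) x u = fderiv ℝ B x u v w` (`B` differentiable, evaluation is
continuous linear).  Put
`Q x u v w = fderiv ℝ B x u v w - fderiv ℝ B x v u w + B x u (B x v w) - B x v (B x u w)`; it is linear in
each variable: build the continuous trilinear map with `LinearMap.toContinuousLinearMap` (finite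
dimension), or state it directly as a combination of `fderiv ℝ B x`, its `flip` and compositions. -/
def Stmt_RLN : Prop := ∀ (m : ℕ) (G : RMetric m) (B : E m → E m →L[ℝ] E m →L[ℝ] E m),
  ContDiff ℝ ∞ B → (∀ x u v, G.Gam x u v = B x u v) →
  (∀ x u v w, G.Rm x u v w =
    fderiv ℝ B x u v w - fderiv ℝ B x v u w + B x u (B x v w) - B x v (B x u w)) ∧
  ∃ Q : E m → E m →L[ℝ] E m →L[ℝ] E m →L[ℝ] E m, ∀ x u v w, G.Rm x u v w = Q x u v w

/-- BLOCK CMT (uses GAM): the Levi-Civita connection is metric.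
PROOF.  (1) `g(Γ(u, v), w) + g(v, Γ(u, w))`
`= (D_u(v,w) + D_v(u,w) - D_w(u,v))/2 + (D_u(w,v) + D_w(u,v) - D_v(u,w))/2 = D_u(v,w)`, where
`D_u(v,w) = fderiv ℝ G.g x u v w` is symmetric in `v, w` (derivative of `symm`).
(2) `HasDerivAt (fun r => G.g (c r)) (fderiv ℝ G.g (c s) T) s` (chain rule), then `HasDerivAt.clm_apply`
twice, and (1). -/
def Stmt_CMT : Prop := ∀ (m : ℕ) (G : RMetric m),
  (∀ x u v w, fderiv ℝ G.g x u v w = G.g x (G.Gam x u v) w + G.g x v (G.Gam x u w)) ∧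
  ∀ (c X Y : ℝ → E m) (T X' Y' : E m) (s : ℝ), HasDerivAt c T s → HasDerivAt X X' s →
    HasDerivAt Y Y' s → HasDerivAt (fun r => G.g (c r) (X r) (Y r))
      (G.g (c s) (G.cov (c s) T (X s) X') (Y s) + G.g (c s) (X s) (G.cov (c s) T (Y s) Y')) s

/-- BLOCK SYR (uses GAM, RLN, CMT): the symmetries of the curvature tensor.
PROOF.  Notation: `B'(u; v, w) = fderiv ℝ B x u v w`, symmetric in `v, w` (derivative of the symmetry
of `B`), `r(u,v,w,z) = g(R(u,v)w, z)`.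
(a) `R(u,v)w = - R(v,u)w`: the formula of RLN.
(b) `R(u,v)w + R(v,w)u + R(w,u)v = 0`: the formula and the symmetry of `B`, `B'`.
(c) `r(u,v,w,w) = 0`: by CMT (1), `fderiv ℝ G.g y u w w = 2 g_y(B y u w, w)` for all `y`; differentiate
in the direction `v` at `x` (again CMT (1) for the derivative of `g`):
`fderiv ℝ (fderiv ℝ G.g) x v u w w = 2 (g(Γ(v, Γ(u,w)), w) + g(Γ(u,w), Γ(v,w)) + g(B'(v; u, w), w))`.
The left side is symmetric in `u, v` (second derivative of a smooth function,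
`ContDiffAt.isSymmSndFDerivAt`); subtract the same formula with `u, v` exchanged:
`0 = g(Γ(v,Γ(u,w)) - Γ(u,Γ(v,w)) + B'(v;u,w) - B'(u;v,w), w) = - r(u,v,w,w)`.
So `r(u,v,w,z) = - r(u,v,z,w)` (polarisation: apply (c) to `w + z`).
(d) `r(u,v,w,z) = r(w,z,u,v)`: `linarith` from the four cyclic identities (b) paired with the fourth
vector: (u,v,w;z), (v,w,z;u), (w,z,u;v), (z,u,v;w), and the skew symmetries in the first and in the
second pair. -/
def Stmt_SYR : Prop := ∀ (m : ℕ) (G : RMetric m) (x u v w z : E m),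
  G.g x (G.Rm x u v w) z = -G.g x (G.Rm x v u w) z ∧
  G.g x (G.Rm x u v w) z = -G.g x (G.Rm x u v z) w ∧
  G.g x (G.Rm x u v w) z = G.g x (G.Rm x w z u) v

/-- BLOCK SEC (uses GAM, RLN, SYR): the curvature bounds in polynomial form.
PROOF.  If `u, v` are independent then `A = g(u,u) g(v,v) - g(u,v)² > 0`: `g(u + t v, u + t v) > 0` for
`t = - g(u,v)/g(v,v)`; multiply the bounds of `sec` by `A`.  If they are dependent
(`LinearIndependent.pair_iff`, or `not_linearIndependent_pair_iff`-like): `u = 0`, or `v = a u`; `R` is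
trilinear (RLN) and `R(u, u) = 0` (SYR first claim: `g(R(u,u)w, z) = 0` for all `z`), so
`g(R(u,v)v, u) = 0`, and `A = 0`. -/
def Stmt_SEC : Prop := ∀ (m : ℕ) (G : RMetric m),
  ((∀ x u v, LinearIndependent ℝ ![u, v] → G.sec x u v ≤ 0) → G.Npc) ∧
  ((∀ x u v, LinearIndependent ℝ ![u, v] → -1 ≤ G.sec x u v) → G.Cge)

/-- BLOCK CSC (uses nothing): the norms `nrm x`.
PROOF.  (1) to (3), (7): `g x` is a positive definite symmetric bilinear form; Cauchy-Schwarz by the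
discriminant (`g(u - t v, u - t v) ≥ 0`, `t = g(u,v)/g(v,v)`), `nrm = √`.  (7): `z = |v| u - |u| v` has
`g(z, z) = 2 |u|² |v|² - 2 |u| |v| g(u,v) ≤ 0`, so `z = 0` (`pos`).
(5) `p ↦ G.g p.1 p.2 p.2` is continuous and `√` is.  (6) `sqrt_eq_zero`, `pos`.
(4) `v ↦ nrm x v` is continuous and positive on the unit sphere of the finite dimensional space
`E m` (compact), let `a > 0` be its minimum, `κ = 1 / a` (for `m = 0` the sphere is empty, take
`κ = 1`); homogeneity. -/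
def Stmt_CSC : Prop := ∀ (m : ℕ) (G : RMetric m),
  (∀ x u v, |G.g x u v| ≤ G.nrm x u * G.nrm x v) ∧
  (∀ x u v, G.nrm x (u + v) ≤ G.nrm x u + G.nrm x v) ∧
  (∀ x (a : ℝ) v, G.nrm x (a • v) = |a| * G.nrm x v) ∧
  (∀ x, ∃ κ : ℝ, 0 < κ ∧ ∀ v, ‖v‖ ≤ κ * G.nrm x v) ∧
  (Continuous fun p : E m × E m => G.nrm p.1 p.2) ∧
  (∀ x v, G.nrm x v = 0 ↔ v = 0) ∧
  (∀ x u v, G.nrm x u * G.nrm x v ≤ G.g x u v → G.nrm x v • u = G.nrm x u • v) ∧
  ∀ x v, 0 ≤ G.nrm x v ∧ G.nrm x v ^ 2 = G.g x v v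

/-! ## C. Geodesics and Jacobi fields -/

/-- BLOCK GEO (uses GAM, CMT): geodesics.
PROOF.  The pair `(c, c')` is an integral curve of the `C^∞` field `F(x, v) = (v, - B x v v)` on
`E × E`.  (1) Uniqueness: for every `t` choose a bounded open interval containing `t` and `t0`; on its
closure both trajectories are in a closed ball, on which `F` is Lipschitz (`C¹`, compact convex);
`ODE_solution_unique_of_mem_Ioo` with `s t =` this ball.
(2) `r ↦ c (a r + b)` has the velocity `a c'(a r + b)` and the second derivative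
`a² c'' = - Γ(a c', a c')`.
(3), (4): uniqueness and (2).  (5) The derivative of `g(c', c')` is `2 g(∇ c', c') = 0` by CMT (2)
(`cov (c s) T T (- Γ(T,T)) = 0`); a function with zero derivative is constant. -/
def Stmt_GEO : Prop := ∀ (m : ℕ) (G : RMetric m),
  (∀ (c c1 : ℝ → E m) (t0 : ℝ), G.IsGeodesic c → G.IsGeodesic c1 → c t0 = c1 t0 →
    deriv c t0 = deriv c1 t0 → c = c1) ∧
  (∀ (c : ℝ → E m) (a b : ℝ), G.IsGeodesic c → G.IsGeodesic (fun r => c (a * r + b)) ∧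
    ∀ r, deriv (fun r => c (a * r + b)) r = a • deriv c (a * r + b)) ∧
  (∀ (hc : G.Complete) (c : ℝ → E m) (a b : ℝ), G.IsGeodesic c → ∀ r,
    G.gd hc (c b) (a • deriv c b) r = c (a * r + b)) ∧
  (∀ (hc : G.Complete) (x v : E m) (a r : ℝ), G.gd hc x (a • v) r = G.gd hc x v (a * r)) ∧
  ∀ (c : ℝ → E m), G.IsGeodesic c → ∀ s t, G.nrm (c s) (deriv c s) = G.nrm (c t) (deriv c t)

/-- BLOCK FLE (uses FLW, GAM): the derivative of the exponential map is given by Jacobi fields.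
PROOF.  `V = E × E`, `F(x, v) = (v, - B x v v)`, `Φ t (x, v) = (gd x v t, deriv (gd x v) t)` is its flow
(`IsFlow`).  `fderiv ℝ F (c, T) (J, V) = (V, - fderiv ℝ B c J T T - B c V T - B c T V)`, and
`fderiv ℝ B c J T T = fderiv ℝ (fun y => Gam y T T) c J`, `B c V T = B c T V`.  FLW gives `D`.  The
statement holds with `D 1 ∘L inr` (`w ↦ Φ 1 (x, w)` is the composition with the affine map
`w ↦ (x, w)`) and `(J s, V s) = D s (0, w)`. -/
def Stmt_FLE : Prop := ∀ (m : ℕ) (G : RMetric m) (hc : G.Complete) (x v : E m),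
  ∃ D : E m →L[ℝ] E m × E m,
    HasStrictFDerivAt (fun w => (G.gd hc x w 1, deriv (G.gd hc x w) 1)) D v ∧
    ∀ w, ∃ J V : ℝ → E m, G.IsVar (G.gd hc x v) J V ∧ J 0 = 0 ∧ V 0 = w ∧
      J 1 = (D w).1 ∧ V 1 = (D w).2

/-- BLOCK JAC (uses GAM, RLN): the variation equation is the Jacobi equation.
PROOF.  `T = c'`, `T' = - Γ(T, T)`, `D J = V + Γ(T, J)`.  The derivative of `B (c s) (T s) (J s)` is
`B'(T; T, J) + Γ(T', J) + Γ(T, V)`, so that of `D J` is
`- B'(J; T, T) - 2 Γ(T, V) + B'(T; T, J) - Γ(Γ(T,T), J) + Γ(T, V)`.  By the formula of RLN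
`- R(J,T)T - Γ(T, D J) = - B'(J; T, T) + B'(T; J, T) - Γ(J, Γ(T,T)) + Γ(T, Γ(J,T)) - Γ(T, V)
- Γ(T, Γ(T, J))`, the same by the symmetry of `B` and of `B'`. -/
def Stmt_JAC : Prop := ∀ (m : ℕ) (G : RMetric m) (c J V : ℝ → E m), G.IsGeodesic c →
  G.IsVar c J V → ∀ s ∈ Ioo (-1 : ℝ) 2,
    HasDerivAt (fun r => G.cov (c r) (deriv c r) (J r) (V r))
      (-G.Rm (c s) (J s) (deriv c s) (deriv c s)
        - G.Gam (c s) (deriv c s) (G.cov (c s) (deriv c s) (J s) (V s))) s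

/-- BLOCK RAY (uses nothing): a lemma on real functions.
PROOF.  `q(s) = k(s)/s` has the derivative `(s k'(s) - k(s))/s² ≥ 0` on `(0, 1]`, so it is monotone
there (`monotoneOn_of_deriv_nonneg` on `Icc ε 1`), and `q(s) ≥ q(ε) → L` for `ε → 0+`. -/
def Stmt_RAY : Prop := ∀ (k k' : ℝ → ℝ) (L : ℝ), (∀ s ∈ Ioc (0 : ℝ) 1, HasDerivAt k (k' s) s) →
  (∀ s ∈ Ioc (0 : ℝ) 1, k s ≤ s * k' s) → Tendsto (fun s => k s / s) (𝓝[>] 0) (𝓝 L) →
  ∀ s ∈ Ioc (0 : ℝ) 1, L * s ≤ k s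

/-- BLOCK JES (uses GAM, RLN, CMT, SYR, JAC, RAY): estimates for Jacobi fields.
PROOF.  `DJ = cov (c s) (c' s) (J s) (V s)`, its covariant derivative is `- R(J,T)T` (JAC), and
`∇ T = 0`.  (1) By CMT `g(DJ, T)' = - g(R(J,T)T, T) = 0` (SYR second claim: `g(R(J,T)T, T) = 0`), so
`g(DJ, T)` is constant `= g(V 0, T 0)` (`Γ(T, J 0) = 0`), `g(J, T)' = g(DJ, T)`, `g(J, T)(0) = 0`.
(2) `k(s) = s g(J, DJ) - g(J, J)`; `g(J,DJ)' = |DJ|² - g(R(J,T)T, J)`; by SYR
`g(R(J,T)T, J) = g(R(J,T)T,J)` is the expression in `Npc` (with `u = J`, `v = T`), so `≤ 0`; put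
`K = - g(R(J,T)T, J) ≥ 0`.  `k' = s (|DJ|² + K) - g(J, DJ)` and
`s k' - k = |s DJ - J|² + s² K ≥ 0` (expand).  `k(s)/s = g(J,DJ) - |J|²/s → 0` for `s → 0+`
(`|J|²` has the value `0` and the derivative `2 g(J, DJ) = 0` at `0`).  RAY with `L = 0`: `k ≥ 0` on
`(0, 1]`; at `s = 1` this is (2).
(3) RAY for `h(s) = |J|²/s`: `s h' - h = 2 k(s)/s ≥ 0`, `h(s)/s = g(J/s, J/s) → g(V 0, V 0)` (`J/s → V 0`
since `J` has the derivative `V 0` at `0`, and `g` is continuous). -/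
def Stmt_JES : Prop := ∀ (m : ℕ) (G : RMetric m), G.Npc → ∀ (c J V : ℝ → E m), G.IsGeodesic c →
  G.IsVar c J V → J 0 = 0 →
  (∀ s ∈ Icc (0 : ℝ) 1, G.g (c s) (J s) (deriv c s) = s * G.g (c 0) (V 0) (deriv c 0)) ∧
  G.g (c 1) (J 1) (J 1) ≤ G.g (c 1) (J 1) (G.cov (c 1) (deriv c 1) (J 1) (V 1)) ∧
  G.g (c 0) (V 0) (V 0) ≤ G.g (c 1) (J 1) (J 1)

/-- BLOCK EXD (uses FLE, JES): the exponential map.
PROOF.  `D` of FLE; the first component of `D` is the strict derivative of `ex x` at `v`, the second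
one of the velocity map.  JES for the fields of FLE along `c = gd x v` (`c 0 = x`, `c' 0 = v`).
The first map is injective by the estimate (`pos`), hence bijective. -/
def Stmt_EXD : Prop := ∀ (m : ℕ) (G : RMetric m) (hc : G.Complete), G.Npc → ∀ x v : E m,
  ∃ (D : E m ≃L[ℝ] E m) (P : E m →L[ℝ] E m),
    HasStrictFDerivAt (G.ex hc x) (D : E m →L[ℝ] E m) v ∧
    HasStrictFDerivAt (fun w => deriv (G.gd hc x w) 1) P v ∧
    (∀ w, G.g x w w ≤ G.g (G.ex hc x v) (D w) (D w)) ∧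
    (∀ w, G.g (G.ex hc x v) (D w) (deriv (G.gd hc x v) 1) = G.g x w v) ∧
    (∀ w, G.g (G.ex hc x v) (D w) (D w) ≤
      G.g (G.ex hc x v) (D w) (G.cov (G.ex hc x v) (deriv (G.gd hc x v) 1) (D w) (P w))) ∧
    ∀ w, ∃ J V : ℝ → E m, G.IsVar (G.gd hc x v) J V ∧ J 0 = 0 ∧ V 0 = w ∧
      J 1 = D w ∧ V 1 = P w

/-! ## D. Lifting of curves and the theorem of Cartan and Hadamard -/

/-- `f` is a local diffeomorphism with derivatives `D`. -/
def IsLD {m : ℕ} (f : E m → E m) (D : E m → E m ≃L[ℝ] E m) : Prop :=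
  ∀ v, HasStrictFDerivAt f (D v : E m →L[ℝ] E m) v

/-- BLOCK LFU (uses nothing): uniqueness and derivative of lifts.
PROOF.  (1) `IsLocalHomeomorph f`: `HasStrictFDerivAt.toOpenPartialHomeomorph` at every point.
(2) `IsSeparatedMap.eqOn_of_comp_eqOn` (`T2Space.isSeparatedMap`, `IsLocalHomeomorph.isLocallyInjective`)
on the preconnected set `Icc 0 b`.  (3) Let `h` be the local inverse of `f` at `L t`
(`HasStrictFDerivAt.localInverse`, strict derivative `(D (L t)).symm` at `f (L t) = c t`);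
`L s = h (f (L s)) = h (c s)` for `s ∈ Icc 0 b` near `t`, as `L s → L t`
(`HasStrictFDerivAt.eventually_left_inverse`); chain rule. -/
def Stmt_LFU : Prop := ∀ (m : ℕ) (f : E m → E m) (D : E m → E m ≃L[ℝ] E m), IsLD f D →
  IsLocalHomeomorph f ∧
  (∀ (b : ℝ) (L L1 : ℝ → E m), 0 ≤ b → ContinuousOn L (Icc 0 b) → ContinuousOn L1 (Icc 0 b) →
    (∀ t ∈ Icc 0 b, f (L t) = f (L1 t)) → L 0 = L1 0 → ∀ t ∈ Icc 0 b, L t = L1 t) ∧
  ∀ (b : ℝ) (c L : ℝ → E m), ContDiff ℝ 1 c → ContinuousOn L (Icc 0 b) →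
    (∀ t ∈ Icc 0 b, f (L t) = c t) → ∀ t ∈ Icc 0 b,
      HasDerivWithinAt L ((D (L t)).symm (deriv c t)) (Icc 0 b) t

/-- BLOCK LFA (uses LFU): curves of bounded speed can be lifted.
PROOF.  Let `P(b)` be the statement: there is `L` with `L 0 = v0`, continuous on `Icc 0 b`,
`f (L t) = c t` there.  A lift on `Icc 0 b` is `C`-Lipschitz there: LFU (3), the hypothesis
(`D (L t) w = c' t` for `w = (D (L t)).symm (c' t)`) and the mean value inequality
`Convex.norm_image_sub_le_of_norm_hasDerivWithin_le`.  `S = {b ∈ Icc 0 1 | P(b)}`, `0 ∈ S`, `β = sSup S`.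
(i) `P(β)`: if `β = 0` clear.  `P(t)` for every `t < β` (restrict); choose `L_t` and put
`L t = L_t t`; for `s ≤ t < β`, `L_t s = L_s s` by uniqueness on `Icc 0 s`, so
`‖L t - L s‖ = ‖L_t t - L_t s‖ ≤ C |t - s|`: `L` is Lipschitz on `Ico 0 β`; extend it to a Lipschitz map
on `ℝ` (`LipschitzOnWith.extend_finite_dimension`); `f (L t) = c t` on `Ico 0 β`, and at `β` by
continuity (`closure (Ico 0 β) = Icc 0 β`).
(ii) If `β < 1`: let `h` be a local inverse of `f` at `L β`, continuous near `c β`, `h (c β) = L β`,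
`f (h y) = y` near `c β`; for a small `ε`, `t ↦ if t ≤ β then L t else h (c t)` is a lift on
`Icc 0 (β + ε)`, a contradiction. -/
def Stmt_LFA : Prop := ∀ (m : ℕ) (f : E m → E m) (D : E m → E m ≃L[ℝ] E m), IsLD f D →
  ∀ (c : ℝ → E m) (C : ℝ) (v0 : E m), ContDiff ℝ 1 c → f v0 = c 0 →
    (∀ t ∈ Icc (0 : ℝ) 1, ∀ v w : E m, f v = c t → D v w = deriv c t → ‖w‖ ≤ C) →
    ∃ L : ℝ → E m, L 0 = v0 ∧ ContinuousOn L (Icc 0 1) ∧ ∀ t ∈ Icc (0 : ℝ) 1, f (L t) = c t

/-- BLOCK LFT (uses EXD, CSC, LFU, LFA): lifts of curves by the exponential map.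
PROOF.  `f = ex x`, `D v` the derivative of EXD (`choose`), `IsLD f D`.  If `f v = c t`, `D v w = c' t`:
`nrm x w ≤ nrm (c t) (c' t)` by EXD, and `‖w‖ ≤ κ nrm x w` (CSC); the continuous function
`t ↦ nrm (c t) (c' t)` is bounded on `[0,1]`: LFA.  The derivative of the lift: LFU (3). -/
def Stmt_LFT : Prop := ∀ (m : ℕ) (G : RMetric m) (hc : G.Complete), G.Npc → ∀ (x v0 : E m)
  (c : ℝ → E m), ContDiff ℝ 1 c → G.ex hc x v0 = c 0 →
  ∃ L : ℝ → E m, L 0 = v0 ∧ ContinuousOn L (Icc 0 1) ∧ ∀ t ∈ Icc (0 : ℝ) 1,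
    G.ex hc x (L t) = c t ∧ ∃ w, HasDerivWithinAt L w (Icc 0 1) t ∧
      G.nrm x w ≤ G.nrm (c t) (deriv c t)

/-- BLOCK LEN (uses CSC): the length of a curve and its lift.
PROOF.  `a(t) = g_x(L t, W) - nrm x W * ∫_0^t nrm (c r) (c' r) dr` has on `[0,1]` the derivative
`g_x(w, W) - nrm x W * nrm (c t) (c' t) ≤ 0` (Cauchy-Schwarz), so `a 1 ≤ a 0`
(`antitoneOn_of_deriv_nonpos` or `image_le_of_deriv_right_le_deriv_boundary`; the integrand is
continuous, `intervalIntegral.integral_hasDerivAt_right`).  Second claim: `W = L 1`, divide by `nrm x W`. -/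
def Stmt_LEN : Prop := ∀ (m : ℕ) (G : RMetric m) (x : E m) (c L : ℝ → E m), ContDiff ℝ 1 c →
  ContinuousOn L (Icc 0 1) → (∀ t ∈ Icc (0 : ℝ) 1, ∃ w, HasDerivWithinAt L w (Icc 0 1) t ∧
    G.nrm x w ≤ G.nrm (c t) (deriv c t)) →
  (∀ W, G.g x (L 1 - L 0) W ≤ G.nrm x W * G.length c) ∧
    G.nrm x (L 1) ≤ G.nrm x (L 0) + G.length c

/-- The inverse of the exponential map. -/
noncomputable def RMetric.lo {m : ℕ} (G : RMetric m) (hc : G.Complete) (x y : E m) : E m :=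
  Function.invFun (G.ex hc x) y

/-- BLOCK INJ (uses GEO, EXD, LFU, LFT): the theorem of Cartan and Hadamard.
PROOF.  `f = ex x`, `f 0 = x` (`gd x 0 1 = gd x v 0`, GEO (4) with `a = 0`).  For every `q` lift the
segment `c t = x + t (q - x)` from `v0 = 0` (LFT): `L_q`.  The map `(t, q) ↦ L_q t` on `I × E` is
continuous: `IsLocalHomeomorph.continuous_lift` (`Mathlib/Topology/Homotopy/Lifting.lean`; at `t = 0` it
is constant, for fixed `q` it is continuous).  So `Ψ q = L_q 1` is continuous and `f (Ψ q) = q`.  The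
set `{v | Ψ (f v) = v}` is closed, contains `0` (`Ψ x = 0`: the constant lift, LFU (2)), and it is
open: if `Ψ (f v0) = v0` let `U` be a neighbourhood of `v0` on which `f` is injective; for `v` near `v0`
both `v` and `Ψ (f v)` are in `U` and have the same image.  `E` is connected, so `Ψ ∘ f = id`.  So `f` is
bijective, `lo x = Ψ` is continuous, and its strict derivative is
`HasStrictFDerivAt.of_local_left_inverse`. -/
def Stmt_INJ : Prop := ∀ (m : ℕ) (G : RMetric m) (hc : G.Complete), G.Npc → ∀ x : E m,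
  (∀ y, G.ex hc x (G.lo hc x y) = y) ∧ (∀ v, G.lo hc x (G.ex hc x v) = v) ∧
  Continuous (G.lo hc x) ∧ G.ex hc x 0 = x ∧ G.lo hc x x = 0 ∧
  ∀ (v : E m) (D : E m ≃L[ℝ] E m), HasStrictFDerivAt (G.ex hc x) (D : E m →L[ℝ] E m) v →
    HasStrictFDerivAt (G.lo hc x) (D.symm : E m →L[ℝ] E m) (G.ex hc x v)

/-! ## E. The Riemannian distance -/

/-- BLOCK DIS (uses CSC, GEO, LFT, LEN, INJ): the distance is the length of the logarithm.
PROOF.  (1) For a `C¹` curve `c` let `L` be the lift of LFT with `v0 = lo x (c 0)`; `L 1 = lo x (c 1)`; LEN.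
(2) For `c 0 = x`: `lo x x = 0`, so `nrm x (lo x y) ≤ length c`: `≤ rdist`.  The geodesic
`c = gd x (lo x y)` is `C¹`, goes from `x` to `y` and has the constant speed `nrm x (lo x y)` (GEO (5)),
so its length is `nrm x (lo x y)`: `rdist ≤`; the set in `rdist` is bounded below by `0`.
(3) triangle inequality: (1) for the geodesic from `y` to `z`, whose length is `rdist y z`.
(4) symmetry: the curve `r ↦ c (1 - r)` has the same length as `c`.  (5) `nrm x v = 0 ↔ v = 0`.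
(6) the first claim of LEN with `W`. -/
def Stmt_DIS : Prop := ∀ (m : ℕ) (G : RMetric m) (hc : G.Complete), G.Npc →
  (∀ (x : E m) (c : ℝ → E m), ContDiff ℝ 1 c →
    G.nrm x (G.lo hc x (c 1)) ≤ G.nrm x (G.lo hc x (c 0)) + G.length c) ∧
  (∀ x y, G.rdist x y = G.nrm x (G.lo hc x y)) ∧
  (∀ x y z, G.rdist x z ≤ G.rdist x y + G.rdist y z) ∧
  (∀ x y, G.rdist x y = G.rdist y x) ∧ (∀ x, G.rdist x x = 0) ∧
  (∀ x y, G.rdist x y = 0 → x = y) ∧ (∀ x y, 0 ≤ G.rdist x y) ∧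
  ∀ x y z W, G.g x (G.lo hc x z - G.lo hc x y) W ≤ G.nrm x W * G.rdist y z

/-- BLOCK MIN (uses CSC, GEO, INJ, DIS): geodesics minimise the length.
PROOF.  `T = deriv c a`: `c b = gd (c a) ((b - a) • T) 1` (GEO (3)), so `lo (c a) (c b) = (b - a) • T`;
CSC (3) and the constant speed. -/
def Stmt_MIN : Prop := ∀ (m : ℕ) (G : RMetric m) (hc : G.Complete), G.Npc →
  ∀ (c : ℝ → E m), G.IsGeodesic c → ∀ a b : ℝ,
    G.lo hc (c a) (c b) = (b - a) • deriv c a ∧
    G.rdist (c a) (c b) = |a - b| * G.nrm (c 0) (deriv c 0)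

/-- BLOCK BTW (uses CSC, INJ, DIS): points with equality in the triangle inequality are on the
geodesic.
PROOF.  `W = lo x z`.  DIS (6): `nrm x W ^ 2 - g_x(lo x y, W) ≤ nrm x W * rdist y z`, so
`g_x(lo x y, W) ≥ nrm x W * (rdist x z - rdist y z) = nrm x W * nrm x (lo x y)`, and CSC (7) gives
`nrm x (lo x y) • W = nrm x W • lo x y` (up to the order).  If `nrm x W = 0` then `x = z`, and
`rdist x y = 0`, `y = x`, `s = 0`.  Otherwise `s = nrm x (lo x y) / nrm x W ≤ 1`, `lo x y = s • W`. -/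
def Stmt_BTW : Prop := ∀ (m : ℕ) (G : RMetric m) (hc : G.Complete), G.Npc → ∀ x y z : E m,
  G.rdist x y + G.rdist y z = G.rdist x z →
  ∃ s ∈ Icc (0 : ℝ) 1, y = G.ex hc x (s • G.lo hc x z) ∧ G.rdist x y = s * G.rdist x z

/-- BLOCK TOP (uses CSC, EXD, INJ, DIS): the distance induces the usual topology.
PROOF.  `→`: `‖lo x (y i)‖ ≤ κ rdist x (y i) → 0`, so `y i = ex x (lo x (y i)) → ex x 0 = x` (`ex x` is
continuous by EXD).  `←`: `lo x` is continuous, `nrm` is continuous. -/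
def Stmt_TOP : Prop := ∀ (m : ℕ) (G : RMetric m) (_ : G.Complete), G.Npc → ∀ (x : E m)
  (ι : Type) (l : Filter ι) (y : ι → E m),
  (Tendsto (fun i => G.rdist x (y i)) l (𝓝 0) ↔ Tendsto y l (𝓝 x)) ∧
  Continuous fun z => G.rdist x z

/-- BLOCK CPL (uses CSC, EXD, INJ, DIS, TOP): the distance is complete.
PROOF.  `V n = lo 0 (u n)` is bounded (`rdist 0 (u n)` is bounded for a Cauchy sequence, and
`‖·‖ ≤ κ nrm 0`), so a subsequence converges, `V (φ n) → V`; `u (φ n) = ex 0 (V (φ n)) → x := ex 0 V`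
(`ex 0` continuous), so `rdist x (u (φ n)) → 0` by TOP; a Cauchy sequence with a convergent
subsequence converges (triangle inequality). -/
def Stmt_CPL : Prop := ∀ (m : ℕ) (G : RMetric m) (_ : G.Complete), G.Npc → ∀ u : ℕ → E m,
  (∀ ε : ℝ, 0 < ε → ∃ N : ℕ, ∀ i ≥ N, ∀ j ≥ N, G.rdist (u i) (u j) < ε) →
  ∃ x, Tendsto (fun n => G.rdist (u n) x) atTop (𝓝 0)

end Pool.Agent.Work.MP_a6f1bd_R
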