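import Pool.Agent.Work.MP_a6f1bd_R.Interface1

set_option autoImplicit false

/-!
# PROJECT RIEMANN (MP_a6f1bd_gt), part 2: comparison theorems and the final theorem

Table `rie_blocks`, part 2.  Block file `Pool/Agent/Work/MP_a6f1bd_R/B_X.lean`: import this file,
namespace `Pool.Agent.Work.MP_a6f1bd_R`, final theorem `r_X (hA : Stmt_A) .. : Stmt_X` with the blocks of
the column `uses` as hypotheses, in that order; private lemmas in `namespace X_X`.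

The blocks CVX, SNH, CSH, IOT, HLO, HSP are pure calculus / linear algebra.
-/

namespace Pool.Agent.Work.MP_a6f1bd_R

open Real Filter Topology Set
open scoped ContDiff
open Pool.Agent.Work.MP_a6f1bd_gt

namespace RMetric

variable {m : ℕ} (G : RMetric m)

/-- The geodesic segments from `p` to `q`. -/
def seg (p q : E m) : Set (E m) :=
  {x | ∃ c : ℝ → E m, G.IsGeodesic c ∧ c 0 = p ∧ c 1 = q ∧ ∃ s ∈ Icc (0 : ℝ) 1, c s = x}

/-- The closed ideal triangle spanned by the point `y` and the ray `c`: the closure of the union of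
the geodesic segments from `y` to the points `c t`, `t ≥ 0`. -/
def tri (c : ℝ → E m) (y : E m) : Set (E m) := closure {x | ∃ t, 0 ≤ t ∧ x ∈ G.seg y (c t)}

/-- `c` is a geodesic with unit speed (at the time `0`, hence always). -/
def Unit1 (c : ℝ → E m) : Prop := G.IsGeodesic c ∧ G.nrm (c 0) (deriv c 0) = 1

/-- The axioms of a metric for the Riemannian distance. -/
structure DAx : Prop where
  self : ∀ x, G.rdist x x = 0
  comm : ∀ x y, G.rdist x y = G.rdist y x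
  tri : ∀ x y z, G.rdist x z ≤ G.rdist x y + G.rdist y z
  eq : ∀ x y, G.rdist x y = 0 → x = y

end RMetric

/-! ## A. Calculus -/

/-- CVX (60 lines).  PROOF.  `k t = f t - t ^ 2 / 2` has the derivative `f₁ t - t`, whose derivative
`f₂ t - 1` is `≥ 0`; so `k` is convex on `ℝ` (`convexOn_of_deriv2_nonneg` or: `f₁ t - t` is monotone, so
`k` is convex, `Monotone.convexOn_univ_of_deriv`); convexity for `a = ((L - a)/L) 0 + (a/L) L`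
multiplied by `L`: `L k a ≤ (L - a) k 0 + a k L` (trivial if `L = 0`), and
`- L a ^ 2 / 2 + a L ^ 2 / 2 = a (L - a) L / 2`. -/
def Stmt_CVX : Prop :=
  ∀ f f₁ f₂ : ℝ → ℝ, (∀ t, HasDerivAt f (f₁ t) t) → (∀ t, HasDerivAt f₁ (f₂ t) t) →
    (∀ t, 1 ≤ f₂ t) → ∀ a L : ℝ, 0 ≤ a → a ≤ L →
      L * f a ≤ (L - a) * f 0 + a * f L - a * (L - a) * L / 2

/-- SNH (80 lines).  The minimum principle.  PROOF.  `L = 0`: both sides are `0` (`a = 0`).  `L > 0`: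
`w t = sinh L * u t - sinh (L - t) * u 0 - sinh t * u L`, `w 0 = w L = 0`, `w'' t = sinh L * u₂ t -
sinh (L - t) * u 0 - sinh t * u L ≤ w t`.  Suppose `w a < 0`; let `t₀ ∈ [0, L]` be a minimum of `w`
(`IsCompact.exists_isMinOn`), `w t₀ ≤ w a < 0`, so `0 < t₀ < L` and `t₀` is a local minimum, `w' t₀ = 0`
and `w'' t₀ ≤ w t₀ < 0`.  So `w'` has a negative derivative at `t₀`, `w' < 0` on `(t₀, t₀ + ε)`
(`HasDerivAt.eventually..` / slope tends to `w'' t₀`), and by the mean value theorem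
`w t < w t₀` for `t` slightly larger than `t₀`: contradiction.  (Alternatively apply
`isLocalMax_of_deriv_deriv_neg` or its proof to `w`, so that `w` is constant near `t₀`, and then
`w'' t₀ = 0`.) -/
def Stmt_SNH : Prop :=
  ∀ u u₁ u₂ : ℝ → ℝ, (∀ t, HasDerivAt u (u₁ t) t) → (∀ t, HasDerivAt u₁ (u₂ t) t) →
    (∀ t, u₂ t ≤ u t) → ∀ a L : ℝ, 0 ≤ a → a ≤ L →
      sinh (L - a) * u 0 + sinh a * u L ≤ sinh L * u a

/-- CSH (80 lines).  PROOF.  `f t = ρ t ^ 2 / 2`, `ρ t = √ (2 f t)` has the derivative `f₁ t / ρ t`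
(`HasDerivAt.sqrt`), so `u = cosh ∘ ρ` has the derivative `u₁ = sinh ρ * (f₁ / ρ)`, and `u₁` has the
derivative `u₂ = cosh ρ * (f₁ / ρ) ^ 2 + sinh ρ * (f₂ * ρ - f₁ * (f₁ / ρ)) / ρ ^ 2
= cosh ρ * p ^ 2 + (sinh ρ / ρ) * (f₂ - p ^ 2)`, `p = f₁ / ρ`.  By hypothesis
`f₂ - p ^ 2 ≤ (1 - p ^ 2) * (ρ * cosh ρ / sinh ρ)`, and `sinh ρ / ρ > 0`, so
`u₂ ≤ cosh ρ * p ^ 2 + (1 - p ^ 2) * cosh ρ = cosh ρ`. -/
def Stmt_CSH : Prop :=
  ∀ ρ f₁ f₂ : ℝ → ℝ, (∀ t, 0 < ρ t) → (∀ t, HasDerivAt (fun τ => ρ τ ^ 2 / 2) (f₁ t) t) →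
    (∀ t, HasDerivAt f₁ (f₂ t) t) →
    (∀ t, f₂ t ≤ (f₁ t / ρ t) ^ 2 + (1 - (f₁ t / ρ t) ^ 2) * (ρ t * cosh (ρ t) / sinh (ρ t))) →
    ∃ u₁ u₂ : ℝ → ℝ, (∀ t, HasDerivAt (fun τ => cosh (ρ τ)) (u₁ t) t) ∧
      (∀ t, HasDerivAt u₁ (u₂ t) t) ∧ ∀ t, u₂ t ≤ cosh (ρ t)

/-! ## B. Fields along geodesics, first and second variation -/

/-- PAR (60 lines), uses LIN GAM.  Parallel fields.  PROOF.  The linear equation `P' = - B (c s) (c' s) P`: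
LIN with `W = E m`, `A s = - (B (c s) (deriv c s))` (`B` from GAM; continuous: `c` and `deriv c` are
differentiable), `t0 = 1`. -/
def Stmt_PAR : Prop :=
  ∀ (m : ℕ) (G : RMetric m) (c : ℝ → E m), G.IsGeodesic c → ∀ a : E m,
    ∃ P : ℝ → E m, P 1 = a ∧
      ∀ s ∈ Ioo (-1 : ℝ) 2, HasDerivAt P (-G.Gam (c s) (deriv c s) (P s)) s

/-- UPP (150 lines), uses GAM RLN CMT SYR JAC GEO PAR.  The index lemma.

PROOF.  Notation at the time `s`: `⟨,⟩ = G.g (c s)`, `T = deriv c s`, `D X` the covariant derivative;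
`⟨T, T⟩ = r ^ 2` for all `s` (GEO), `D T = 0`.  `q = ⟨J 1, T 1⟩ / r ^ 2`, `a = J 1 - q • T 1`, so
`⟨a, T 1⟩ = 0`; `P` the parallel field with `P 1 = a` (PAR); `⟨P, T⟩ = 0` and `⟨P, P⟩ = ⟨a, a⟩` for all `s`
(CMT: the derivatives vanish; constant on the interval `Ioo (-1) 2`).
`φ s = sinh (r s) / sinh r`, `W s = (s q) • T s + φ s • P s`, `DW = q • T + φ' • P`, `Z = W - J`, `DZ = DW - DJ`;
`W 1 = J 1`, `W 0 = 0`, so `Z 0 = Z 1 = 0`.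
`β s = q ^ 2 r ^ 2 s + ⟨a, a⟩ r sinh (r s) cosh (r s) / sinh r ^ 2`.
`M s = ⟨J, DJ⟩ + 2 ⟨DJ, Z⟩ - β s`.  By JAC `D(DJ) = - R(J, T) T`, so by CMT
`M' = ⟨DJ, DJ⟩ - ⟨R(J,T)T, J⟩ + 2 (- ⟨R(J,T)T, Z⟩ + ⟨DJ, DZ⟩) - β'`.
With `Q(X, DX) = ⟨DX, DX⟩ - ⟨R(X,T)T, X⟩`, `W = J + Z` and the symmetry
`⟨R(J,T)T, Z⟩ = ⟨R(Z,T)T, J⟩` (SYR: third and first two claims; RLN: `Rm` is trilinear):
`M' = Q(W, DW) - Q(Z, DZ) - β'`.  `Q(Z, DZ) ≥ 0` by `Npc`.  By `Cge`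
`Q(W, DW) ≤ ⟨DW, DW⟩ + ⟨W, W⟩ r ^ 2 - ⟨W, T⟩ ^ 2 = q ^ 2 r ^ 2 + φ' ^ 2 ⟨a, a⟩ + φ ^ 2 ⟨a, a⟩ r ^ 2`, and
`φ' ^ 2 + r ^ 2 φ ^ 2 = r ^ 2 (cosh ^ 2 + sinh ^ 2)(r s) / sinh r ^ 2`, so `Q(W, DW) ≤ β'`.
Hence `M' ≤ 0` on `Icc 0 1`, `M 0 = 0` (`J 0 = 0`, `Z 0 = 0`), so `M 1 ≤ 0`
(`antitoneOn_of_deriv_nonpos`): `⟨J 1, DJ 1⟩ ≤ β 1 = q ^ 2 r ^ 2 + ⟨a, a⟩ r cosh r / sinh r`, and
`q ^ 2 r ^ 2 = (⟨J 1, T 1⟩ / r) ^ 2`, `⟨a, a⟩ = ⟨J 1, J 1⟩ - (⟨J 1, T 1⟩ / r) ^ 2`. -/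
def Stmt_UPP : Prop :=
  ∀ (m : ℕ) (G : RMetric m), G.Npc → G.Cge → ∀ c : ℝ → E m, G.IsGeodesic c →
    ∀ J V : ℝ → E m, G.IsVar c J V → J 0 = 0 → ∀ r : ℝ, 0 < r →
      G.g (c 1) (deriv c 1) (deriv c 1) = r ^ 2 →
      G.g (c 1) (J 1) (G.cov (c 1) (deriv c 1) (J 1) (V 1)) ≤
        (G.g (c 1) (J 1) (deriv c 1) / r) ^ 2 +
        (G.g (c 1) (J 1) (J 1) - (G.g (c 1) (J 1) (deriv c 1) / r) ^ 2) *
          (r * cosh r / sinh r)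

/-- CRV (80 lines), uses EXD INJ.  PROOF.  `v = lo q (c t)`, so `ex q v = c t` (INJ); `D`, `P` from EXD for
`q`, `v`; INJ: `lo q` has the strict derivative `D.symm` at `c t`, so `τ ↦ lo q (c τ)` has the derivative
`w = D.symm c'` at `t`, `D w = c'`.  The fields of EXD for `w`; `τ ↦ deriv (gd q (lo q (c τ))) 1` has the
derivative `P w = V 1` (chain rule).  The last two claims are those of EXD for `w`. -/
def Stmt_CRV : Prop :=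
  ∀ (m : ℕ) (G : RMetric m) (hc : G.Complete), G.Npc → ∀ (q : E m) (c : ℝ → E m) (c' : E m)
    (t : ℝ), HasDerivAt c c' t →
    ∃ (w : E m) (J V : ℝ → E m), HasDerivAt (fun τ => G.lo hc q (c τ)) w t ∧
      G.IsVar (G.gd hc q (G.lo hc q (c t))) J V ∧ J 0 = 0 ∧ J 1 = c' ∧
      HasDerivAt (fun τ => deriv (G.gd hc q (G.lo hc q (c τ))) 1) (V 1) t ∧
      G.g (c t) c' (deriv (G.gd hc q (G.lo hc q (c t))) 1) = G.g q w (G.lo hc q (c t)) ∧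
      G.g (c t) c' c' ≤
        G.g (c t) c' (G.cov (c t) (deriv (G.gd hc q (G.lo hc q (c t))) 1) c' (V 1))

/-- VAR (40 lines), uses CRV.  First variation.  PROOF.  With `w` from CRV the derivative of
`g_q(v, v) / 2`, `v = lo q (c τ)`, is `g_q(v, w)` (product rule, symmetry of `g`), which is
`g(N, c')` by CRV. -/
def Stmt_VAR : Prop :=
  ∀ (m : ℕ) (G : RMetric m) (hc : G.Complete), G.Npc → ∀ (q : E m) (c : ℝ → E m) (c' : E m)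
    (t : ℝ), HasDerivAt c c' t →
    HasDerivAt (fun τ => G.g q (G.lo hc q (c τ)) (G.lo hc q (c τ)) / 2)
      (G.g (c t) (deriv (G.gd hc q (G.lo hc q (c t))) 1) c') t

/-- VR2 (60 lines), uses CRV CMT GAM.  Second variation.  PROOF.  `w, J, V` from CRV with
`c' = deriv c t`.  `N τ = deriv (gd q (lo q (c τ))) 1` has the derivative `V 1` at `t`.  CMT (2) along `c`
for the fields `N` and `deriv c` (`cov .. (deriv c t) (- Γ) = 0`): the derivative of `g(N, deriv c)` is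
`g(V 1 + Γ(deriv c t, N t), deriv c t)`, and `Γ(deriv c t, N t) = Γ(N t, J 1)` (GAM: symmetry;
`J 1 = deriv c t`). -/
def Stmt_VR2 : Prop :=
  ∀ (m : ℕ) (G : RMetric m) (hc : G.Complete), G.Npc → ∀ (q : E m) (c : ℝ → E m),
    G.IsGeodesic c → ∀ t : ℝ, ∃ J V : ℝ → E m,
      G.IsVar (G.gd hc q (G.lo hc q (c t))) J V ∧ J 0 = 0 ∧ J 1 = deriv c t ∧
      HasDerivAt (fun τ => G.g (c τ) (deriv (G.gd hc q (G.lo hc q (c τ))) 1) (deriv c τ))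
        (G.g (c t) (J 1)
          (G.cov (c t) (deriv (G.gd hc q (G.lo hc q (c t))) 1) (J 1) (V 1))) t ∧
      G.g (c t) (deriv c t) (deriv c t) ≤ G.g (c t) (J 1)
          (G.cov (c t) (deriv (G.gd hc q (G.lo hc q (c t))) 1) (J 1) (V 1))

/-- SND (80 lines), uses VAR VR2 UPP GEO DIS INJ CSC.  PROOF.  `rdist q x ^ 2 = g_q(lo q x, lo q x)` (DIS, CSC).
`f₁ t = g(c t)(N t, deriv c t)`, `N t = deriv (gd q (lo q (c t))) 1`: VAR.  `f₂ t` from VR2 (choice);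
`f₂ t ≥ g(deriv c t, deriv c t) = 1` (VR2; GEO (5): constant speed, CSC).  Upper bound: UPP with
`r = rdist q (c t)` for the geodesic `gd q v`, `v = lo q (c t)` (`gd q v 1 = ex q v = c t`, INJ),
`g(N t, N t) = r ^ 2` (GEO (5): the speed at time `1` is the speed `nrm q v` at time `0`),
`g(J 1, N t) = f₁ t`, `g(J 1, J 1) = 1`. -/
def Stmt_SND : Prop :=
  ∀ (m : ℕ) (G : RMetric m) (hc : G.Complete), G.Npc → ∀ (q : E m) (c : ℝ → E m), G.Unit1 c →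
    ∃ f₁ f₂ : ℝ → ℝ, (∀ t, HasDerivAt (fun τ => G.rdist q (c τ) ^ 2 / 2) (f₁ t) t) ∧
      (∀ t, HasDerivAt f₁ (f₂ t) t) ∧ (∀ t, 1 ≤ f₂ t) ∧
      (∀ t, f₁ t = G.g (c t) (deriv (G.gd hc q (G.lo hc q (c t))) 1) (deriv c t)) ∧
      (G.Cge → ∀ t, 0 < G.rdist q (c t) →
        f₂ t ≤ (f₁ t / G.rdist q (c t)) ^ 2 + (1 - (f₁ t / G.rdist q (c t)) ^ 2) *
          (G.rdist q (c t) * cosh (G.rdist q (c t)) / sinh (G.rdist q (c t))))

/-! ## C. The comparison theorems -/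

/-- STW (30 lines), uses SND CVX.  PROOF.  CVX for `f τ = rdist q (c τ) ^ 2 / 2`, multiplied by 2. -/
def Stmt_STW : Prop :=
  ∀ (m : ℕ) (G : RMetric m), G.Complete → G.Npc → ∀ (q : E m) (c : ℝ → E m), G.Unit1 c →
    ∀ a L : ℝ, 0 ≤ a → a ≤ L →
      L * G.rdist q (c a) ^ 2 ≤ (L - a) * G.rdist q (c 0) ^ 2 + a * G.rdist q (c L) ^ 2
        - a * (L - a) * L

/-- STH (80 lines), uses SND CSH SNH MIN DIS.  PROOF.  If `0 < rdist q (c t)` for all `t`: CSH for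
`ρ t = rdist q (c t)` and SNH.  Otherwise `q = c t₀` for some `t₀` (DIS) and `rdist q (c t) = |t₀ - t|`
for all `t` (MIN), so `u t = cosh (rdist q (c t)) = cosh (t - t₀)` satisfies `u'' = u`: SNH. -/
def Stmt_STH : Prop :=
  ∀ (m : ℕ) (G : RMetric m), G.Complete → G.Npc → G.Cge → ∀ (q : E m) (c : ℝ → E m), G.Unit1 c →
    ∀ a L : ℝ, 0 ≤ a → a ≤ L →
      sinh (L - a) * cosh (G.rdist q (c 0)) + sinh a * cosh (G.rdist q (c L)) ≤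
        sinh L * cosh (G.rdist q (c a))

/-- SGM (60 lines), uses CSC GEO INJ DIS MIN.  PROOF.  `L = rdist p q > 0` (DIS), `v = lo p q`,
`nrm p v = L` (DIS), `u = L⁻¹ • v`, `c = gd p u`, `nrm p u = 1` (CSC (3)), `c L = gd p (L • u) 1 = ex p v = q`
(GEO (4), INJ).  Uniqueness: `L • deriv c₂ 0 = lo p q` by MIN (1) with `a = 0`, `b = L`; so
`deriv c₂ 0 = u` and `c₂ = c` by GEO (1). -/
def Stmt_SGM : Prop :=
  ∀ (m : ℕ) (G : RMetric m), G.Complete → G.Npc → ∀ p q : E m, p ≠ q →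
    ∃ c : ℝ → E m, G.Unit1 c ∧ c 0 = p ∧ c (G.rdist p q) = q ∧
      ∀ c₂ : ℝ → E m, G.Unit1 c₂ → c₂ 0 = p → c₂ (G.rdist p q) = q → c₂ = c

/-- BTG (50 lines), uses SGM MIN GEO INJ DIS BTW.  PROOF.  `L = rdist y z > 0` (DIS), `c` from SGM for `y, z`;
`lo y z = L • deriv c 0` (MIN (1)).  BTW: `p = ex y (s • lo y z) = gd y (s • L • deriv c 0) 1 = c (s L)`
(GEO (3) with `b = 0`) and `rdist y p = s * L`. -/
def Stmt_BTG : Prop :=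
  ∀ (m : ℕ) (G : RMetric m), G.Complete → G.Npc → ∀ y p z : E m, y ≠ z →
    G.rdist y p + G.rdist p z = G.rdist y z →
    ∃ c : ℝ → E m, G.Unit1 c ∧ c 0 = y ∧ c (G.rdist y p) = p ∧ c (G.rdist y z) = z

/-- NPB (40 lines), uses BTG STW DIS.  PROOF.  `y = z`: then `rdist y p = rdist p z = 0` (nonnegative,
sum `0`; symmetric) and `p = y`, all terms vanish.  Otherwise BTG and STW with `a = rdist y p`,
`L = rdist y z`, `L - a = rdist p z`. -/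
def Stmt_NPB : Prop :=
  ∀ (m : ℕ) (G : RMetric m), G.Complete → G.Npc → ∀ y p z q : E m,
    G.rdist y p + G.rdist p z = G.rdist y z →
    G.rdist y z * G.rdist q p ^ 2 ≤ G.rdist p z * G.rdist q y ^ 2 + G.rdist y p * G.rdist q z ^ 2
      - G.rdist y p * G.rdist p z * G.rdist y z

/-- CGB (40 lines), uses BTG STH DIS.  PROOF.  As NPB. -/
def Stmt_CGB : Prop :=
  ∀ (m : ℕ) (G : RMetric m), G.Complete → G.Npc → G.Cge → ∀ y p z q : E m,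
    G.rdist y p + G.rdist p z = G.rdist y z →
    sinh (G.rdist p z) * cosh (G.rdist q y) + sinh (G.rdist y p) * cosh (G.rdist q z)
      ≤ sinh (G.rdist y z) * cosh (G.rdist q p)

/-! ## D. Angles -/

/-- FVA (80 lines), uses SND MIN GEO DIS.  First variation at the initial point.  PROOF.  `q = c₂ t`,
`f s = rdist q (c₁ s) ^ 2 / 2`, derivative `f₁ 0` at `0` (SND) with
`f₁ 0 = g(deriv (gd q (lo q p)) 1, deriv c₁ 0)`, `p = c₁ 0 = c₂ 0`.  MIN (1) for `c₂`, `a = t`, `b = 0`: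
`lo q p = (- t) • deriv c₂ t`; GEO (3): `gd q (lo q p) r = c₂ (- t * r + t)`, whose derivative at `r = 1` is
`- t • deriv c₂ 0` (GEO (2)).  So `f₁ 0 = - t * κ`, `κ = g_p(deriv c₁ 0, deriv c₂ 0)` (symmetry);
`f 0 = t ^ 2 / 2` (MIN (2)).  `(s ^ 2 + t ^ 2 - 2 f s) / (2 s t) = s / (2 t) - ((f s - f 0) / s) / t → κ` as
`s → 0`, `s > 0` (`rdist` is symmetric, DIS). -/
def Stmt_FVA : Prop :=
  ∀ (m : ℕ) (G : RMetric m), G.Complete → G.Npc → ∀ c₁ c₂ : ℝ → E m, G.Unit1 c₁ → G.Unit1 c₂ →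
    c₁ 0 = c₂ 0 → ∀ t : ℝ, 0 < t →
    Tendsto (fun s => (s ^ 2 + t ^ 2 - G.rdist (c₁ s) (c₂ t) ^ 2) / (2 * s * t)) (𝓝[>] 0)
      (𝓝 (G.g (c₁ 0) (deriv c₁ 0) (deriv c₂ 0)))

/-- ANG (100 lines), uses FVA STW MIN DIS GEO.  PROOF.  `F s t = (s ^ 2 + t ^ 2 - rdist (c₁ s) (c₂ t) ^ 2) /
(2 s t)`, `κ = g(deriv c₁ 0, deriv c₂ 0)`.  (1) `F s' t ≤ F s t` for `0 < s ≤ s'`, `0 < t`: STW for `c₁`,
`q = c₂ t`, `a = s`, `L = s'`, with `rdist (c₂ t) (c₁ 0) = t` (MIN):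
`s' d_s ^ 2 ≤ (s' - s) t ^ 2 + s d_(s') ^ 2 - s (s' - s) s'`, which is equivalent to the claim
(multiply by `2 s s' t`).  The same in `t` (symmetry of `rdist`).  (2) FVA and (1): `F s t ≤ κ` for all
`s, t > 0`.  (3) For `ε > 0` take `t₀ = 1` and `s₀` with `F s₀ t₀ ≥ κ - ε` (FVA); for `s ≤ s₀`, `t ≤ t₀`:
`F s t ≥ F s₀ t₀ ≥ κ - ε`.  So `F → κ` along `𝓝[>] 0 ×ˢ 𝓝[>] 0`; compose with the continuous
function `arccos`. -/
def Stmt_ANG : Prop :=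
  ∀ (m : ℕ) (G : RMetric m), G.Complete → G.Npc → ∀ c₁ c₂ : ℝ → E m, G.Unit1 c₁ → G.Unit1 c₂ →
    c₁ 0 = c₂ 0 →
    Tendsto (fun s : ℝ × ℝ =>
      arccos ((s.1 ^ 2 + s.2 ^ 2 - G.rdist (c₁ s.1) (c₂ s.2) ^ 2) / (2 * s.1 * s.2)))
      (𝓝[>] 0 ×ˢ 𝓝[>] 0) (𝓝 (G.angle (c₁ 0) (deriv c₁ 0) (deriv c₂ 0)))

/-- COS (80 lines), uses FVA STW MIN DIS GEO.  If the distances near the vertex are
those of a hyperbolic triangle then the angle is the hyperbolic one.  PROOF.  As in the proof of ANG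
(copy it) `F s s → g(deriv c₁ 0, deriv c₂ 0)` as `s → 0`, `s > 0`.
`d = rdist (c₁ s) (c₂ s)`, `cosh d = cosh s ^ 2 - κ * sinh s ^ 2`: the lemmas `EE_le_CC` and
`one_sub_EE_le` of `MP_a6f1bd_gt/Compare.lean` with `a = r = s` (`CC s s d = κ`) give
`F s s = EE s s d ≤ κ` and `1 - F s s ≤ (1 - κ) * (sinh s / s) ^ 2 → 1 - κ` (`tendsto_sinh_div`). -/
def Stmt_COS : Prop :=
  ∀ (m : ℕ) (G : RMetric m), G.Complete → G.Npc → ∀ c₁ c₂ : ℝ → E m, G.Unit1 c₁ → G.Unit1 c₂ →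
    c₁ 0 = c₂ 0 → ∀ δ κ : ℝ, 0 < δ →
    (∀ s, 0 < s → s < δ → cosh (G.rdist (c₁ s) (c₂ s)) = cosh s ^ 2 - κ * sinh s ^ 2) →
    G.g (c₁ 0) (deriv c₁ 0) (deriv c₂ 0) = κ

/-! ## E. The logarithm in the hyperboloid model, linear algebra -/

/-- The logarithm (inverse of the exponential map) of hyperbolic space at `y`, in the hyperboloid
model: the tangent vector at `y` which points to `p`, of length `dist y p`. -/
noncomputable def hlog {m : ℕ} (y p : Hyp m) : ℝ × EuclideanSpace ℝ (Fin m) :=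
  (dist y p / sinh (dist y p)) • (p.vec - cosh (dist y p) • y.vec)

/-- HLO (50 lines).  PROOF.  `lor y.vec p.vec = cosh (dist y p)` (`cosh_dist`), `lor` bilinear; with
`a = dist y p`, `b = dist y q`, `d = dist p q`:
`lor (hlog y p) (hlog y q) = (a / sinh a) (b / sinh b) (cosh d - cosh a cosh b)`; first claim:
`cosh a - cosh a * 1 = 0`. -/
def Stmt_HLO : Prop :=
  ∀ (m : ℕ) (y p q : Hyp m), lor (hlog y p) y.vec = 0 ∧
    lor (hlog y p) (hlog y q) =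
      (dist y p / sinh (dist y p)) * (dist y q / sinh (dist y q)) *
        (cosh (dist p q) - cosh (dist y p) * cosh (dist y q))

/-- HSP (120 lines), uses nothing.  The logarithms of the points of an ideal triangle are in a plane.
PROOF.  `V = span {y.vec, (c 0).vec, (c 1).vec}`.  (1) `(c t).vec ∈ V` for `t ≥ 0`: `t ≤ 1`:
`Btw (c 0) (c t) (c 1)`, `Hyp.vec_btw`, `sinh 1 ≠ 0`; `t > 1`: `Btw (c 0) (c 1) (c t)`:
`sinh t • (c 1).vec = sinh (t - 1) • (c 0).vec + sinh 1 • (c t).vec`.  (2) `p.vec ∈ V` if `Btw y p (c t)`: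
`Hyp.vec_btw` if `dist y (c t) ≠ 0`; otherwise `p = y`.  (3) `{p | p.vec ∈ V}` is closed (`Hyp.vec` is
continuous: see `norm_sub_le` in Model2.lean, `cosh (dist p q) - 1 → 0`; `V` is closed,
`Submodule.closed_of_finiteDimensional`; or take sequences).  So `p.vec ∈ V` for all `p` in the
ideal triangle.  (4) `hlog y p ∈ V` and `lor (hlog y p) y.vec = 0`.  Write
`hlog y p = α • y.vec + β • (c 0).vec + γ • (c 1).vec`; with `a = (c 0).vec - lor .. • y.vec`,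
`b = (c 1).vec - lor .. • y.vec` (orthogonal to `y.vec`, `lor y.vec y.vec = 1`) it is
`α' • y.vec + β • a + γ • b`, and pairing with `y.vec` gives `α' = 0`. -/
def Stmt_HSP : Prop :=
  ∀ (m : ℕ) (c : ℝ → Hyp m), IsRay c → ∀ y : Hyp m, ∃ a b : ℝ × EuclideanSpace ℝ (Fin m),
    ∀ p ∈ idealTriangle c y, hlog y p ∈ Submodule.span ℝ ({a, b} : Set _)

/-- IOT (80 lines).  PROOF.  Let `F = Finsupp.linearCombination ℝ f`, `H = Finsupp.linearCombination ℝ h`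
on `T →₀ ℝ`.  For `z ∈ ker F`: `B (H z) (H z) = ∑∑ z_p z_q B (h p) (h q) = ∑∑ z_p z_q A (f p) (f q)
= A (F z) (F z) = 0`, so `H z = 0` because `B` is positive definite.  So `ker F ≤ ker H`; `H` factors
through the range of `F` (`LinearMap.quotKerEquivRange`, `Submodule.liftQ`), and the linear map on
the range extends to `V` (`LinearMap.exists_extend`). -/
def Stmt_IOT : Prop :=
  ∀ (T V W : Type) [AddCommGroup V] [Module ℝ V] [AddCommGroup W] [Module ℝ W]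
    (A : V →ₗ[ℝ] V →ₗ[ℝ] ℝ) (B : W →ₗ[ℝ] W →ₗ[ℝ] ℝ) (f : T → V) (h : T → W),
    (∀ w, w ≠ 0 → 0 < B w w) → (∀ p q, B (h p) (h q) = A (f p) (f q)) →
    ∃ ι : V →ₗ[ℝ] W, ∀ p, ι (f p) = h p

/-! ## F. The metric space and the final theorem -/

/-- The points, without the structure of a vector space. -/
def Pt (m : ℕ) : Type := E m

/-- The metric space `(ℝ^m, rdist)`. -/
noncomputable abbrev RMetric.msp {m : ℕ} (G : RMetric m) (h : G.DAx) : MetricSpace (Pt m) where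
  dist := G.rdist
  dist_self := h.self
  dist_comm := h.comm
  dist_triangle := h.tri
  eq_of_dist_eq_zero := fun {x y} hxy => h.eq x y hxy

/-- MSP (60 lines), uses DIS CPL SGM MIN NPB CGB.  PROOF.  `DAx` from DIS.  Completeness:
`Metric.complete_of_cauchySeq_tendsto` and CPL.  Geodesic space: SGM, MIN (2) (`p = q`: the constant
curve).  The comparison conditions are NPB and CGB word for word. -/
def Stmt_MSP : Prop :=
  ∀ (m : ℕ) (G : RMetric m), G.Complete → G.Npc → ∃ h : G.DAx,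
    @CompleteSpace (Pt m) (G.msp h).toUniformSpace ∧ @IsGeodesicSpace (Pt m) (G.msp h) ∧
    @IsNonposCurved (Pt m) (G.msp h) ∧ (G.Cge → @IsCurvGeNegOne (Pt m) (G.msp h))

/-- CLO (60 lines), uses TOP DIS.  The two topologies have the same closures.  PROOF.  Both topologies are
first countable: `mem_closure_iff_seq_limit`, and TOP with `ι = ℕ`, `l = atTop` (`rdist` is symmetric). -/
def Stmt_CLO : Prop :=
  ∀ (m : ℕ) (G : RMetric m), G.Complete → G.Npc → ∀ (h : G.DAx) (S : Set (E m)),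
    @closure (Pt m) (G.msp h).toUniformSpace.toTopologicalSpace S = closure S

/-- SGB (80 lines), uses MIN BTG DIS GEO.  Segments.  PROOF.  `⊆`: MIN (2) for the geodesic
`c`, `c 0 = p`, `c 1 = q`: `rdist p (c s) + rdist (c s) q = (s + (1 - s)) * nrm = rdist p q`.
`⊇`: `p = q`: `rdist p x = 0`, `x = p` (DIS), and the constant curve is a geodesic with `c 0 = c 1 = p`
(`c = gd p 0`: `gd p 0 r = gd p ((0:ℝ) • 0) r = gd p 0 0 = p`, GEO (4)).  `p ≠ q`: BTG gives `c₁` with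
`c₁ (rdist p x) = x`, `c₁ (rdist p q) = q`; `c s = c₁ (L * s + 0)`, `L = rdist p q` (GEO (2)),
`s = rdist p x / L`. -/
def Stmt_SGB : Prop :=
  ∀ (m : ℕ) (G : RMetric m), G.Complete → G.Npc → ∀ p q : E m,
    G.seg p q = {x | G.rdist p x + G.rdist x q = G.rdist p q}

/-- The metric form of the theorem (helper52's theorem for `(ℝ^m, rdist)`), in explicit terms. -/
def Stmt_RIG : Prop :=
  ∀ (m : ℕ) (G : RMetric m), G.Complete → G.Npc → G.Cge →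
    ∀ γ : ℝ → E m, G.Unit1 γ → ∀ y : E m, y ≠ γ 0 →
    ∀ σ : ℝ → E m, G.Unit1 σ → σ 0 = γ 0 → σ (G.rdist (γ 0) y) = y →
    ∀ (γ₁ σ₁ : ℝ → Hyp m) (y₁ : Hyp m), IsRay γ₁ → IsSeg σ₁ (γ₁ 0) y₁ →
    G.rdist (γ 0) y = dist (γ₁ 0) y₁ →
    ∀ b : ℝ, Tendsto (fun t : ℝ => G.rdist y (γ t) - t) atTop (𝓝 b) → IsBusemann γ₁ y₁ b →
    IsAngle γ₁ σ₁ (G.angle (γ 0) (deriv γ 0) (deriv σ 0)) →
    (∀ p ∈ G.tri γ y, ∀ q ∈ G.tri γ y, G.seg p q ⊆ G.tri γ y) ∧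
    ∃ Φ : Hyp m → E m, BijOn Φ (idealTriangle γ₁ y₁) (G.tri γ y) ∧
      (∀ p ∈ idealTriangle γ₁ y₁, ∀ q ∈ idealTriangle γ₁ y₁,
        G.rdist (Φ p) (Φ q) = dist p q) ∧
      (∀ s ∈ Icc 0 (dist (γ₁ 0) y₁), σ₁ s ∈ idealTriangle γ₁ y₁ ∧ Φ (σ₁ s) = σ s) ∧
      (∀ t, 0 ≤ t → γ₁ t ∈ idealTriangle γ₁ y₁ ∧ Φ (γ₁ t) = γ t) ∧
      ∀ δ : ℝ → E m, G.Unit1 δ → δ 0 = y →
        (∃ K, ∀ t, 0 ≤ t → G.rdist (δ t) (γ t) ≤ K) →
        ∃ δ₁ : ℝ → Hyp m, IsRay δ₁ ∧ δ₁ 0 = y₁ ∧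
          (∃ K, ∀ t, 0 ≤ t → dist (δ₁ t) (γ₁ t) ≤ K) ∧
          ∀ t, 0 ≤ t → δ₁ t ∈ idealTriangle γ₁ y₁ ∧ Φ (δ₁ t) = δ t

/-- FRG (150 lines), uses MSP CLO SGB MIN ANG.  PROOF of `Stmt_RIG`.  `letI := G.msp h` on `Pt m`,
`rigidity` of `MP_a6f1bd_gt/Main.lean` with `M = Pt m`: `γ` is a ray and `σ` a segment (MIN (2)), the angle
condition is ANG (`IsAngle` unfolds to it).  The triangle: `Btw y p (γ t) ↔ p ∈ seg y (γ t)` (SGB), and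
CLO.  `IsGeodConvex` with SGB.  The rays `δ`: MIN. -/
def Stmt_FRG : Prop := Stmt_RIG

/-- GRM (120 lines), uses COS HLO SGM MIN SGB DIS INJ.  The logarithms have the same Gram matrix.

PROOF.  `T₁ = idealTriangle γ₁ y₁`, `T = tri γ y`, `Φ` as in RIG, `Φ y₁ = y`.  Let `p, q ∈ T₁`, `a = dist y₁ p`,
`b = dist y₁ q`; if `a = 0` or `b = 0` both sides are `0` (`Φ p = y`, `lo y y = 0`, `hlog y₁ y₁ = 0`).
Otherwise let `c₁`, `c₂` be the unit speed geodesics from `y` to `Φ p`, `Φ q` (SGM;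
`lo y (Φ p) = a • deriv c₁ 0` by MIN (1)), `0 < s < min a b`.  `c₁ s ∈ seg y (Φ p) ⊆ T`, so `c₁ s = Φ p'`, `p' ∈ T₁`, with
`dist y₁ p' = s`, `dist p' p = a - s`, so `Btw y₁ p' p`; similarly `q'`.  `rdist (c₁ s) (c₂ s) = dist p' q'`,
and by `Hyp.CC_eq` (twice) `CC s s (dist p' q') = CC a b (dist p q) =: κ`, that is
`cosh (dist p' q') = cosh s ^ 2 - κ sinh s ^ 2`.  COS: `g(deriv c₁ 0, deriv c₂ 0) = κ`, and
`g(lo y (Φ p), lo y (Φ q)) = a b κ = - lor (hlog y₁ p) (hlog y₁ q)` by HLO. -/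
def Stmt_GRM : Prop :=
  ∀ (m : ℕ) (G : RMetric m) (hc : G.Complete), G.Npc → ∀ (T : Set (E m)) (y : E m) (y₁ : Hyp m)
    (T₁ : Set (Hyp m)) (Φ : Hyp m → E m), BijOn Φ T₁ T → y₁ ∈ T₁ → Φ y₁ = y →
    (∀ p ∈ T, G.seg y p ⊆ T) → (∀ p ∈ T₁, ∀ q ∈ T₁, G.rdist (Φ p) (Φ q) = dist p q) →
    ∀ p ∈ T₁, ∀ q ∈ T₁,
      G.g y (G.lo hc y (Φ p)) (G.lo hc y (Φ q)) = -lor (hlog y₁ p) (hlog y₁ q)

/-- THE THEOREM.  In addition `Φ = exp_y ∘ ι ∘ log_(y₁)` with a linear isometry `ι`, and the triangle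
lies in the surface `exp_y(P)`, `P` a linear subspace of the tangent space at `y` of dimension at
most 2. -/
def Stmt_MAIN : Prop :=
  ∀ (m : ℕ) (G : RMetric m) (hc : G.Complete), G.Npc → G.Cge →
    ∀ γ : ℝ → E m, G.Unit1 γ → ∀ y : E m, y ≠ γ 0 →
    ∀ σ : ℝ → E m, G.Unit1 σ → σ 0 = γ 0 → σ (G.rdist (γ 0) y) = y →
    ∀ (γ₁ σ₁ : ℝ → Hyp m) (y₁ : Hyp m), IsRay γ₁ → IsSeg σ₁ (γ₁ 0) y₁ →
    G.rdist (γ 0) y = dist (γ₁ 0) y₁ →
    ∀ b : ℝ, Tendsto (fun t : ℝ => G.rdist y (γ t) - t) atTop (𝓝 b) → IsBusemann γ₁ y₁ b →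
    IsAngle γ₁ σ₁ (G.angle (γ 0) (deriv γ 0) (deriv σ 0)) →
    (∀ p ∈ G.tri γ y, ∀ q ∈ G.tri γ y, G.seg p q ⊆ G.tri γ y) ∧
    ∃ Φ : Hyp m → E m, BijOn Φ (idealTriangle γ₁ y₁) (G.tri γ y) ∧
      (∀ p ∈ idealTriangle γ₁ y₁, ∀ q ∈ idealTriangle γ₁ y₁,
        G.rdist (Φ p) (Φ q) = dist p q) ∧
      (∀ s ∈ Icc 0 (dist (γ₁ 0) y₁), σ₁ s ∈ idealTriangle γ₁ y₁ ∧ Φ (σ₁ s) = σ s) ∧
      (∀ t, 0 ≤ t → γ₁ t ∈ idealTriangle γ₁ y₁ ∧ Φ (γ₁ t) = γ t) ∧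
      (∀ δ : ℝ → E m, G.Unit1 δ → δ 0 = y →
        (∃ K, ∀ t, 0 ≤ t → G.rdist (δ t) (γ t) ≤ K) →
        ∃ δ₁ : ℝ → Hyp m, IsRay δ₁ ∧ δ₁ 0 = y₁ ∧
          (∃ K, ∀ t, 0 ≤ t → dist (δ₁ t) (γ₁ t) ≤ K) ∧
          ∀ t, 0 ≤ t → δ₁ t ∈ idealTriangle γ₁ y₁ ∧ Φ (δ₁ t) = δ t) ∧
      ∃ (P : Submodule ℝ (E m)) (ι : ℝ × EuclideanSpace ℝ (Fin m) →ₗ[ℝ] E m),
        Module.finrank ℝ P ≤ 2 ∧
        (∀ p ∈ idealTriangle γ₁ y₁, ι (hlog y₁ p) ∈ P ∧ Φ p = G.ex hc y (ι (hlog y₁ p))) ∧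
        ∀ p ∈ idealTriangle γ₁ y₁, ∀ q ∈ idealTriangle γ₁ y₁,
          G.g y (ι (hlog y₁ p)) (ι (hlog y₁ q)) = -lor (hlog y₁ p) (hlog y₁ q)

/-- FIN (80 lines), uses FRG GRM HSP IOT INJ SGB.  PROOF of `Stmt_MAIN`.  FRG; `y₁ = σ₁ (dist (γ₁ 0) y₁)`, so
`y₁ ∈ T₁` and `Φ y₁ = σ (..) = y`.  GRM with `T = tri γ y`.  IOT with the index type `T₁`,
`A = - lor` (bilinear: `lor_add_left` etc.), `B = G.g y`, `f p = hlog y₁ p`, `h p = lo y (Φ p)`; so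
`ι (hlog y₁ p) = lo y (Φ p)` and `ex y (..) = Φ p` (INJ).  HSP: `P = span {ι a, ι b}`. -/
def Stmt_FIN : Prop := Stmt_MAIN

end Pool.Agent.Work.MP_a6f1bd_R
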