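import Pool.Agent.Work.MP_a6f1bd_gt.Main

/-!
# Riemannian metrics on `ℝ^m` (MP_a6f1bd_gt, Q1): the definitions of the statement
-/

set_option autoImplicit false

namespace Pool.Agent.Work.MP_a6f1bd_M

open Real Filter Topology Set
open scoped ContDiff
open Pool.Agent.Work.MP_a6f1bd_gt

/-- The coordinate space `ℝ^m`. -/
abbrev E (m : ℕ) := EuclideanSpace ℝ (Fin m)

/-- A smooth Riemannian metric on `ℝ^m`: an inner product `g x` on the tangent space at each point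
`x`, depending smoothly on `x`. -/
structure Metric (m : ℕ) where
  /-- the metric tensor -/
  g : E m → E m → E m → ℝ
  smooth : ∀ v w, ContDiff ℝ ∞ fun x => g x v w
  add : ∀ x u v w, g x (u + v) w = g x u w + g x v w
  smul : ∀ x (a : ℝ) v w, g x (a • v) w = a * g x v w
  symm : ∀ x v w, g x v w = g x w v
  pos : ∀ x v, v ≠ 0 → 0 < g x v v

namespace Metric

variable {m : ℕ} (G : Metric m)

/-- The length of a tangent vector. -/
noncomputable def nrm (x v : E m) : ℝ := √(G.g x v v)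

/-- The derivative of `g(v, w)` in the direction `u` at the point `x`. -/
noncomputable def dg (x u v w : E m) : ℝ := fderiv ℝ (fun y => G.g y v w) x u

/-- The Christoffel symbols of the Levi-Civita connection: `Γ(u, v)` is the vector with
`g(Γ(u, v), w) = (∂_u g(v, w) + ∂_v g(u, w) - ∂_w g(u, v)) / 2` for all `w`. -/
noncomputable def Gam (x u v : E m) : E m :=
  Classical.epsilon fun z : E m => ∀ w, G.g x z w = (G.dg x u v w + G.dg x v u w - G.dg x w u v) / 2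

/-- The derivative of `Γ(v, w)` in the direction `u` at the point `x`. -/
noncomputable def dGam (x u v w : E m) : E m := fderiv ℝ (fun y => G.Gam y v w) x u

/-- The Riemann curvature tensor `R(u, v) w = ∇_u ∇_v w - ∇_v ∇_u w` (`u, v, w` constant vector
fields). -/
noncomputable def Rm (x u v w : E m) : E m :=
  G.dGam x u v w - G.dGam x v u w + G.Gam x u (G.Gam x v w) - G.Gam x v (G.Gam x u w)

/-- The sectional curvature of the plane spanned by `u` and `v` at `x`. -/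
noncomputable def sec (x u v : E m) : ℝ :=
  G.g x (G.Rm x u v v) u / (G.g x u u * G.g x v v - G.g x u v ^ 2)

/-- All sectional curvatures are between `-1` and `0`. -/
def Pinched : Prop :=
  ∀ x u v : E m, LinearIndependent ℝ ![u, v] → -1 ≤ G.sec x u v ∧ G.sec x u v ≤ 0

/-- `c` is a geodesic, defined for all times: `c'' = - Γ(c', c')`. -/
def IsGeodesic (c : ℝ → E m) : Prop :=
  ∀ t, HasDerivAt c (deriv c t) t ∧
    HasDerivAt (deriv c) (-G.Gam (c t) (deriv c t) (deriv c t)) t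

/-- The metric is (geodesically) complete: all geodesics are defined for all times. -/
def Complete : Prop := ∀ x v : E m, ∃ c : ℝ → E m, G.IsGeodesic c ∧ c 0 = x ∧ deriv c 0 = v

/-- The length of the curve `c` on `[0, 1]`. -/
noncomputable def length (c : ℝ → E m) : ℝ := ∫ t in (0 : ℝ)..1, G.nrm (c t) (deriv c t)

/-- The Riemannian distance: the infimum of the lengths of the `C¹` curves from `p` to `q`. -/
noncomputable def rdist (p q : E m) : ℝ :=
  sInf {L : ℝ | ∃ c : ℝ → E m, ContDiff ℝ 1 c ∧ c 0 = p ∧ c 1 = q ∧ L = G.length c}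

/-- The angle between two tangent vectors at `x`. -/
noncomputable def angle (x u v : E m) : ℝ := arccos (G.g x u v / (G.nrm x u * G.nrm x v))

/-- `c` is a geodesic with unit speed (at the time `0`, hence always). -/
def Unit1 (c : ℝ → E m) : Prop := G.IsGeodesic c ∧ G.nrm (c 0) (deriv c 0) = 1

/-- The geodesic segments from `p` to `q`. -/
def seg (p q : E m) : Set (E m) :=
  {x | ∃ c : ℝ → E m, G.IsGeodesic c ∧ c 0 = p ∧ c 1 = q ∧ ∃ s ∈ Icc (0 : ℝ) 1, c s = x}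

/-- The closed ideal triangle spanned by the point `y` and the ray `c`: the closure of the union of
the geodesic segments from `y` to the points `c t`, `t ≥ 0`. -/
def tri (c : ℝ → E m) (y : E m) : Set (E m) := closure {x | ∃ t, 0 ≤ t ∧ x ∈ G.seg y (c t)}

/-- The geodesics `δ` and `γ` stay at bounded distance for positive times. -/
def Asym (δ γ : ℝ → E m) : Prop := ∃ K, ∀ t, 0 ≤ t → G.rdist (δ t) (γ t) ≤ K

end Metric

variable {m : ℕ}

/-- The logarithm (inverse of the exponential map) of hyperbolic space at `y`, in the hyperboloid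
model: the tangent vector at `y` which points to `p`, of length `dist y p`. -/
noncomputable def hlog (y p : Hyp m) : ℝ × E m :=
  (dist y p / sinh (dist y p)) • (p.vec - cosh (dist y p) • y.vec)

/-- The hypotheses of Q1: `γ` is a geodesic with unit speed, `x = γ(0)`, `y ≠ x`, `σ` the geodesic
from `x` to `y`; `γ₁` is a ray in hyperbolic space, `x₁ = γ₁(0)`, `σ₁` the segment from `x₁` to `y₁`;
`|xy| = |x₁y₁|`, the Busemann functions have the same value at `y` and at `y₁`, and the angles at `x` and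
at `x₁` are equal. -/
structure SameData (G : Metric m) (γ σ : ℝ → E m) (y : E m) (γ₁ σ₁ : ℝ → Hyp m) (y₁ : Hyp m) :
    Prop where
  ray : G.Unit1 γ
  ne : y ≠ γ 0
  seg : G.Unit1 σ ∧ σ 0 = γ 0 ∧ σ (G.rdist (γ 0) y) = y
  ray₁ : IsRay γ₁
  seg₁ : IsSeg σ₁ (γ₁ 0) y₁
  dist_eq : G.rdist (γ 0) y = dist (γ₁ 0) y₁
  busemann_eq : ∃ b : ℝ, Tendsto (fun t : ℝ => G.rdist y (γ t) - t) atTop (𝓝 b) ∧
    IsBusemann γ₁ y₁ b
  angle_eq : IsAngle γ₁ σ₁ (G.angle (γ 0) (deriv γ 0) (deriv σ 0))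

/-- `δ` is the only geodesic with unit speed from `y` which is asymptotic to `γ`. -/
def ThirdSide (G : Metric m) (γ : ℝ → E m) (y : E m) (δ : ℝ → E m) : Prop :=
  (G.Unit1 δ ∧ δ 0 = y ∧ G.Asym δ γ) ∧
    ∀ δ' : ℝ → E m, G.Unit1 δ' → δ' 0 = y → G.Asym δ' γ → δ' = δ

/-- `δ₁` is a ray from `y₁` in hyperbolic space which is asymptotic to `γ₁`. -/
def ThirdSide₁ (γ₁ : ℝ → Hyp m) (y₁ : Hyp m) (δ₁ : ℝ → Hyp m) : Prop :=
  IsRay δ₁ ∧ δ₁ 0 = y₁ ∧ ∃ K, ∀ t, 0 ≤ t → dist (δ₁ t) (γ₁ t) ≤ K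

/-- `Φ` maps the hyperbolic ideal triangle `T₁` spanned by `y₁` and `γ₁` bijectively onto the ideal
triangle spanned by `y` and `γ`, preserves distances, and maps the sides `σ₁`, `γ₁`, `δ₁` to the sides
`σ`, `γ`, `δ`. -/
structure Matches (G : Metric m) (γ σ δ : ℝ → E m) (y : E m) (γ₁ σ₁ δ₁ : ℝ → Hyp m) (y₁ : Hyp m)
    (Φ : Hyp m → E m) : Prop where
  bij : BijOn Φ (idealTriangle γ₁ y₁) (G.tri γ y)
  dist_eq : ∀ p ∈ idealTriangle γ₁ y₁, ∀ q ∈ idealTriangle γ₁ y₁,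
    G.rdist (Φ p) (Φ q) = dist p q
  side_xy : ∀ s ∈ Icc 0 (dist (γ₁ 0) y₁), σ₁ s ∈ idealTriangle γ₁ y₁ ∧ Φ (σ₁ s) = σ s
  side_xz : ∀ t, 0 ≤ t → γ₁ t ∈ idealTriangle γ₁ y₁ ∧ Φ (γ₁ t) = γ t
  side_yz : ∀ t, 0 ≤ t → δ₁ t ∈ idealTriangle γ₁ y₁ ∧ Φ (δ₁ t) = δ t

/-- The map `ι` is isometric on the tangent vectors `log_(y₁)(p)`, `p ∈ T₁`. -/
def IsoOn (G : Metric m) (y : E m) (y₁ : Hyp m) (T₁ : Set (Hyp m)) (ι : ℝ × E m → E m) : Prop :=
  ∀ p ∈ T₁, ∀ q ∈ T₁, G.g y (ι (hlog y₁ p)) (ι (hlog y₁ q)) = -lor (hlog y₁ p) (hlog y₁ q)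

/-- On the set `T₁` the map `Φ` is `exp_y ∘ ι ∘ log_(y₁)` with a linear map `ι` which is isometric
on `log_(y₁)(T₁)`, and `ι(log_(y₁)(T₁))` is contained in a linear subspace `P` of dimension at
most 2: the point `Φ p` is `c 1` for the geodesic `c` with `c 0 = y`, `c' 0 = ι (log_(y₁) p)`. -/
def ExpLog (G : Metric m) (y : E m) (y₁ : Hyp m) (T₁ : Set (Hyp m)) (Φ : Hyp m → E m) : Prop :=
  ∃ (P : Submodule ℝ (E m)) (ι : ℝ × E m →ₗ[ℝ] E m), Module.finrank ℝ P ≤ 2 ∧
    IsoOn G y y₁ T₁ ι ∧ ∀ p ∈ T₁, ι (hlog y₁ p) ∈ P ∧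
      ∃ c : ℝ → E m, G.IsGeodesic c ∧ c 0 = y ∧ deriv c 0 = ι (hlog y₁ p) ∧ c 1 = Φ p

end Pool.Agent.Work.MP_a6f1bd_M
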