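import Pool.Agent.Work.MP_a6f1bd_R.Assembly
import Pool.Agent.Work.MP_a6f1bd_R.Light

/-!
# The two definitions of a Riemannian metric agree
-/

set_option autoImplicit false

namespace Pool.Agent.Work.MP_a6f1bd_M

open Real Filter Topology Set
open scoped ContDiff
open Pool.Agent.Work.MP_a6f1bd_gt
open Pool.Agent.Work.MP_a6f1bd_R (RMetric Stmt_GAM Stmt_RLN)

variable {m : ℕ}

/-- The metric tensor at a point, as a continuous bilinear form. -/
noncomputable def toBil (G : Metric m) (x : E m) : E m →L[ℝ] E m →L[ℝ] ℝ :=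
  LinearMap.toContinuousLinearMap
    ((LinearMap.toContinuousLinearMap : (E m →ₗ[ℝ] ℝ) ≃ₗ[ℝ] (E m →L[ℝ] ℝ)).toLinearMap ∘ₗ
      LinearMap.mk₂ ℝ (G.g x) (G.add x) (G.smul x)
        (fun u v w => by rw [G.symm, G.add, G.symm x v, G.symm x w])
        (fun a u v => by rw [G.symm, G.smul, G.symm x v]; rfl))

theorem toBil_apply (G : Metric m) (x v w : E m) : toBil G x v w = G.g x v w := rfl

/-- The metric in the sense of `Defs.lean`. -/
noncomputable def toR (G : Metric m) : RMetric m where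
  g := toBil G
  smooth := by
    rw [contDiff_clm_apply_iff]
    intro v
    rw [contDiff_clm_apply_iff]
    intro w
    exact G.smooth v w
  symm := G.symm
  pos := G.pos

theorem g_eq (G : Metric m) (x v w : E m) : (toR G).g x v w = G.g x v w := rfl

theorem nrm_eq (G : Metric m) (x v : E m) : (toR G).nrm x v = G.nrm x v := rfl

theorem dg_eq (G : Metric m) (x u v w : E m) :
    fderiv ℝ (toR G).g x u v w = G.dg x u v w := by
  have hd : DifferentiableAt ℝ (toR G).g x := (toR G).smooth.differentiable (by simp) x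
  have h := (Pool.Agent.Work.MP_a6f1bd_R.X_SYR.ev2 hd.hasFDerivAt v w).fderiv
  have h3 : fderiv ℝ (fun y => (toR G).g y v w) x u = G.dg x u v w := rfl
  rw [← h3, h]
  rfl

theorem Gam_eq (G : Metric m) (x u v : E m) : (toR G).Gam x u v = G.Gam x u v := by
  obtain ⟨B, hB, hG, hk, hs⟩ := Pool.Agent.Work.MP_a6f1bd_R.All.a_GAM m (toR G)
  have h1 : ∀ w, G.g x ((toR G).Gam x u v) w =
      (G.dg x u v w + G.dg x v u w - G.dg x w u v) / 2 := by
    intro w
    have h := hk x u v w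
    rw [← hG, dg_eq, dg_eq, dg_eq] at h
    exact h
  have h2 : ∀ w, G.g x (G.Gam x u v) w =
      (G.dg x u v w + G.dg x v u w - G.dg x w u v) / 2 :=
    Classical.epsilon_spec (p := fun z : E m => ∀ w, G.g x z w =
      (G.dg x u v w + G.dg x v u w - G.dg x w u v) / 2) ⟨_, h1⟩
  by_contra hne
  have h3 := G.pos x ((toR G).Gam x u v - G.Gam x u v) (sub_ne_zero.2 hne)
  have h4 : ∀ w, G.g x ((toR G).Gam x u v - G.Gam x u v) w = 0 := by
    intro w
    have h5 := G.add x ((toR G).Gam x u v - G.Gam x u v) (G.Gam x u v) w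
    rw [sub_add_cancel, h1, h2] at h5
    linarith
  rw [h4] at h3
  exact lt_irrefl _ h3

theorem Rm_eq (G : Metric m) (x u v w : E m) : (toR G).Rm x u v w = G.Rm x u v w := by
  unfold RMetric.Rm Metric.Rm Metric.dGam
  simp only [Gam_eq]

theorem sec_eq (G : Metric m) (x u v : E m) : (toR G).sec x u v = G.sec x u v := by
  unfold RMetric.sec Metric.sec
  rw [Rm_eq]
  rfl

theorem geo_iff (G : Metric m) (c : ℝ → E m) : (toR G).IsGeodesic c ↔ G.IsGeodesic c := by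
  unfold RMetric.IsGeodesic Metric.IsGeodesic
  simp only [Gam_eq]

theorem complete_iff (G : Metric m) : (toR G).Complete ↔ G.Complete := by
  unfold RMetric.Complete Metric.Complete
  simp only [geo_iff]

theorem length_eq (G : Metric m) (c : ℝ → E m) : (toR G).length c = G.length c := rfl

theorem rdist_eq (G : Metric m) (p q : E m) : (toR G).rdist p q = G.rdist p q := rfl

theorem angle_eq (G : Metric m) (x u v : E m) : (toR G).angle x u v = G.angle x u v := rfl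

theorem unit_iff (G : Metric m) (c : ℝ → E m) : (toR G).Unit1 c ↔ G.Unit1 c := by
  unfold RMetric.Unit1 Metric.Unit1
  rw [geo_iff]
  rfl

theorem seg_eq (G : Metric m) (p q : E m) : (toR G).seg p q = G.seg p q := by
  unfold RMetric.seg Metric.seg
  simp only [geo_iff]

theorem tri_eq (G : Metric m) (c : ℝ → E m) (y : E m) : (toR G).tri c y = G.tri c y := by
  unfold RMetric.tri Metric.tri
  simp only [seg_eq]

theorem asym_iff (G : Metric m) (δ γ : ℝ → E m) : (toR G).Asym δ γ ↔ G.Asym δ γ := Iff.rfl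

open Pool.Agent.Work.MP_a6f1bd_R in
/-- The theorem. -/
theorem main (m : ℕ) (G : Metric m) (hc : G.Complete) (hp : G.Pinched)
    (γ σ : ℝ → E m) (y : E m) (γ₁ σ₁ : ℝ → Hyp m) (y₁ : Hyp m)
    (h : SameData G γ σ y γ₁ σ₁ y₁) :
    (∀ p ∈ G.tri γ y, ∀ q ∈ G.tri γ y, G.seg p q ⊆ G.tri γ y) ∧
    ∃ (δ : ℝ → E m) (δ₁ : ℝ → Hyp m) (Φ : Hyp m → E m),
      ThirdSide G γ y δ ∧ ThirdSide₁ γ₁ y₁ δ₁ ∧ Matches G γ σ δ y γ₁ σ₁ δ₁ y₁ Φ ∧
      ExpLog G y y₁ (idealTriangle γ₁ y₁) Φ := by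
  have hc' : (toR G).Complete := (complete_iff G).2 hc
  have hN : (toR G).Npc := (All.a_SEC m (toR G)).1 fun x u v huv => by
    rw [sec_eq]; exact (hp x u v huv).2
  have hC : (toR G).Cge := (All.a_SEC m (toR G)).2 fun x u v huv => by
    rw [sec_eq]; exact (hp x u v huv).1
  obtain ⟨b, hb, hb₁⟩ := h.busemann_eq
  have hγ : (toR G).Unit1 γ := (unit_iff G γ).2 h.ray
  obtain ⟨δ, ⟨hδ, hδ0, hδa⟩, hu⟩ := third_side All.a_CSC All.a_GEO All.a_EXD All.a_INJ All.a_DIS
    All.a_MIN All.a_TOP All.a_NPB (toR G) hc' hN γ hγ y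
  obtain ⟨hconv, Φ, hbij, hiso, hseg, hray, hasy, P, ι, hP, hι, hι2⟩ := All.a_FIN m (toR G) hc' hN
    hC γ hγ y h.ne σ ((unit_iff G σ).2 h.seg.1) h.seg.2.1 h.seg.2.2 γ₁ σ₁ y₁ h.ray₁ h.seg₁
    h.dist_eq b hb hb₁ h.angle_eq
  obtain ⟨δ₁, h1, h2, h3, h4⟩ := hasy δ hδ hδ0 hδa
  rw [tri_eq] at hconv hbij
  refine ⟨fun p hp q hq => by rw [← seg_eq]; exact hconv p hp q hq, δ, δ₁, Φ,
    ⟨⟨(unit_iff G δ).1 hδ, hδ0, hδa⟩, fun δ' a b c => hu δ' ⟨(unit_iff G δ').2 a, b, c⟩⟩,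
    ⟨h1, h2, h3⟩, ⟨hbij, hiso, hseg, hray, h4⟩, P, ι, hP, hι2, fun p hp => ⟨(hι p hp).1,
    (toR G).gd hc' y (ι (hlog y₁ p)), (geo_iff G _).1 ((toR G).gd_geo hc' _ _),
    (toR G).gd_zero hc' _ _, (toR G).gd_deriv_zero hc' _ _, ?_⟩⟩
  exact (hι p hp).2.symm

end Pool.Agent.Work.MP_a6f1bd_M
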